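import Mathlib

/-!
# Few algebraic values of the Gamma function of small size (MP_84d916_nt): definitions

* `AV d H x`: `x` is algebraic of degree at most `d` and height at most `H`.
* `Gi = 1 / Γ`, an entire function.
* `GB d N H r`: `r` is a rational number in `(0, 1]` of denominator at most `N`, and `1 / Γ(r)` is algebraic of
  degree at most `d` and height at most `H`.
* `Fx T1 T2 c z = ∑ c i j * z ^ i * Gi z ^ j`, `i ≤ T1`, `j ≤ T2`: the auxiliary function.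
* `bX`, `bY`: bounds.  `qw`: the coefficients of the value of `Fx` at `r - m`.
-/

set_option autoImplicit false

open Finset

namespace GQ

/-- `x` is a root of a nonzero integer polynomial of degree at most `d` with coefficients of absolute
value at most `H` -/
def AV (d : ℕ) (H x : ℝ) : Prop :=
  ∃ q : Polynomial ℤ, q ≠ 0 ∧ q.natDegree ≤ d ∧ (∀ i, |(q.coeff i : ℝ)| ≤ H) ∧
    Polynomial.aeval x q = 0

/-- the entire function `1 / Γ` -/
noncomputable def Gi (z : ℂ) : ℂ := (Complex.Gamma z)⁻¹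

/-- `r ∈ (0, 1]` has denominator at most `N`, and `1 / Γ(r)` is algebraic of degree at most `d` and
height at most `H` -/
def GB (d N : ℕ) (H : ℝ) (r : ℚ) : Prop :=
  0 < r ∧ r ≤ 1 ∧ r.den ≤ N ∧ ∃ q : Polynomial ℤ, 1 ≤ q.natDegree ∧ q.natDegree ≤ d ∧
    (∀ i, |(q.coeff i : ℝ)| ≤ H) ∧ Polynomial.aeval (Real.Gamma (r : ℝ))⁻¹ q = 0

/-- the auxiliary function -/
noncomputable def Fx (T1 T2 : ℕ) (c : ℕ → ℕ → ℤ) (z : ℂ) : ℂ :=
  ∑ i ∈ range (T1 + 1), ∑ j ∈ range (T2 + 1), (c i j : ℂ) * z ^ i * Gi z ^ j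

/-- the bound for the coefficients -/
noncomputable def bX (T1 T2 M N : ℕ) (H : ℝ) : ℝ :=
  (((T1 + 1) * (T2 + 1) : ℕ) : ℝ) * (((N * M) ^ (T1 + M * T2) : ℕ) : ℝ) * (2 * H) ^ T2

/-- the bound for the values at `r - m` -/
noncomputable def bY (T1 T2 m N : ℕ) (X H : ℝ) : ℝ :=
  (((T1 + 1) * (T2 + 1) : ℕ) : ℝ) * X * (((N * (m + 1)) ^ (T1 + m * T2) : ℕ) : ℝ) * (2 * H) ^ T2

/-- the coefficient of `(h β) ^ j` in the value at `a / b - m`, `β = 1 / Γ(a / b)` -/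
def qw (T1 T2 : ℕ) (c : ℕ → ℕ → ℤ) (a b h : ℤ) (m j : ℕ) : ℤ :=
  ∑ i ∈ range (T1 + 1), c i j * (b ^ (T1 - i) * (a - m * b) ^ i) *
    (b ^ (m * (T2 - j)) * (∏ k ∈ range m, (a - (k + 1) * b)) ^ j) * h ^ (T2 - j)

end GQ
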