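import Mathlib
import Pool.Agent.Lib.GQ.Defs

/-!
# Reduction of powers

Let `e = q.natDegree`, `a = q.leadingCoeff`, `a_l = q.coeff l`. Induction on `j` (first construct `ρ j` from `ρ (j-1)` with a recursive definition or with `∃` for each `j` and `choose`): `j = 0`: `ρ 0 0 = 1`, else `0` (`0 < e ≤ d`).
If `(a β)^j = ∑_{l < e} ρ j l β^l` with `ρ j l = 0` for `l ≥ e`, then `(a β)^(j+1) = ∑_{l < e} a ρ j l β^(l+1)` and the term `l = e - 1` is
`ρ j (e-1) a β^e = - ρ j (e-1) ∑_{l<e} a_l β^l`. So `ρ (j+1) l = a ρ j (l-1) - ρ j (e-1) a_l` for `0 < l < e`, `ρ (j+1) 0 = - ρ j (e-1) a_0`, `ρ (j+1) l = 0` for `l ≥ e`: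
`|ρ (j+1) l| ≤ 2 H max |ρ j|`. (Carry the condition `ρ j l = 0` for `l ≥ e` in the induction.)
-/

set_option autoImplicit false

open Finset

namespace GQ

namespace RedAux

/-- the coefficients of the reduced powers, `e' + 1` the degree -/
def rr (q : Polynomial ℤ) (e' : ℕ) : ℕ → ℕ → ℤ
  | 0, l => if l = 0 then 1 else 0
  | j + 1, l => if l < e' + 1 then
      (if l = 0 then 0 else q.leadingCoeff * rr q e' j (l - 1)) - rr q e' j e' * q.coeff l
    else 0

theorem rr_zero (q : Polynomial ℤ) (e' : ℕ) : ∀ (j l : ℕ), e' + 1 ≤ l → rr q e' j l = 0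
  | 0, l, h => by
    unfold rr
    rw [if_neg (by omega)]
  | j + 1, l, h => by
    unfold rr
    rw [if_neg (by omega)]

theorem rr_bound {H : ℝ} (hH : 1 ≤ H) (q : Polynomial ℤ) (e' : ℕ)
    (hc : ∀ i, |(q.coeff i : ℝ)| ≤ H) : ∀ (j l : ℕ), |(rr q e' j l : ℝ)| ≤ (2 * H) ^ j
  | 0, l => by
    unfold rr
    split_ifs <;> simp
  | j + 1, l => by
    have ih := rr_bound hH q e' hc j
    have h0 : (0 : ℝ) ≤ (2 * H) ^ j := by positivity
    have hlc : |(q.leadingCoeff : ℝ)| ≤ H := hc _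
    unfold rr
    split_ifs with h1 h2
    · push_cast
      rw [zero_sub, abs_neg, abs_mul, pow_succ]
      calc |(rr q e' j e' : ℝ)| * |(q.coeff l : ℝ)| ≤ (2 * H) ^ j * H :=
            mul_le_mul (ih _) (hc _) (abs_nonneg _) h0
        _ ≤ (2 * H) ^ j * (2 * H) := by nlinarith
    · push_cast
      have e1 : |(q.leadingCoeff : ℝ) * (rr q e' j (l - 1) : ℝ)| ≤ H * (2 * H) ^ j := by
        rw [abs_mul]
        exact mul_le_mul hlc (ih _) (abs_nonneg _) (by linarith)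
      have e2 : |(rr q e' j e' : ℝ) * (q.coeff l : ℝ)| ≤ (2 * H) ^ j * H := by
        rw [abs_mul]
        exact mul_le_mul (ih _) (hc _) (abs_nonneg _) h0
      calc |(q.leadingCoeff : ℝ) * (rr q e' j (l - 1) : ℝ) - (rr q e' j e' : ℝ) * (q.coeff l : ℝ)|
          ≤ |(q.leadingCoeff : ℝ) * (rr q e' j (l - 1) : ℝ)| +
            |(rr q e' j e' : ℝ) * (q.coeff l : ℝ)| := abs_sub _ _
        _ ≤ H * (2 * H) ^ j + (2 * H) ^ j * H := add_le_add e1 e2
        _ = (2 * H) ^ (j + 1) := by ring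
    · simp only [Int.cast_zero, abs_zero]
      positivity

theorem rr_sum (q : Polynomial ℤ) (e' : ℕ) (he : q.natDegree = e' + 1) (β : ℝ)
    (hβ : Polynomial.aeval β q = 0) : ∀ j : ℕ,
    ((q.leadingCoeff : ℝ) * β) ^ j = ∑ l ∈ range (e' + 1), (rr q e' j l : ℝ) * β ^ l
  | 0 => by
    rw [Finset.sum_range_succ']
    simp [rr]
  | j + 1 => by
    have ih := rr_sum q e' he β hβ j
    have h1 : (q.leadingCoeff : ℝ) * β ^ (e' + 1) =
        - ∑ l ∈ range (e' + 1), (q.coeff l : ℝ) * β ^ l := by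
      have h2 := Polynomial.aeval_eq_sum_range (p := q) β
      rw [hβ, he, Finset.sum_range_succ] at h2
      simp only [zsmul_eq_mul] at h2
      have h3 : q.coeff (e' + 1) = q.leadingCoeff := by
        rw [Polynomial.leadingCoeff, he]
      rw [h3] at h2
      linarith
    rw [pow_succ, ih, Finset.sum_mul]
    have h4 : ∑ l ∈ range (e' + 1), (rr q e' (j + 1) l : ℝ) * β ^ l =
        ∑ l ∈ range (e' + 1), ((if l = 0 then 0 else
          (q.leadingCoeff : ℝ) * (rr q e' j (l - 1) : ℝ)) * β ^ l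
          - (rr q e' j e' : ℝ) * ((q.coeff l : ℝ) * β ^ l)) := by
      refine Finset.sum_congr rfl fun l hl => ?_
      have hl' : l < e' + 1 := Finset.mem_range.1 hl
      conv_lhs => unfold rr
      rw [if_pos hl']
      split_ifs with h5
      · push_cast
        ring
      · push_cast
        ring
    have h6 : ∑ l ∈ range (e' + 1), (if l = 0 then 0 else
          (q.leadingCoeff : ℝ) * (rr q e' j (l - 1) : ℝ)) * β ^ l =
        ∑ l ∈ range e', (rr q e' j l : ℝ) * β ^ l * ((q.leadingCoeff : ℝ) * β) := by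
      rw [Finset.sum_range_succ', if_pos rfl, zero_mul, add_zero]
      refine Finset.sum_congr rfl fun l hl => ?_
      rw [if_neg (by omega), Nat.add_sub_cancel]
      ring
    rw [h4, Finset.sum_sub_distrib, ← Finset.mul_sum, h6, Finset.sum_range_succ]
    have h7 : (rr q e' j e' : ℝ) * β ^ e' * ((q.leadingCoeff : ℝ) * β) =
        (rr q e' j e' : ℝ) * ((q.leadingCoeff : ℝ) * β ^ (e' + 1)) := by ring
    rw [h7, h1]
    ring

end RedAux

open RedAux

theorem red {d : ℕ} {H : ℝ} (hH : 1 ≤ H) (q : Polynomial ℤ) (hq1 : 1 ≤ q.natDegree)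
    (hqd : q.natDegree ≤ d) (hc : ∀ i, |(q.coeff i : ℝ)| ≤ H) (β : ℝ)
    (hβ : Polynomial.aeval β q = 0) :
    ∃ ρ : ℕ → ℕ → ℤ, (∀ j, ((q.leadingCoeff : ℝ) * β) ^ j = ∑ l ∈ range d, (ρ j l : ℝ) * β ^ l) ∧
      ∀ j l, |(ρ j l : ℝ)| ≤ (2 * H) ^ j := by
  obtain ⟨e', he⟩ : ∃ e', q.natDegree = e' + 1 := ⟨q.natDegree - 1, by omega⟩
  refine ⟨rr q e', fun j => ?_, rr_bound hH q e' hc⟩
  rw [rr_sum q e' he β hβ j]
  refine Finset.sum_subset (fun l hl => ?_) (fun l _ hl => ?_)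
  · rw [Finset.mem_range] at hl ⊢
    omega
  · rw [Finset.mem_range, not_lt] at hl
    rw [rr_zero q e' j l hl]
    simp

end GQ
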