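import Mathlib
import Pool.Agent.Lib.GQ.Defs

/-!
# Values of `1 / Γ` at translates

* `shift`: induction on `m` with `Complex.one_div_Gamma_eq_self_mul_one_div_Gamma_add_one` at `z - (m + 1)`.
* `Gi_neg`: `Complex.Gamma_neg_nat_eq_zero`.
* `Gi_real`: `Complex.Gamma_ofReal`.
* `inv_Gamma_ge`: `Γ (x + 1) = x Γ x` and `Γ ≤ 1` on `[1, 2]` (convexity `Real.convexOn_Gamma`, `Γ 1 = Γ 2 = 1`), so `x ≤ (Γ x)⁻¹`.
* `av_inv`: the reversed polynomial `q.reverse` (`Polynomial.coeff_reverse`, `Polynomial.reverse_natDegree_le`, `Polynomial.eval₂_reverse_eq_zero_iff`); a nonzero polynomial with a root is not constant, so `1 ≤ natDegree`.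
-/

set_option autoImplicit false

open Finset

namespace GQ

theorem shift (z : ℂ) (m : ℕ) : Gi (z - m) = Gi z * ∏ k ∈ range m, (z - (k + 1)) := by
  induction m with
  | zero => simp
  | succ m ih =>
    have h1 : Gi (z - ((m + 1 : ℕ) : ℂ)) = (z - (m + 1)) * Gi (z - m) := by
      have h2 := Complex.one_div_Gamma_eq_self_mul_one_div_Gamma_add_one (z - ((m : ℂ) + 1))
      have h3 : z - ((m : ℂ) + 1) + 1 = z - m := by ring
      rw [h3] at h2
      unfold Gi
      push_cast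
      exact h2
    rw [h1, ih, prod_range_succ]
    ring

theorem Gi_neg (m : ℕ) : Gi (-(m : ℂ)) = 0 := by
  unfold Gi
  rw [Complex.Gamma_neg_nat_eq_zero, inv_zero]

theorem Gi_real (x : ℝ) : Gi (x : ℂ) = (((Real.Gamma x)⁻¹ : ℝ) : ℂ) := by
  unfold Gi
  rw [Complex.Gamma_ofReal, Complex.ofReal_inv]

theorem inv_Gamma_ge {x : ℝ} (h0 : 0 < x) (h1 : x ≤ 1) : x ≤ (Real.Gamma x)⁻¹ := by
  have hG : 0 < Real.Gamma x := Real.Gamma_pos_of_pos h0
  have h2 : Real.Gamma (x + 1) = x * Real.Gamma x := Real.Gamma_add_one h0.ne'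
  have h3 : Real.Gamma (x + 1) ≤ 1 := by
    have hm1 : (1 : ℝ) ∈ Set.Ioi (0 : ℝ) := Set.mem_Ioi.2 one_pos
    have hm2 : (2 : ℝ) ∈ Set.Ioi (0 : ℝ) := Set.mem_Ioi.2 two_pos
    have hx0 : (0 : ℝ) ≤ 1 - x := by linarith
    have hx1 : (1 - x) + x = 1 := by ring
    have hc := Real.convexOn_Gamma.2 hm1 hm2 hx0 h0.le hx1
    have h4 : (1 - x) • (1 : ℝ) + x • (2 : ℝ) = x + 1 := by
      simp only [smul_eq_mul]; ring
    rw [h4, Real.Gamma_one, Real.Gamma_two] at hc
    simp only [smul_eq_mul] at hc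
    linarith
  rw [h2] at h3
  rw [le_inv_comm₀ h0 hG, inv_eq_one_div, le_div_iff₀ h0]
  linarith

theorem av_inv {d N : ℕ} {H : ℝ} {r : ℚ} (h0 : 0 < r) (h1 : r ≤ 1) (hN : r.den ≤ N)
    (h : AV d H (Real.Gamma (r : ℝ))) : GB d N H r := by
  obtain ⟨q, hq, hd, hH, hz⟩ := h
  have hG : Real.Gamma (r : ℝ) ≠ 0 :=
    (Real.Gamma_pos_of_pos (by exact_mod_cast h0)).ne'
  have hz2 : Polynomial.aeval (Real.Gamma (r : ℝ))⁻¹ q.reverse = 0 := by
    have : Invertible (Real.Gamma (r : ℝ)) := invertibleOfNonzero hG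
    have h3 := (Polynomial.eval₂_reverse_eq_zero_iff (algebraMap ℤ ℝ) (Real.Gamma (r : ℝ)) q).2
      (by rwa [Polynomial.aeval_def] at hz)
    rw [invOf_eq_inv] at h3
    rwa [Polynomial.aeval_def]
  refine ⟨h0, h1, hN, q.reverse, ?_, ?_, ?_, hz2⟩
  · by_contra hlt
    have h4 : q.reverse.natDegree = 0 := by omega
    rw [Polynomial.natDegree_eq_zero] at h4
    obtain ⟨c, hc⟩ := h4
    rw [← hc, Polynomial.aeval_C] at hz2
    have h5 : c = 0 := by
      have : (c : ℝ) = 0 := by simpa using hz2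
      exact_mod_cast this
    apply hq
    rw [← Polynomial.reverse_eq_zero, ← hc, h5, map_zero]
  · exact (Polynomial.reverse_natDegree_le q).trans hd
  · intro i
    rw [Polynomial.coeff_reverse]
    exact hH _

end GQ
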