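import Mathlib
import Pool.Agent.Lib.GQ.Defs
import Pool.Agent.Lib.GQ.Shift

/-!
# The value of the auxiliary function at `r - m`

`a = r.num`, `b = r.den`, `r = a / b`; by `shift` `Gi (r - m) = Gi r * ∏ k ∈ range m, (r - (k+1))`, `b * (r - m) = a - m b`, `b ^ m * ∏ k ∈ range m, (r - (k+1)) = ∏ k ∈ range m, (a - (k+1) b)`.
* `star`: termwise: `b^(T1 + m T2) h^T2 (r-m)^i (β ∏)^j = b^(T1-i) (a-mb)^i b^(m(T2-j)) (∏ (a-(k+1)b))^j h^(T2-j) (h β)^j` for `i ≤ T1`, `j ≤ T2`.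
* `coef_le`: `0 < a ≤ b ≤ N`: `|b| ≤ N (m+1)`, `|a - m b| ≤ N (m+1)`, `|∏ (a-(k+1)b)| ≤ (N (m+1))^m` (each factor `|a - (k+1) b| ≤ (k+1) b ≤ m N` for `k < m`), so the product is at most `(N(m+1))^(T1-i+i+m(T2-j)+mj)`.
-/

set_option autoImplicit false

open Finset

namespace GQ

namespace StarAux

private theorem den_mul (r : ℚ) : (r.den : ℂ) * (r : ℂ) = (r.num : ℂ) := by
  have h : (r.den : ℚ) * r = (r.num : ℚ) := by
    rw [mul_comm]; exact Rat.mul_den_eq_num r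
  exact_mod_cast congrArg (fun q : ℚ => (q : ℂ)) h

private theorem prod_eq (r : ℚ) (m : ℕ) :
    (r.den : ℂ) ^ m * ∏ k ∈ range m, ((r : ℂ) - (k + 1)) =
      ∏ k ∈ range m, ((r.num : ℂ) - (k + 1) * (r.den : ℂ)) := by
  have h1 : (r.den : ℂ) ^ m = ∏ _k ∈ range m, (r.den : ℂ) := by
    rw [Finset.prod_const, Finset.card_range]
  rw [h1, ← Finset.prod_mul_distrib]
  refine Finset.prod_congr rfl fun k _ => ?_
  rw [mul_sub, den_mul]
  ring

private theorem term_eq (a b h g r m' P P' : ℂ) (T1 T2 m i j : ℕ) (hi : i ≤ T1) (hj : j ≤ T2)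
    (h1 : b * (r - m') = a - m' * b) (h2 : b ^ m * P = P') (c : ℂ) :
    b ^ (T1 + m * T2) * h ^ T2 * (c * (r - m') ^ i * (g * P) ^ j) =
      c * (b ^ (T1 - i) * (a - m' * b) ^ i) * (b ^ (m * (T2 - j)) * P' ^ j) * h ^ (T2 - j) *
        (h * g) ^ j := by
  obtain ⟨s, rfl⟩ := Nat.exists_eq_add_of_le hi
  obtain ⟨t, rfl⟩ := Nat.exists_eq_add_of_le hj
  rw [← h1, ← h2, Nat.add_sub_cancel_left, Nat.add_sub_cancel_left, mul_pow b (r - m') i]
  ring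

end StarAux

open StarAux in
theorem star (T1 T2 : ℕ) (c : ℕ → ℕ → ℤ) (r : ℚ) (h : ℤ) (m : ℕ) :
    (r.den : ℂ) ^ (T1 + m * T2) * (h : ℂ) ^ T2 * Fx T1 T2 c ((r : ℂ) - m) =
      ∑ j ∈ range (T2 + 1), (qw T1 T2 c r.num r.den h m j : ℂ) * ((h : ℂ) * Gi (r : ℂ)) ^ j := by
  have h1 : (r.den : ℂ) * ((r : ℂ) - m) = (r.num : ℂ) - m * (r.den : ℂ) := by
    rw [mul_sub, den_mul]; ring
  unfold Fx
  rw [shift, Finset.sum_comm, Finset.mul_sum]
  refine Finset.sum_congr rfl fun j hj => ?_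
  have hj' : j ≤ T2 := Nat.lt_succ_iff.1 (Finset.mem_range.1 hj)
  unfold qw
  rw [Finset.mul_sum]
  push_cast
  rw [Finset.sum_mul]
  refine Finset.sum_congr rfl fun i hi => ?_
  have hi' : i ≤ T1 := Nat.lt_succ_iff.1 (Finset.mem_range.1 hi)
  exact term_eq (r.num : ℂ) (r.den : ℂ) (h : ℂ) (Gi (r : ℂ)) (r : ℂ) (m : ℂ) _ _ T1 T2 m i j hi'
    hj' h1 (prod_eq r m) (c i j : ℂ)

theorem coef_le (T1 T2 N : ℕ) (r : ℚ) (h0 : 0 < r) (h1 : r ≤ 1) (hN : r.den ≤ N) (m i j : ℕ)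
    (hi : i ≤ T1) (hj : j ≤ T2) :
    |(((r.den : ℤ) ^ (T1 - i) * (r.num - m * (r.den : ℤ)) ^ i) *
      ((r.den : ℤ) ^ (m * (T2 - j)) * (∏ k ∈ range m, (r.num - (k + 1) * (r.den : ℤ))) ^ j) : ℤ)| ≤
      (((N * (m + 1)) ^ (T1 + m * T2) : ℕ) : ℤ) := by
  have hnum0 : 0 < r.num := Rat.num_pos.2 h0
  have hden0 : (0 : ℤ) < (r.den : ℤ) := by exact_mod_cast r.den_pos
  have hle : r.num ≤ (r.den : ℤ) := by
    have hh : (r.num : ℚ) ≤ (r.den : ℚ) := by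
      have := Rat.mul_den_eq_num r
      rw [← this]
      have hd : (0 : ℚ) ≤ (r.den : ℚ) := by positivity
      nlinarith
    exact_mod_cast hh
  have hNz : (r.den : ℤ) ≤ (N : ℤ) := by exact_mod_cast hN
  have hN1 : (1 : ℤ) ≤ (N : ℤ) := by linarith
  have hm0 : (0 : ℤ) ≤ (m : ℤ) := by positivity
  set B : ℤ := (N : ℤ) * ((m : ℤ) + 1) with hB
  have hB0 : 0 ≤ B := by positivity
  have hb : |(r.den : ℤ)| ≤ B := by
    rw [abs_of_pos hden0, hB]
    nlinarith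
  have hamb : |r.num - m * (r.den : ℤ)| ≤ B := by
    rw [abs_le, hB]
    constructor
    · nlinarith [mul_le_mul_of_nonneg_left hNz hm0]
    · nlinarith [mul_nonneg hm0 hden0.le, mul_nonneg hm0 (by linarith : (0:ℤ) ≤ N)]
  have hP : |∏ k ∈ range m, (r.num - (k + 1) * (r.den : ℤ))| ≤ B ^ m := by
    rw [Finset.abs_prod]
    calc ∏ k ∈ range m, |r.num - (k + 1) * (r.den : ℤ)| ≤ ∏ _k ∈ range m, B := by
          refine Finset.prod_le_prod (fun _ _ => abs_nonneg _) fun k hk => ?_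
          have hk' : (k : ℤ) + 1 ≤ m := by
            have := Finset.mem_range.1 hk
            exact_mod_cast this
          have hk0 : (0 : ℤ) ≤ (k : ℤ) := by positivity
          rw [abs_le, hB]
          constructor
          · nlinarith [mul_le_mul hk' hNz hden0.le hm0]
          · nlinarith [mul_nonneg hk0 hden0.le, mul_nonneg hm0 (by linarith : (0:ℤ) ≤ N)]
      _ = B ^ m := by rw [Finset.prod_const, Finset.card_range]
  rw [abs_mul, abs_mul, abs_mul, abs_pow, abs_pow, abs_pow, abs_pow]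
  calc |(r.den : ℤ)| ^ (T1 - i) * |r.num - m * (r.den : ℤ)| ^ i *
        (|(r.den : ℤ)| ^ (m * (T2 - j)) *
          |∏ k ∈ range m, (r.num - (k + 1) * (r.den : ℤ))| ^ j) ≤
        B ^ (T1 - i) * B ^ i * (B ^ (m * (T2 - j)) * (B ^ m) ^ j) := by gcongr
    _ = B ^ (T1 + m * T2) := by
        obtain ⟨s, rfl⟩ := Nat.exists_eq_add_of_le hi
        obtain ⟨t, rfl⟩ := Nat.exists_eq_add_of_le hj
        rw [Nat.add_sub_cancel_left, Nat.add_sub_cancel_left]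
        ring
    _ = (((N * (m + 1)) ^ (T1 + m * T2) : ℕ) : ℤ) := by
        rw [hB]; push_cast; ring

end GQ
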