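import Mathlib
import Pool.Agent.Lib.GQ.Defs
import Pool.Agent.Lib.GQ.Shift
import Pool.Agent.Lib.GQ.Red
import Pool.Agent.Lib.GQ.Star

/-!
# The auxiliary function (Siegel's lemma)

For `r ∈ S` choose `q_r` as in `GB`, `h_r = q_r.leadingCoeff ≠ 0`, `β_r = (Γ r)⁻¹ > 0`, and `ρ_r` from `red`. By `star`, `F(r-m) = 0` as soon as `∑_j qw .. j * ρ_r j l = 0` for all `l < d`
(then `∑_j qw_j (h β)^j = ∑_l (∑_j qw_j ρ j l) β^l = 0`, and `r.den`, `h ≠ 0`). These are `d * S.card * M` linear equations (index type `S × Fin M × Fin d`) in the unknowns `c i j` (index type `Fin (T1+1) × Fin (T2+1)`,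
`L = (T1+1)(T2+1)`), with integer coefficients of absolute value `≤ (N M)^(T1 + M T2) * H^(T2-j) * (2H)^j ≤ (N M)^(T1+M T2) (2H)^T2 =: B ≥ 1` (`coef_le`, `m + 1 ≤ M`, `|h| ≤ H`). Siegel's lemma
`Int.Matrix.exists_ne_zero_int_vec_norm_le` (needs at least one equation; if `S = ∅` take `c = 1` at `(0,0)`, `d ≥ 1`, `M ≥ 1`): exponent `m / (L - m) ≤ 1` as `2 m ≤ L`, so `|c i j| ≤ L * B = bX`.
Extend `c` by zero.
-/

set_option autoImplicit false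

open Finset

namespace GQ

attribute [local instance] Matrix.seminormedAddCommGroup

namespace AuxAAux

theorem bX_ge (T1 T2 M N : ℕ) (H : ℝ) (hH : 1 ≤ H) (hM : 1 ≤ M) (hN : 1 ≤ N) :
    1 ≤ bX T1 T2 M N H := by
  unfold bX
  have h1 : (1 : ℝ) ≤ (((T1 + 1) * (T2 + 1) : ℕ) : ℝ) := by
    exact_mod_cast Nat.mul_pos (Nat.succ_pos T1) (Nat.succ_pos T2)
  have h2 : (1 : ℝ) ≤ (((N * M) ^ (T1 + M * T2) : ℕ) : ℝ) := by
    exact_mod_cast Nat.one_le_pow _ _ (Nat.mul_pos hN hM)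
  have h3 : (1 : ℝ) ≤ (2 * H) ^ T2 := one_le_pow₀ (by linarith)
  exact one_le_mul_of_one_le_of_one_le (one_le_mul_of_one_le_of_one_le h1 h2) h3

theorem data {d N : ℕ} {H : ℝ} (hH : 1 ≤ H) {r : ℚ} (hr : GB d N H r) :
    ∃ (h : ℤ) (ρ : ℕ → ℕ → ℤ), h ≠ 0 ∧ |(h : ℝ)| ≤ H ∧
      (∀ j, ((h : ℝ) * (Real.Gamma (r : ℝ))⁻¹) ^ j =
        ∑ l ∈ range d, (ρ j l : ℝ) * (Real.Gamma (r : ℝ))⁻¹ ^ l) ∧
      ∀ j l, |(ρ j l : ℝ)| ≤ (2 * H) ^ j := by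
  obtain ⟨h0, h1, hN, q, hq1, hqd, hc, hβ⟩ := hr
  obtain ⟨ρ, hρ1, hρ2⟩ := red hH q hq1 hqd hc _ hβ
  refine ⟨q.leadingCoeff, ρ, ?_, hc _, hρ1, hρ2⟩
  rw [Ne, Polynomial.leadingCoeff_eq_zero]
  rintro rfl
  simp at hq1

/-- the integer coefficient -/
def E (T1 T2 : ℕ) (r : ℚ) (m i j : ℕ) : ℤ :=
  ((r.den : ℤ) ^ (T1 - i) * (r.num - m * (r.den : ℤ)) ^ i) *
      ((r.den : ℤ) ^ (m * (T2 - j)) * (∏ k ∈ range m, (r.num - (k + 1) * (r.den : ℤ))) ^ j)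

theorem ent {T1 T2 M N : ℕ} {H : ℝ} (hH : 1 ≤ H) (hN : 1 ≤ N) {r : ℚ}
    (h0 : 0 < r) (h1 : r ≤ 1) (hrN : r.den ≤ N) {m i j : ℕ} (hm : m < M) (hi : i ≤ T1)
    (hj : j ≤ T2) {h ρ : ℤ} (hh : |(h : ℝ)| ≤ H) (hρ : |(ρ : ℝ)| ≤ (2 * H) ^ j) :
    |((E T1 T2 r m i j * h ^ (T2 - j) * ρ : ℤ) : ℝ)| ≤
      (((N * M) ^ (T1 + M * T2) : ℕ) : ℝ) * (2 * H) ^ T2 := by
  have e1 : |((E T1 T2 r m i j : ℤ) : ℝ)| ≤ (((N * M) ^ (T1 + M * T2) : ℕ) : ℝ) := by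
    have a1 := coef_le T1 T2 N r h0 h1 hrN m i j hi hj
    have a2 : (N * (m + 1)) ^ (T1 + m * T2) ≤ (N * M) ^ (T1 + M * T2) := by
      calc (N * (m + 1)) ^ (T1 + m * T2) ≤ (N * M) ^ (T1 + m * T2) :=
            Nat.pow_le_pow_left (Nat.mul_le_mul_left _ hm) _
        _ ≤ (N * M) ^ (T1 + M * T2) :=
            Nat.pow_le_pow_right (Nat.mul_pos hN (by omega))
              (Nat.add_le_add_left (Nat.mul_le_mul_right _ hm.le) _)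
    have a3 : |E T1 T2 r m i j| ≤ (((N * M) ^ (T1 + M * T2) : ℕ) : ℤ) :=
      a1.trans (by exact_mod_cast a2)
    have a4 : ((|E T1 T2 r m i j| : ℤ) : ℝ) ≤ ((((N * M) ^ (T1 + M * T2) : ℕ) : ℤ) : ℝ) := by
      exact_mod_cast a3
    rw [Int.cast_abs] at a4
    rw [Int.cast_natCast] at a4
    exact a4
  have e2 : |((h : ℝ) ^ (T2 - j))| ≤ (2 * H) ^ (T2 - j) := by
    rw [abs_pow]
    exact pow_le_pow_left₀ (abs_nonneg _) (by linarith) _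
  have e3 : (2 * H) ^ T2 = (2 * H) ^ (T2 - j) * (2 * H) ^ j := by
    rw [← pow_add, Nat.sub_add_cancel hj]
  rw [Int.cast_mul, Int.cast_mul, Int.cast_pow, abs_mul, abs_mul, e3, ← mul_assoc]
  have hp : 0 ≤ (2 * H) ^ (T2 - j) := by positivity
  exact mul_le_mul (mul_le_mul e1 e2 (abs_nonneg _) (Nat.cast_nonneg _)) hρ (abs_nonneg _)
    (mul_nonneg (Nat.cast_nonneg _) hp)

/-- extension by zero -/
def ext0 (T1 T2 : ℕ) (t : Fin (T1 + 1) × Fin (T2 + 1) → ℤ) (i j : ℕ) : ℤ :=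
  if hi : i < T1 + 1 then (if hj : j < T2 + 1 then t (⟨i, hi⟩, ⟨j, hj⟩) else 0) else 0

theorem ext0_fin {T1 T2 : ℕ} (t : Fin (T1 + 1) × Fin (T2 + 1) → ℤ) (i : Fin (T1 + 1))
    (j : Fin (T2 + 1)) : ext0 T1 T2 t i j = t (i, j) := by
  unfold ext0
  rw [dif_pos i.2, dif_pos j.2]

theorem ext0_le {T1 T2 : ℕ} (t : Fin (T1 + 1) × Fin (T2 + 1) → ℤ) {X : ℝ} (hX : 0 ≤ X)
    (ht : ∀ y, |(t y : ℝ)| ≤ X) (i j : ℕ) : |((ext0 T1 T2 t i j : ℤ) : ℝ)| ≤ X := by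
  unfold ext0
  split_ifs
  · exact ht _
  · simpa using hX
  · simpa using hX

theorem vanish {T1 T2 d : ℕ} {r : ℚ} {m : ℕ} {h : ℤ} {ρ : ℕ → ℕ → ℤ} (hh : h ≠ 0)
    (hρ : ∀ j, ((h : ℝ) * (Real.Gamma (r : ℝ))⁻¹) ^ j =
        ∑ l ∈ range d, (ρ j l : ℝ) * (Real.Gamma (r : ℝ))⁻¹ ^ l)
    (c : ℕ → ℕ → ℤ)
    (hc : ∀ l < d, ∑ j ∈ range (T2 + 1), qw T1 T2 c r.num r.den h m j * ρ j l = 0) :
    Fx T1 T2 c ((r : ℂ) - m) = 0 := by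
  have h1 := star T1 T2 c r h m
  have h2 : ∑ j ∈ range (T2 + 1), (qw T1 T2 c r.num r.den h m j : ℂ) *
      ((h : ℂ) * Gi (r : ℂ)) ^ j = 0 := by
    have e1 : ∀ j, ((h : ℂ) * Gi (r : ℂ)) ^ j =
        ∑ l ∈ range d, (ρ j l : ℂ) * (((Real.Gamma (r : ℝ))⁻¹ : ℝ) : ℂ) ^ l := by
      intro j
      have e2 := congrArg (fun x : ℝ => (x : ℂ)) (hρ j)
      simp only [Complex.ofReal_pow, Complex.ofReal_mul, Complex.ofReal_sum,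
        Complex.ofReal_intCast] at e2
      rw [← e2]
      have e3 := Gi_real (r : ℝ)
      rw [Complex.ofReal_ratCast] at e3
      rw [e3]
    calc ∑ j ∈ range (T2 + 1), (qw T1 T2 c r.num r.den h m j : ℂ) *
          ((h : ℂ) * Gi (r : ℂ)) ^ j
        = ∑ j ∈ range (T2 + 1), ∑ l ∈ range d, (qw T1 T2 c r.num r.den h m j : ℂ) *
            ((ρ j l : ℂ) * (((Real.Gamma (r : ℝ))⁻¹ : ℝ) : ℂ) ^ l) := by
          refine Finset.sum_congr rfl fun j _ => ?_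
          rw [e1, Finset.mul_sum]
      _ = ∑ l ∈ range d, ∑ j ∈ range (T2 + 1), (qw T1 T2 c r.num r.den h m j : ℂ) *
            ((ρ j l : ℂ) * (((Real.Gamma (r : ℝ))⁻¹ : ℝ) : ℂ) ^ l) := Finset.sum_comm
      _ = 0 := by
          refine Finset.sum_eq_zero fun l hl => ?_
          have e4 : ∑ j ∈ range (T2 + 1), (qw T1 T2 c r.num r.den h m j : ℂ) *
            ((ρ j l : ℂ) * (((Real.Gamma (r : ℝ))⁻¹ : ℝ) : ℂ) ^ l) =
            ((∑ j ∈ range (T2 + 1), qw T1 T2 c r.num r.den h m j * ρ j l : ℤ) : ℂ) *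
              (((Real.Gamma (r : ℝ))⁻¹ : ℝ) : ℂ) ^ l := by
            rw [Int.cast_sum, Finset.sum_mul]
            refine Finset.sum_congr rfl fun j _ => ?_
            rw [Int.cast_mul, mul_assoc]
          rw [e4, hc l (Finset.mem_range.1 hl), Int.cast_zero, zero_mul]
  rw [h2] at h1
  have h3 : (r.den : ℂ) ^ (T1 + m * T2) ≠ 0 := pow_ne_zero _ (by exact_mod_cast r.den_nz)
  have h4 : (h : ℂ) ^ T2 ≠ 0 := pow_ne_zero _ (by exact_mod_cast hh)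
  exact (mul_eq_zero.1 h1).resolve_left (mul_ne_zero h3 h4)

/-- the equations -/
def Mx (T1 T2 M d : ℕ) (S : Finset ℚ) (h : S → ℤ) (ρ : S → ℕ → ℕ → ℤ) :
    Matrix (S × Fin M × Fin d) (Fin (T1 + 1) × Fin (T2 + 1)) ℤ :=
  fun x y => E T1 T2 x.1 x.2.1 y.1 y.2 * h x.1 ^ (T2 - (y.2 : ℕ)) * ρ x.1 y.2 x.2.2

theorem mx_vec {T1 T2 M d : ℕ} {S : Finset ℚ} {h : S → ℤ} {ρ : S → ℕ → ℕ → ℤ}
    {t : Fin (T1 + 1) × Fin (T2 + 1) → ℤ} (ht : Matrix.mulVec (Mx T1 T2 M d S h ρ) t = 0)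
    (r : S) {m : ℕ} (hm : m < M) {l : ℕ} (hl : l < d) :
    ∑ j ∈ range (T2 + 1), qw T1 T2 (ext0 T1 T2 t) r.1.num r.1.den (h r) m j * ρ r j l = 0 := by
  have h1 := congrFun ht (r, ⟨m, hm⟩, ⟨l, hl⟩)
  have h2 : Matrix.mulVec (Mx T1 T2 M d S h ρ) t (r, ⟨m, hm⟩, ⟨l, hl⟩) =
      ∑ y : Fin (T1 + 1) × Fin (T2 + 1),
        (E T1 T2 r m y.1 y.2 * h r ^ (T2 - (y.2 : ℕ)) * ρ r y.2 l) * t y := rfl
  rw [h2, Fintype.sum_prod_type, Finset.sum_comm] at h1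
  have h3 : ∑ j ∈ range (T2 + 1), qw T1 T2 (ext0 T1 T2 t) r.1.num r.1.den (h r) m j * ρ r j l =
      ∑ j : Fin (T2 + 1), qw T1 T2 (ext0 T1 T2 t) r.1.num r.1.den (h r) m j * ρ r j l :=
    Finset.sum_range (fun j => qw T1 T2 (ext0 T1 T2 t) r.1.num r.1.den (h r) m j * ρ r j l)
  rw [h3]
  refine Eq.trans (Finset.sum_congr rfl fun j _ => ?_) h1
  have h4 : qw T1 T2 (ext0 T1 T2 t) r.1.num r.1.den (h r) m j =
      ∑ i : Fin (T1 + 1), t (i, j) * E T1 T2 r m i j * h r ^ (T2 - (j : ℕ)) := by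
    unfold qw
    rw [Finset.sum_range (fun i => ext0 T1 T2 t i j * ((r.1.den : ℤ) ^ (T1 - i) *
      (r.1.num - m * (r.1.den : ℤ)) ^ i) * ((r.1.den : ℤ) ^ (m * (T2 - (j : ℕ))) *
      (∏ k ∈ range m, (r.1.num - (k + 1) * (r.1.den : ℤ))) ^ (j : ℕ)) *
      h r ^ (T2 - (j : ℕ)))]
    refine Finset.sum_congr rfl fun i _ => ?_
    rw [ext0_fin]
    unfold E
    ring
  rw [h4, Finset.sum_mul]
  refine Finset.sum_congr rfl fun i _ => ?_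
  ring

end AuxAAux

open AuxAAux

theorem auxA (T1 T2 M N d : ℕ) (H : ℝ) (hH : 1 ≤ H) (hM : 1 ≤ M) (hN : 1 ≤ N) (hd : 1 ≤ d)
    (S : Finset ℚ) (hS : ∀ r ∈ S, GB d N H r) (hcard : 2 * d * S.card * M ≤ (T1 + 1) * (T2 + 1)) :
    ∃ c : ℕ → ℕ → ℤ, (∃ i ≤ T1, ∃ j ≤ T2, c i j ≠ 0) ∧ (∀ i j, |(c i j : ℝ)| ≤ bX T1 T2 M N H) ∧
      ∀ r ∈ S, ∀ m < M, Fx T1 T2 c ((r : ℂ) - m) = 0 := by
  have hbX := bX_ge T1 T2 M N H hH hM hN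
  rcases S.eq_empty_or_nonempty with rfl | hne
  · refine ⟨fun _ _ => 1, ⟨0, Nat.zero_le _, 0, Nat.zero_le _, one_ne_zero⟩, ?_, ?_⟩
    · intro i j
      simpa using hbX
    · intro r hr
      simp at hr
  · have hdat : ∀ r : S, ∃ (h : ℤ) (ρ : ℕ → ℕ → ℤ), h ≠ 0 ∧ |(h : ℝ)| ≤ H ∧
      (∀ j, ((h : ℝ) * (Real.Gamma ((r : ℚ) : ℝ))⁻¹) ^ j =
        ∑ l ∈ range d, (ρ j l : ℝ) * (Real.Gamma ((r : ℚ) : ℝ))⁻¹ ^ l) ∧
      ∀ j l, |(ρ j l : ℝ)| ≤ (2 * H) ^ j := fun r => data hH (hS r.1 r.2)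
    choose h ρ h0 h1 h2 h3 using hdat
    have hcA : Fintype.card (S × Fin M × Fin d) = S.card * (M * d) := by
      simp
    have hcB : Fintype.card (Fin (T1 + 1) × Fin (T2 + 1)) = (T1 + 1) * (T2 + 1) := by
      simp
    have hpos : 0 < S.card * (M * d) :=
      Nat.mul_pos hne.card_pos (Nat.mul_pos hM hd)
    have h2m : 2 * (S.card * (M * d)) ≤ (T1 + 1) * (T2 + 1) := by
      calc 2 * (S.card * (M * d)) = 2 * d * S.card * M := by ring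
        _ ≤ _ := hcard
    obtain ⟨t, ht0, ht1, ht2⟩ := Int.Matrix.exists_ne_zero_int_vec_norm_le
      (Mx T1 T2 M d S h ρ) (by rw [hcA, hcB]; omega) (by rw [hcA]; exact hpos)
    rw [hcA, hcB] at ht2
    have hB : max 1 ‖Mx T1 T2 M d S h ρ‖ ≤ (((N * M) ^ (T1 + M * T2) : ℕ) : ℝ) * (2 * H) ^ T2 := by
      have hB1 : (1 : ℝ) ≤ (((N * M) ^ (T1 + M * T2) : ℕ) : ℝ) * (2 * H) ^ T2 := by
        have a2 : (1 : ℝ) ≤ (((N * M) ^ (T1 + M * T2) : ℕ) : ℝ) := by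
          exact_mod_cast Nat.one_le_pow _ _ (Nat.mul_pos hN hM)
        have a3 : (1 : ℝ) ≤ (2 * H) ^ T2 := one_le_pow₀ (by linarith)
        exact one_le_mul_of_one_le_of_one_le a2 a3
      refine max_le hB1 ?_
      rw [Matrix.norm_le_iff (zero_le_one.trans hB1)]
      intro x y
      obtain ⟨g0, g1, g2, -⟩ := hS x.1.1 x.1.2
      rw [Int.norm_eq_abs]
      exact ent hH hN g0 g1 g2 x.2.1.2 (Nat.lt_succ_iff.1 y.1.2) (Nat.lt_succ_iff.1 y.2.2)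
        (h1 x.1) (h3 x.1 _ _)
    have htX : ‖t‖ ≤ bX T1 T2 M N H := by
      have b0 : (1 : ℝ) ≤ (((T1 + 1) * (T2 + 1) : ℕ) : ℝ) := by
        exact_mod_cast Nat.mul_pos (Nat.succ_pos T1) (Nat.succ_pos T2)
      have b1 : (1 : ℝ) ≤ (((T1 + 1) * (T2 + 1) : ℕ) : ℝ) * max 1 ‖Mx T1 T2 M d S h ρ‖ :=
        one_le_mul_of_one_le_of_one_le b0 (le_max_left _ _)
      have b2 : ((S.card * (M * d) : ℕ) : ℝ) /
          ((((T1 + 1) * (T2 + 1) : ℕ) : ℝ) - ((S.card * (M * d) : ℕ) : ℝ)) ≤ 1 := by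
        have b3 : 2 * ((S.card * (M * d) : ℕ) : ℝ) ≤ (((T1 + 1) * (T2 + 1) : ℕ) : ℝ) := by
          exact_mod_cast h2m
        have b4 : (0 : ℝ) < ((S.card * (M * d) : ℕ) : ℝ) := by exact_mod_cast hpos
        rw [div_le_one (by linarith)]
        linarith
      calc ‖t‖ ≤ _ := ht2
        _ ≤ ((((T1 + 1) * (T2 + 1) : ℕ) : ℝ) * max 1 ‖Mx T1 T2 M d S h ρ‖) ^ (1 : ℝ) :=
            Real.rpow_le_rpow_of_exponent_le b1 b2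
        _ = (((T1 + 1) * (T2 + 1) : ℕ) : ℝ) * max 1 ‖Mx T1 T2 M d S h ρ‖ := Real.rpow_one _
        _ ≤ (((T1 + 1) * (T2 + 1) : ℕ) : ℝ) *
            ((((N * M) ^ (T1 + M * T2) : ℕ) : ℝ) * (2 * H) ^ T2) :=
            mul_le_mul_of_nonneg_left hB (by linarith)
        _ = bX T1 T2 M N H := by
            unfold bX
            ring
    refine ⟨ext0 T1 T2 t, ?_, ?_, ?_⟩
    · obtain ⟨y, hy⟩ := Function.ne_iff.1 ht0
      refine ⟨y.1, Nat.lt_succ_iff.1 y.1.2, y.2, Nat.lt_succ_iff.1 y.2.2, ?_⟩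
      rw [ext0_fin]
      exact hy
    · refine ext0_le t (by linarith) fun y => ?_
      rw [← Int.norm_eq_abs]
      exact (norm_le_pi_norm t y).trans htX
    · intro r hr m hm
      exact vanish (h0 ⟨r, hr⟩) (h2 ⟨r, hr⟩) _ fun l hl => mx_vec ht1 ⟨r, hr⟩ hm hl

end GQ
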