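import Mathlib
import Pool.Agent.Lib.GQ.Defs

/-!
# Liouville's inequality

Let `a = q.leadingCoeff`, `u = a β` (as a complex number). `u` is an algebraic integer (`isIntegral_leadingCoeff_smul`, or `Polynomial.integralNormalization`). `K = ℚ⟮u⟯ ⊆ ℂ` (`IntermediateField.adjoin ℚ {u}`), of degree `≤ d` over `ℚ`
(the minimal polynomial of `u` divides `q` composed with `X / a`, `minpoly.natDegree_le`, degree `≤ q.natDegree ≤ d`), so a number field. Every embedding `σ : K →+* ℂ` maps `u` to `a y'` with `y'` a root of `q` in `ℂ`, so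
`|y'| ≤ 1 + H / |a|` (Cauchy's bound: `Polynomial.cauchyBound`, or directly: if `|y'| > 1` then `|a| |y'|^e ≤ H ∑_{l<e} |y'|^l ≤ H |y'|^e / (|y'| - 1)`), and `|σ u| ≤ |a| + H ≤ 2 H`. `v = ∑ w_j u^j ∈ K` is an algebraic integer, `v ≠ 0`,
`‖σ v‖ ≤ ∑ |w_j| (2H)^j ≤ B` for all `σ`. `|Norm v| ≥ 1` (nonzero rational integer) and `Norm v = ∏_σ σ v` (`Algebra.norm_eq_prod_embeddings`); the inclusion gives the factor `|v|`, the other `[K:ℚ] - 1 ≤ d - 1` factors are `≤ B`, `B ≥ 1`.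
(Compare `norm_norm_le_norm_mul_house_pow` and the lemmas on `house` in `Mathlib/NumberTheory/NumberField/House.lean`.)
-/

set_option autoImplicit false

open Finset

namespace GQ

namespace LiouAux

open Polynomial in
/-- Cauchy's bound for the roots, multiplied by the leading coefficient -/
theorem root_bound {H : ℝ} (q : Polynomial ℤ) (hq : q ≠ 0)
    (hc : ∀ i, |(q.coeff i : ℝ)| ≤ H) {y : ℂ} (hy : Polynomial.aeval y q = 0) :
    ‖(q.leadingCoeff : ℂ) * y‖ ≤ 2 * H := by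
  set a := q.leadingCoeff with ha
  have ha0 : a ≠ 0 := Polynomial.leadingCoeff_ne_zero.2 hq
  have haC : (a : ℂ) ≠ 0 := by exact_mod_cast ha0
  have hinj : Function.Injective (Int.castRingHom ℂ) := Int.cast_injective
  set p : Polynomial ℂ := q.map (Int.castRingHom ℂ) with hp
  have hp0 : p ≠ 0 := (Polynomial.map_ne_zero_iff hinj).2 hq
  have hroot : p.IsRoot y := by
    rw [Polynomial.IsRoot.def, hp, Polynomial.eval_map]
    rw [Polynomial.aeval_def] at hy
    exact hy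
  have hlt := Polynomial.IsRoot.norm_lt_cauchyBound hp0 hroot
  have hlc : p.leadingCoeff = (a : ℂ) := by
    rw [hp, Polynomial.leadingCoeff_map_of_injective hinj]; simp [ha]
  have hpos : 0 < ‖(a : ℂ)‖ := norm_pos_iff.2 haC
  have haH : ‖(a : ℂ)‖ ≤ H := by
    rw [Complex.norm_intCast]; exact hc q.natDegree
  have hH0 : 0 ≤ H := hpos.le.trans haH
  have hsup : ((Finset.sup (Finset.range p.natDegree) (‖p.coeff ·‖₊) : NNReal) : ℝ) ≤ H := by
    have : (Finset.sup (Finset.range p.natDegree) (‖p.coeff ·‖₊) : NNReal) ≤ ⟨H, hH0⟩ := by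
      apply Finset.sup_le
      intro i _
      change (‖p.coeff i‖₊ : NNReal) ≤ ⟨H, hH0⟩
      rw [← NNReal.coe_le_coe]
      change ‖p.coeff i‖ ≤ H
      rw [hp, Polynomial.coeff_map]
      simp only [eq_intCast, Complex.norm_intCast]
      exact hc i
    exact_mod_cast this
  have h1 : ‖y‖ < ((Finset.sup (Finset.range p.natDegree) (‖p.coeff ·‖₊) : NNReal) : ℝ) / ‖(a : ℂ)‖
      + 1 := by
    have h2 : (‖y‖₊ : ℝ) < (Polynomial.cauchyBound p : ℝ) := by exact_mod_cast hlt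
    unfold Polynomial.cauchyBound at h2
    rw [hlc] at h2
    push_cast at h2
    exact h2
  rw [norm_mul]
  have h3 : ‖(a : ℂ)‖ * ‖y‖ ≤ ‖(a : ℂ)‖ * (H / ‖(a : ℂ)‖ + 1) := by
    apply mul_le_mul_of_nonneg_left _ hpos.le
    refine h1.le.trans ?_
    gcongr
  have h4 : ‖(a : ℂ)‖ * (H / ‖(a : ℂ)‖ + 1) = H + ‖(a : ℂ)‖ := by
    field_simp
  rw [h4] at h3
  linarith

end LiouAux

open LiouAux in
theorem liou {d : ℕ} {H : ℝ} (hH : 1 ≤ H) (q : Polynomial ℤ) (hq1 : 1 ≤ q.natDegree)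
    (hqd : q.natDegree ≤ d) (hc : ∀ i, |(q.coeff i : ℝ)| ≤ H) (β : ℝ)
    (hβ : Polynomial.aeval β q = 0) (T : ℕ) (w : ℕ → ℤ) (B : ℝ) (hB : 1 ≤ B)
    (hw : ∑ j ∈ range (T + 1), |(w j : ℝ)| * (2 * H) ^ j ≤ B)
    (h0 : ∑ j ∈ range (T + 1), (w j : ℝ) * ((q.leadingCoeff : ℝ) * β) ^ j ≠ 0) :
    1 ≤ |∑ j ∈ range (T + 1), (w j : ℝ) * ((q.leadingCoeff : ℝ) * β) ^ j| * B ^ (d - 1) := by
  classical
  have hq : q ≠ 0 := by rintro rfl; simp at hq1
  set a := q.leadingCoeff with ha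
  have hβC : Polynomial.aeval (β : ℂ) q = 0 := by
    have := congrArg (fun x : ℝ => (x : ℂ)) hβ
    simp only [Complex.ofReal_zero] at this
    rw [← this, Polynomial.aeval_eq_sum_range, Polynomial.aeval_eq_sum_range]
    push_cast
    rfl
  -- `β` is algebraic
  set qQ : Polynomial ℚ := q.map (Int.castRingHom ℚ) with hqQ
  have hqQ0 : qQ ≠ 0 := (Polynomial.map_ne_zero_iff Int.cast_injective).2 hq
  have hqQβ : Polynomial.aeval (β : ℂ) qQ = 0 := by
    rw [hqQ, ← algebraMap_int_eq, Polynomial.aeval_map_algebraMap]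
    exact hβC
  have halg : IsAlgebraic ℚ (β : ℂ) := ⟨qQ, hqQ0, hqQβ⟩
  have hint : IsIntegral ℚ (β : ℂ) := halg.isIntegral
  let K : IntermediateField ℚ ℂ := IntermediateField.adjoin ℚ {(β : ℂ)}
  have hfd : FiniteDimensional ℚ K := IntermediateField.adjoin.finiteDimensional hint
  let y : K := IntermediateField.AdjoinSimple.gen ℚ (β : ℂ)
  have hyβ : (y : ℂ) = (β : ℂ) := IntermediateField.AdjoinSimple.coe_gen ℚ (β : ℂ)
  have hdeg : Module.finrank ℚ K ≤ d := by
    rw [IntermediateField.adjoin.finrank hint]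
    have h1 : (minpoly ℚ (β : ℂ)).natDegree ≤ qQ.natDegree :=
      Polynomial.natDegree_le_natDegree (minpoly.degree_le_of_ne_zero ℚ _ hqQ0 hqQβ)
    have h2 : qQ.natDegree = q.natDegree :=
      Polynomial.natDegree_map_eq_of_injective Int.cast_injective q
    omega
  have hyq : Polynomial.aeval y q = 0 := by
    have h1 : ((Polynomial.aeval y q : K) : ℂ) = 0 := by
      have h2 : ((Polynomial.aeval y q : K) : ℂ) = Polynomial.aeval (y : ℂ) q := by
        rw [Polynomial.aeval_eq_sum_range, Polynomial.aeval_eq_sum_range]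
        push_cast
        simp
      rw [h2, hyβ, hβC]
    exact_mod_cast h1
  let x : K := ∑ j ∈ range (T + 1), (w j : K) * ((a : K) * y) ^ j
  have hxC : (x : ℂ) = ((∑ j ∈ range (T + 1), (w j : ℝ) * ((a : ℝ) * β) ^ j : ℝ) : ℂ) := by
    simp only [x]
    push_cast
    rw [hyβ]
  have hx0 : x ≠ 0 := by
    intro h
    apply h0
    rw [h] at hxC
    have : ((∑ j ∈ range (T + 1), (w j : ℝ) * ((a : ℝ) * β) ^ j : ℝ) : ℂ) = 0 := by
      rw [← hxC]; simp
    exact_mod_cast this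
  have hyint : IsIntegral ℤ ((a : K) * y) := by
    have h1 := isIntegral_leadingCoeff_smul q y hyq
    rw [zsmul_eq_mul] at h1
    exact h1
  have hxint : IsIntegral ℤ x := by
    apply IsIntegral.sum
    intro j _
    apply IsIntegral.mul
    · exact isIntegral_algebraMap (R := ℤ) (x := w j)
    · exact hyint.pow j
  -- the norm
  obtain ⟨n, hn⟩ := IsIntegrallyClosed.isIntegral_iff.1 (Algebra.isIntegral_norm ℚ hxint)
  have hnorm0 : Algebra.norm ℚ x ≠ 0 := Algebra.norm_ne_zero_iff.2 hx0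
  have hn0 : n ≠ 0 := by
    rintro rfl
    apply hnorm0
    rw [← hn]; simp
  have hprod := Algebra.norm_eq_prod_embeddings ℚ ℂ x
  have hge : (1 : ℝ) ≤ ‖∏ σ : K →ₐ[ℚ] ℂ, σ x‖ := by
    rw [← hprod, ← hn]
    simp only [algebraMap_int_eq, eq_intCast, map_intCast, Complex.norm_intCast]
    exact_mod_cast Int.one_le_abs hn0
  rw [norm_prod] at hge
  -- bounds for the factors
  have hle : ∀ σ : K →ₐ[ℚ] ℂ, ‖σ x‖ ≤ B := by
    intro σ
    have h1 : Polynomial.aeval (σ y) q = 0 := by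
      have h2 : (Polynomial.aeval (σ y) q : ℂ) = σ (Polynomial.aeval y q) := by
        rw [Polynomial.aeval_eq_sum_range, Polynomial.aeval_eq_sum_range, map_sum]
        apply Finset.sum_congr rfl
        intro j _
        rw [zsmul_eq_mul, zsmul_eq_mul, map_mul, map_pow, map_intCast]
      rw [h2, hyq, map_zero]
    have h3 := root_bound q hq hc h1
    have h4 : σ x = ∑ j ∈ range (T + 1), (w j : ℂ) * ((a : ℂ) * σ y) ^ j := by
      simp only [x]
      rw [map_sum]
      apply Finset.sum_congr rfl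
      intro j _
      rw [map_mul, map_pow, map_mul, map_intCast, map_intCast]
    rw [h4]
    refine (norm_sum_le _ _).trans (le_trans ?_ hw)
    apply Finset.sum_le_sum
    intro j _
    rw [norm_mul, norm_pow, Complex.norm_intCast]
    gcongr
  let σ₀ : K →ₐ[ℚ] ℂ := K.val
  have hσ₀ : ‖σ₀ x‖ = |∑ j ∈ range (T + 1), (w j : ℝ) * ((a : ℝ) * β) ^ j| := by
    change ‖(x : ℂ)‖ = _
    rw [hxC, Complex.norm_real, Real.norm_eq_abs]
  rw [← Finset.mul_prod_erase Finset.univ (fun σ : K →ₐ[ℚ] ℂ => ‖σ x‖) (Finset.mem_univ σ₀)] at hge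
  rw [hσ₀] at hge
  refine hge.trans ?_
  apply mul_le_mul_of_nonneg_left _ (abs_nonneg _)
  calc ∏ σ ∈ Finset.univ.erase σ₀, ‖σ x‖ ≤ ∏ _σ ∈ Finset.univ.erase σ₀, B :=
        Finset.prod_le_prod (fun _ _ => norm_nonneg _) (fun σ _ => hle σ)
    _ = B ^ (Finset.univ.erase σ₀).card := by rw [Finset.prod_const]
    _ ≤ B ^ (d - 1) := by
        apply pow_le_pow_right₀ hB
        rw [Finset.card_erase_of_mem (Finset.mem_univ _), Finset.card_univ]
        have : Fintype.card (K →ₐ[ℚ] ℂ) = Module.finrank ℚ K := AlgHom.card ℚ K ℂ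
        omega

end GQ
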