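import Mathlib
import Pool.Agent.Lib.GQ.Defs
import Pool.Agent.Lib.GQ.Shift
import Pool.Agent.Lib.GQ.Liou
import Pool.Agent.Lib.GQ.Star

/-!
# Lower bound for the values at `r - m`

Take `q` as in `GB`, `h = q.leadingCoeff ≠ 0`, `β = (Γ r)⁻¹` real (`Gi_real`), `w_j = qw T1 T2 c r.num r.den h m j`, `V = Fx .. (r - m)`. By `star` `b^(T1+mT2) h^T2 V = ∑_j w_j (h β)^j`, a real number, `≠ 0`.
`|w_j| (2H)^j ≤ (T1+1) X (N(m+1))^(T1+mT2) H^(T2-j) (2H)^j`, so `∑_j |w_j| (2H)^j ≤ bY =: B` (`coef_le`, `H^(T2-j) (2H)^j ≤ (2H)^T2`), `B ≥ 1`. `liou`: `1 ≤ |b^(T1+mT2) h^T2 V| B^(d-1)`, and `b^(T1+mT2) |h|^T2 ≤ B`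
(`b ≤ N ≤ N(m+1)`, `|h| ≤ H ≤ 2H`, `X ≥ 1`). So `1 ≤ |V| B^d` (`d ≥ 1`).
-/

set_option autoImplicit false

open Finset

namespace GQ

namespace AuxBAux

private theorem wbound (T1 T2 N : ℕ) (H X : ℝ) (hH : 1 ≤ H) (hX : 1 ≤ X)
    (c : ℕ → ℕ → ℤ) (hc : ∀ i j, |(c i j : ℝ)| ≤ X) (r : ℚ) (h0 : 0 < r) (h1 : r ≤ 1)
    (hN : r.den ≤ N) (h : ℤ) (hh : |(h : ℝ)| ≤ H) (m j : ℕ) (hj : j ≤ T2) :
    |(qw T1 T2 c r.num r.den h m j : ℝ)| * (2 * H) ^ j ≤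
      ((T1 : ℝ) + 1) * X * (((N * (m + 1)) ^ (T1 + m * T2) : ℕ) : ℝ) * (2 * H) ^ T2 := by
  set M : ℝ := (((N * (m + 1)) ^ (T1 + m * T2) : ℕ) : ℝ) with hM
  have hM0 : 0 ≤ M := by rw [hM]; positivity
  have hH0 : 0 ≤ H := by linarith
  have hX0 : 0 ≤ X := by linarith
  have hterm : ∀ i ∈ range (T1 + 1),
      |((c i j * ((r.den : ℤ) ^ (T1 - i) * (r.num - m * (r.den : ℤ)) ^ i) *
        ((r.den : ℤ) ^ (m * (T2 - j)) * (∏ k ∈ range m, (r.num - (k + 1) * (r.den : ℤ))) ^ j) *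
          h ^ (T2 - j) : ℤ) : ℝ)| ≤ X * M * H ^ (T2 - j) := by
    intro i hi
    have hi' : i ≤ T1 := Nat.lt_succ_iff.1 (Finset.mem_range.1 hi)
    have hle := coef_le T1 T2 N r h0 h1 hN m i j hi' hj
    have hle2 : |((((r.den : ℤ) ^ (T1 - i) * (r.num - m * (r.den : ℤ)) ^ i) *
      ((r.den : ℤ) ^ (m * (T2 - j)) *
        (∏ k ∈ range m, (r.num - (k + 1) * (r.den : ℤ))) ^ j) : ℤ) : ℝ)| ≤ M := by
      have h3 := (Int.cast_le (R := ℝ)).2 hle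
      rw [Int.cast_abs] at h3
      rw [hM]
      exact_mod_cast h3
    rw [mul_assoc (c i j)]
    rw [Int.cast_mul, Int.cast_mul, Int.cast_pow, abs_mul, abs_mul, abs_pow]
    have e1 : |(h : ℝ)| ^ (T2 - j) ≤ H ^ (T2 - j) := pow_le_pow_left₀ (abs_nonneg _) hh _
    exact mul_le_mul (mul_le_mul (hc i j) hle2 (abs_nonneg _) hX0) e1
      (pow_nonneg (abs_nonneg _) _) (mul_nonneg hX0 hM0)
  have hq : |(qw T1 T2 c r.num r.den h m j : ℝ)| ≤ ((T1 : ℝ) + 1) * (X * M * H ^ (T2 - j)) := by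
    unfold qw
    rw [Int.cast_sum]
    refine (Finset.abs_sum_le_sum_abs _ _).trans ((Finset.sum_le_sum hterm).trans ?_)
    rw [Finset.sum_const, Finset.card_range, nsmul_eq_mul]
    push_cast
    exact le_rfl
  have h2 : H ^ (T2 - j) * (2 * H) ^ j ≤ (2 * H) ^ T2 := by
    calc H ^ (T2 - j) * (2 * H) ^ j ≤ (2 * H) ^ (T2 - j) * (2 * H) ^ j := by
          refine mul_le_mul_of_nonneg_right ?_ (by positivity)
          exact pow_le_pow_left₀ hH0 (by linarith) _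
      _ = (2 * H) ^ T2 := by rw [← pow_add, Nat.sub_add_cancel hj]
  calc |(qw T1 T2 c r.num r.den h m j : ℝ)| * (2 * H) ^ j ≤
      ((T1 : ℝ) + 1) * (X * M * H ^ (T2 - j)) * (2 * H) ^ j :=
        mul_le_mul_of_nonneg_right hq (by positivity)
    _ = ((T1 : ℝ) + 1) * X * M * (H ^ (T2 - j) * (2 * H) ^ j) := by ring
    _ ≤ ((T1 : ℝ) + 1) * X * M * (2 * H) ^ T2 :=
        mul_le_mul_of_nonneg_left h2 (by positivity)

end AuxBAux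

open AuxBAux in
theorem auxB (T1 T2 N d : ℕ) (H X : ℝ) (hH : 1 ≤ H) (hN : 1 ≤ N) (hd : 1 ≤ d) (hX : 1 ≤ X)
    (c : ℕ → ℕ → ℤ) (hc : ∀ i j, |(c i j : ℝ)| ≤ X) (r : ℚ) (hr : GB d N H r) (m : ℕ)
    (h0 : Fx T1 T2 c ((r : ℂ) - m) ≠ 0) :
    1 ≤ ‖Fx T1 T2 c ((r : ℂ) - m)‖ * bY T1 T2 m N X H ^ d := by
  obtain ⟨hr0, hr1, hrN, q, hq1, hqd, hqc, hqz⟩ := hr
  set β : ℝ := (Real.Gamma (r : ℝ))⁻¹ with hβ
  set h : ℤ := q.leadingCoeff with hh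
  have hhH : |(h : ℝ)| ≤ H := hqc _
  have hq0 : q ≠ 0 := by
    rintro rfl
    simp at hq1
  have hne : h ≠ 0 := by rw [hh]; exact Polynomial.leadingCoeff_ne_zero.2 hq0
  set M : ℝ := (((N * (m + 1)) ^ (T1 + m * T2) : ℕ) : ℝ) with hM
  have hbase : 1 ≤ N * (m + 1) := Nat.one_le_iff_ne_zero.2 (by positivity)
  have hM1 : 1 ≤ M := by
    rw [hM]
    exact_mod_cast Nat.one_le_pow _ _ hbase
  set B : ℝ := bY T1 T2 m N X H with hB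
  have hBeq : B = (((T1 + 1) * (T2 + 1) : ℕ) : ℝ) * X * M * (2 * H) ^ T2 := by
    rw [hB]; rfl
  have hT : (1 : ℝ) ≤ (((T1 + 1) * (T2 + 1) : ℕ) : ℝ) := by
    exact_mod_cast Nat.one_le_iff_ne_zero.2 (by positivity)
  have hTX : 1 ≤ (((T1 + 1) * (T2 + 1) : ℕ) : ℝ) * X := one_le_mul_of_one_le_of_one_le hT hX
  have hP1 : 1 ≤ (2 * H) ^ T2 := one_le_pow₀ (by linarith)
  have hB1 : 1 ≤ B := by
    rw [hBeq]
    exact one_le_mul_of_one_le_of_one_le (one_le_mul_of_one_le_of_one_le hTX hM1) hP1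
  have hG : Gi (r : ℂ) = ((β : ℝ) : ℂ) := by
    have h1 := Gi_real (r : ℝ)
    rw [hβ, ← h1]
    simp
  have hstar := star T1 T2 c r h m
  set S : ℝ := ∑ j ∈ range (T2 + 1),
    ((qw T1 T2 c r.num r.den h m j : ℤ) : ℝ) * ((h : ℝ) * β) ^ j with hS
  have hSC : (r.den : ℂ) ^ (T1 + m * T2) * (h : ℂ) ^ T2 * Fx T1 T2 c ((r : ℂ) - m) =
      ((S : ℝ) : ℂ) := by
    rw [hstar, hG, hS]
    push_cast
    rfl
  have hnorm : (r.den : ℝ) ^ (T1 + m * T2) * |(h : ℝ)| ^ T2 * ‖Fx T1 T2 c ((r : ℂ) - m)‖ =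
      |S| := by
    have h1 := congrArg (fun z : ℂ => ‖z‖) hSC
    simp only [norm_mul, norm_pow, Complex.norm_natCast, Complex.norm_intCast,
      Complex.norm_real, Real.norm_eq_abs] at h1
    exact h1
  have hS0 : S ≠ 0 := by
    intro h1
    rw [h1] at hSC
    have hd0 : (r.den : ℂ) ≠ 0 := by exact_mod_cast r.den_ne_zero
    have hh0 : (h : ℂ) ≠ 0 := by exact_mod_cast hne
    have h2 : (r.den : ℂ) ^ (T1 + m * T2) * (h : ℂ) ^ T2 * Fx T1 T2 c ((r : ℂ) - m) ≠ 0 :=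
      mul_ne_zero (mul_ne_zero (pow_ne_zero _ hd0) (pow_ne_zero _ hh0)) h0
    exact h2 (by rw [hSC]; simp)
  have hw : ∑ j ∈ range (T2 + 1),
      |((qw T1 T2 c r.num r.den h m j : ℤ) : ℝ)| * (2 * H) ^ j ≤ B := by
    have h1 : ∀ j ∈ range (T2 + 1),
        |((qw T1 T2 c r.num r.den h m j : ℤ) : ℝ)| * (2 * H) ^ j ≤
          ((T1 : ℝ) + 1) * X * M * (2 * H) ^ T2 := fun j hj =>
      wbound T1 T2 N H X hH hX c hc r hr0 hr1 hrN h hhH m j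
        (Nat.lt_succ_iff.1 (Finset.mem_range.1 hj))
    refine (Finset.sum_le_sum h1).trans (le_of_eq ?_)
    rw [Finset.sum_const, Finset.card_range, nsmul_eq_mul, hBeq]
    push_cast
    ring
  have hl := liou hH q hq1 hqd hqc β hqz T2 (fun j => qw T1 T2 c r.num r.den h m j) B hB1 hw hS0
  have hl2 : 1 ≤ |S| * B ^ (d - 1) := hl
  have hbM : (r.den : ℝ) ^ (T1 + m * T2) ≤ M := by
    rw [hM]
    push_cast
    refine pow_le_pow_left₀ (by positivity) ?_ _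
    have h1 : (r.den : ℝ) ≤ N := by exact_mod_cast hrN
    have h2 : (0 : ℝ) ≤ (m : ℝ) := by positivity
    nlinarith [mul_nonneg (Nat.cast_nonneg (α := ℝ) N) h2]
  have hhP : |(h : ℝ)| ^ T2 ≤ (2 * H) ^ T2 :=
    pow_le_pow_left₀ (abs_nonneg _) (by linarith) _
  have hcoef : (r.den : ℝ) ^ (T1 + m * T2) * |(h : ℝ)| ^ T2 ≤ B := by
    calc (r.den : ℝ) ^ (T1 + m * T2) * |(h : ℝ)| ^ T2 ≤ M * (2 * H) ^ T2 :=
          mul_le_mul hbM hhP (by positivity) (by linarith)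
      _ = 1 * (M * (2 * H) ^ T2) := by rw [one_mul]
      _ ≤ (((T1 + 1) * (T2 + 1) : ℕ) : ℝ) * X * (M * (2 * H) ^ T2) :=
          mul_le_mul_of_nonneg_right hTX (by positivity)
      _ = B := by rw [hBeq]; ring
  have hSle : |S| ≤ B * ‖Fx T1 T2 c ((r : ℂ) - m)‖ := by
    rw [← hnorm]
    exact mul_le_mul_of_nonneg_right hcoef (norm_nonneg _)
  have hB0 : 0 ≤ B := by linarith
  calc (1 : ℝ) ≤ |S| * B ^ (d - 1) := hl2
    _ ≤ B * ‖Fx T1 T2 c ((r : ℂ) - m)‖ * B ^ (d - 1) :=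
        mul_le_mul_of_nonneg_right hSle (by positivity)
    _ = ‖Fx T1 T2 c ((r : ℂ) - m)‖ * (B ^ (d - 1) * B) := by ring
    _ = ‖Fx T1 T2 c ((r : ℂ) - m)‖ * B ^ d := by rw [← pow_succ, Nat.sub_add_cancel hd]

end GQ
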