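import Mathlib
import Pool.Agent.Lib.GQ.Defs

/-!
# Logarithms of the bounds, `T1 = T * M`, `T2 = T`

`l = log (N M1)`, `M ≤ m`, `m + 1 ≤ M1`, `H ≤ exp M`, `T, M, N ≥ 1`.
* `log ((T M + 1)(T + 1)) ≤ T M + T ≤ 2 T m` (`log (1 + x) ≤ x`), `T log (2 H) ≤ T (1 + M) ≤ 2 T m` (`log 2 ≤ 1`).
* `log_bX`: `log bX = log ((TM+1)(T+1)) + (T M + M T) log (N M) + T log (2H) ≤ 2 T m + 2 T m l + 2 T m` (`log (N M) ≤ l` and `T M + M T ≤ 2 T m`).
* `log_bY`: `log bY = log (..) + log X + (T M + m T) log (N (m+1)) + T log (2H) ≤ 2Tm + log X + 2 T m l + 2 T m` with `X = bX`; sum `≤ T m (8 + 4 l)`.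
Stated as `bX ≤ exp (..)`, `bY ≤ exp (..)`.
-/

set_option autoImplicit false

open Finset

namespace GQ

namespace BndAux

theorem natpow_le (a k : ℕ) (K b : ℝ) (ha : 1 ≤ a) (hab : (a : ℝ) ≤ b) (hk : (k : ℝ) ≤ K) :
    ((a ^ k : ℕ) : ℝ) ≤ Real.exp (K * Real.log b) := by
  have ha' : (1 : ℝ) ≤ a := by exact_mod_cast ha
  have ha0 : (0 : ℝ) < a := by linarith
  have h1 : ((a ^ k : ℕ) : ℝ) = Real.exp (k * Real.log a) := by
    rw [Real.exp_nat_mul, Real.exp_log ha0]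
    push_cast
    rfl
  rw [h1]
  apply Real.exp_le_exp.2
  have h2 : 0 ≤ Real.log a := Real.log_nonneg ha'
  have h3 : Real.log a ≤ Real.log b := Real.log_le_log ha0 hab
  have h4 : (0 : ℝ) ≤ k := Nat.cast_nonneg k
  exact mul_le_mul hk h3 h2 (by linarith)

theorem card_le (T M m : ℕ) (hT : 1 ≤ T) (hM : 1 ≤ M) (hm : M ≤ m) :
    (((T * M + 1) * (T + 1) : ℕ) : ℝ) ≤ Real.exp (2 * (T * m)) := by
  have h1 : ((T * M : ℕ) : ℝ) + 1 ≤ Real.exp (T * m) := by
    have h := Real.add_one_le_exp ((T * M : ℕ) : ℝ)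
    refine h.trans (Real.exp_le_exp.2 ?_)
    have : ((T * M : ℕ) : ℝ) ≤ ((T * m : ℕ) : ℝ) := by exact_mod_cast Nat.mul_le_mul_left T hm
    push_cast at this ⊢
    exact this
  have h2 : (T : ℝ) + 1 ≤ Real.exp (T * m) := by
    have h := Real.add_one_le_exp (T : ℝ)
    refine h.trans (Real.exp_le_exp.2 ?_)
    have : ((T : ℕ) : ℝ) ≤ ((T * m : ℕ) : ℝ) := by
      exact_mod_cast Nat.le_mul_of_pos_right T (by omega)
    push_cast at this ⊢
    exact this
  have h3 : (((T * M + 1) * (T + 1) : ℕ) : ℝ) = (((T * M : ℕ) : ℝ) + 1) * ((T : ℝ) + 1) := by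
    push_cast
    ring
  rw [h3]
  calc (((T * M : ℕ) : ℝ) + 1) * ((T : ℝ) + 1) ≤ Real.exp (T * m) * Real.exp (T * m) := by
        gcongr
    _ = Real.exp (2 * (T * m)) := by
        rw [← Real.exp_add]
        congr 1
        ring

theorem twoH_le (T M m : ℕ) (H : ℝ) (hM : 1 ≤ M) (hm : M ≤ m) (hH : 1 ≤ H)
    (hHM : H ≤ Real.exp M) : (2 * H) ^ T ≤ Real.exp (2 * (T * m)) := by
  have h1 : 2 * H ≤ Real.exp (1 + M) := by
    rw [Real.exp_add]
    have h2 : (2 : ℝ) ≤ Real.exp 1 := by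
      have := Real.add_one_le_exp (1 : ℝ)
      linarith
    have h3 : (0 : ℝ) ≤ H := by linarith
    exact mul_le_mul h2 hHM h3 (Real.exp_pos 1).le
  have h4 : (1 : ℝ) + M ≤ 2 * m := by
    have : 1 + M ≤ 2 * m := by omega
    exact_mod_cast this
  calc (2 * H) ^ T ≤ (Real.exp (2 * m)) ^ T := by
        have h5 : 2 * H ≤ Real.exp (2 * m) := h1.trans (Real.exp_le_exp.2 h4)
        exact pow_le_pow_left₀ (by linarith) h5 T
    _ = Real.exp (2 * (T * m)) := by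
        rw [← Real.exp_nat_mul]
        congr 1
        ring

end BndAux

theorem bX_one_le (T1 T2 M N : ℕ) (H : ℝ) (hM : 1 ≤ M) (hN : 1 ≤ N) (hH : 1 ≤ H) :
    1 ≤ bX T1 T2 M N H := by
  unfold bX
  have h1 : (1 : ℝ) ≤ (((T1 + 1) * (T2 + 1) : ℕ) : ℝ) := by
    have : 1 ≤ (T1 + 1) * (T2 + 1) := Nat.one_le_iff_ne_zero.2 (by positivity)
    exact_mod_cast this
  have h2 : (1 : ℝ) ≤ (((N * M) ^ (T1 + M * T2) : ℕ) : ℝ) := by
    have h0 : 1 ≤ N * M := Nat.one_le_iff_ne_zero.2 (by positivity)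
    have : 1 ≤ (N * M) ^ (T1 + M * T2) := Nat.one_le_pow _ _ h0
    exact_mod_cast this
  have h3 : (1 : ℝ) ≤ (2 * H) ^ T2 := one_le_pow₀ (by linarith)
  exact one_le_mul_of_one_le_of_one_le (one_le_mul_of_one_le_of_one_le h1 h2) h3

theorem bX_le (T M N m M1 : ℕ) (H : ℝ) (hT : 1 ≤ T) (hM : 1 ≤ M) (hN : 1 ≤ N) (hm : M ≤ m)
    (hm1 : m + 1 ≤ M1) (hH : 1 ≤ H) (hHM : H ≤ Real.exp M) :
    bX (T * M) T M N H ≤ Real.exp (T * m * (4 + 2 * Real.log (N * M1))) := by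
  unfold bX
  have h1 := BndAux.card_le T M m hT hM hm
  have h2 : (((N * M) ^ (T * M + M * T) : ℕ) : ℝ) ≤
      Real.exp (2 * (T * m) * Real.log (N * M1)) := by
    refine BndAux.natpow_le (N * M) (T * M + M * T) _ _
      (Nat.one_le_iff_ne_zero.2 (by positivity)) ?_ ?_
    · have : N * M ≤ N * M1 := Nat.mul_le_mul_left N (by omega)
      exact_mod_cast this
    · have h0 : T * M ≤ T * m := Nat.mul_le_mul_left T hm
      have : T * M + M * T ≤ 2 * (T * m) := by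
        rw [Nat.mul_comm M T]
        omega
      exact_mod_cast this
  have h3 := BndAux.twoH_le T M m H hM hm hH hHM
  have h4 : (0 : ℝ) ≤ (2 * H) ^ T := by positivity
  calc (((T * M + 1) * (T + 1) : ℕ) : ℝ) * (((N * M) ^ (T * M + M * T) : ℕ) : ℝ) * (2 * H) ^ T
      ≤ Real.exp (2 * (T * m)) * Real.exp (2 * (T * m) * Real.log (N * M1)) *
        Real.exp (2 * (T * m)) := by
        gcongr
    _ = Real.exp (T * m * (4 + 2 * Real.log (N * M1))) := by
        rw [← Real.exp_add, ← Real.exp_add]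
        congr 1
        ring

theorem bY_le (T M N m M1 : ℕ) (H : ℝ) (hT : 1 ≤ T) (hM : 1 ≤ M) (hN : 1 ≤ N) (hm : M ≤ m)
    (hm1 : m + 1 ≤ M1) (hH : 1 ≤ H) (hHM : H ≤ Real.exp M) :
    bY (T * M) T m N (bX (T * M) T M N H) H ≤ Real.exp (T * m * (8 + 4 * Real.log (N * M1))) := by
  have hX := bX_le T M N m M1 H hT hM hN hm hm1 hH hHM
  have hX1 := bX_one_le (T * M) T M N H hM hN hH
  generalize bX (T * M) T M N H = X at hX hX1
  unfold bY
  have h1 := BndAux.card_le T M m hT hM hm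
  have h2 : (((N * (m + 1)) ^ (T * M + m * T) : ℕ) : ℝ) ≤
      Real.exp (2 * (T * m) * Real.log (N * M1)) := by
    refine BndAux.natpow_le (N * (m + 1)) (T * M + m * T) _ _
      (Nat.one_le_iff_ne_zero.2 (by positivity)) ?_ ?_
    · have : N * (m + 1) ≤ N * M1 := Nat.mul_le_mul_left N hm1
      exact_mod_cast this
    · have h0 : T * M ≤ T * m := Nat.mul_le_mul_left T hm
      have : T * M + m * T ≤ 2 * (T * m) := by
        rw [Nat.mul_comm m T]
        omega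
      exact_mod_cast this
  have h3 := BndAux.twoH_le T M m H hM hm hH hHM
  have h4 : (0 : ℝ) ≤ (2 * H) ^ T := by positivity
  calc (((T * M + 1) * (T + 1) : ℕ) : ℝ) * X * (((N * (m + 1)) ^ (T * M + m * T) : ℕ) : ℝ) *
        (2 * H) ^ T
      ≤ Real.exp (2 * (T * m)) * Real.exp (T * m * (4 + 2 * Real.log (N * M1))) *
        Real.exp (2 * (T * m) * Real.log (N * M1)) * Real.exp (2 * (T * m)) := by
        gcongr
    _ = Real.exp (T * m * (8 + 4 * Real.log (N * M1))) := by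
        rw [← Real.exp_add, ← Real.exp_add, ← Real.exp_add]
        congr 1
        ring

end GQ
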