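import Mathlib
import Pool.Agent.Lib.GQ.Defs

/-!
# `1 / Γ` is entire of order one

`Gi_diff`: `Complex.differentiable_one_div_Gamma`.

`growth`: `(Complex.GammaSeq z n)⁻¹ = z * ∏_{j=1}^n (1 + z / j) * n ^ (-z)` (`GammaSeq z n = n ^ z * n! / ∏_{j=0}^n (z + j)`; for `z` equal to one of `0, -1, ..., -n` both sides are `0`)
`= z * exp (z * (H_n - log n)) * ∏_{j=1}^n (1 + z / j) * exp (- z / j)`, `H_n = ∑_{j=1}^n 1 / j`, `0 ≤ H_n - log n ≤ 1` (`Real.log_add_one_le_harmonic`, `harmonic_le_one_add_log`).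
For `‖z‖ ≤ R` and `j ≤ 2 R`: `‖(1 + z/j) exp (- z/j)‖ ≤ exp (2 R / j)` (`1 + x ≤ exp x`); for `j > 2 R`: `‖(1 + w) exp (- w)‖ ≤ exp (‖w‖ ^ 2)` for `‖w‖ ≤ 1/2` (for example
`Complex.norm_log_one_add_sub_self_le`, or `‖(1+w) exp(-w) - 1‖ ≤ ‖w‖^2` by `Complex.norm_exp_sub_one_sub_id_le`), and `∑_{j > 2R} R ^ 2 / j ^ 2 ≤ R + 1`. So `‖(GammaSeq z n)⁻¹‖ ≤ R * exp (R + 2 R (1 + log (2 R)) + R + 1)`,
the same bound for the limit `n → ∞` (`Complex.GammaSeq_tendsto_Gamma`; if `Gamma z = 0`, i.e. `Gi z = 0`, nothing is to be proved, else `Tendsto.inv₀`), and this is `≤ exp (c R log (R + 2))` for a constant `c`.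
(Another proof of the same statement is welcome, the constant `c` is free.)
-/

set_option autoImplicit false

open Finset

namespace GQ

theorem Gi_diff : Differentiable ℂ Gi := Complex.differentiable_one_div_Gamma

namespace GrowthAux

/-- harmonic sums -/
noncomputable def Hs (n : ℕ) : ℝ := ∑ j ∈ range n, 1 / ((j : ℝ) + 1)

theorem Hs_succ (n : ℕ) : Hs (n + 1) = Hs n + 1 / ((n : ℝ) + 1) := by
  unfold Hs
  rw [sum_range_succ]

theorem Hs_eq (n : ℕ) : Hs n = ((harmonic n : ℚ) : ℝ) := by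
  unfold Hs harmonic
  push_cast
  refine sum_congr rfl fun i _ => ?_
  rw [one_div]

theorem Hs_le (n : ℕ) : Hs n ≤ 1 + Real.log n := by
  rw [Hs_eq]
  exact harmonic_le_one_add_log n

theorem le_Hs (n : ℕ) (hn : 1 ≤ n) : Real.log n ≤ Hs n := by
  rw [Hs_eq]
  refine le_trans ?_ (log_add_one_le_harmonic n)
  refine Real.log_le_log (by exact_mod_cast hn) ?_
  push_cast
  linarith

theorem nrm_one_add_sq (w : ℂ) : ‖1 + w‖ ^ 2 = 1 + 2 * w.re + ‖w‖ ^ 2 := by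
  rw [← Complex.normSq_eq_norm_sq, ← Complex.normSq_eq_norm_sq]
  simp only [Complex.normSq_apply, Complex.add_re, Complex.add_im, Complex.one_re, Complex.one_im]
  ring

theorem nrm_a (w : ℂ) : ‖1 + w‖ ≤ Real.exp (w.re + ‖w‖ ^ 2 / 2) := by
  have h1 : ‖1 + w‖ ^ 2 ≤ (Real.exp (w.re + ‖w‖ ^ 2 / 2)) ^ 2 := by
    rw [nrm_one_add_sq, ← Real.exp_nat_mul]
    have h2 := Real.add_one_le_exp (2 * w.re + ‖w‖ ^ 2)
    have h3 : ((2 : ℕ) : ℝ) * (w.re + ‖w‖ ^ 2 / 2) = 2 * w.re + ‖w‖ ^ 2 := by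
      push_cast
      ring
    rw [h3]
    linarith
  exact (pow_le_pow_iff_left₀ (norm_nonneg _) (Real.exp_pos _).le two_ne_zero).mp h1

theorem nrm_b (w : ℂ) : ‖1 + w‖ ≤ Real.exp (w.re + 2 * ‖w‖) := by
  have h1 : ‖1 + w‖ ≤ 1 + ‖w‖ := by
    refine (norm_add_le _ _).trans ?_
    rw [norm_one]
  have h2 := Real.add_one_le_exp ‖w‖
  have h3 : -‖w‖ ≤ w.re := by
    have := Complex.abs_re_le_norm w
    exact (abs_le.mp this).1
  have h4 : Real.exp ‖w‖ ≤ Real.exp (w.re + 2 * ‖w‖) := Real.exp_le_exp.mpr (by linarith)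
  linarith

/-- the partial product -/
noncomputable def Pp (z : ℂ) (n : ℕ) : ℝ := ∏ j ∈ range n, ‖1 + z / ((j : ℂ) + 1)‖

theorem Pp_succ (z : ℂ) (n : ℕ) : Pp z (n + 1) = Pp z n * ‖1 + z / ((n : ℂ) + 1)‖ := by
  unfold Pp
  rw [prod_range_succ]

theorem Pp_nonneg (z : ℂ) (n : ℕ) : 0 ≤ Pp z n := by
  unfold Pp
  exact prod_nonneg fun _ _ => norm_nonneg _

theorem re_div (z : ℂ) (n : ℕ) : (z / ((n : ℂ) + 1)).re = z.re * (1 / ((n : ℝ) + 1)) := by
  have h : z / ((n : ℂ) + 1) = z / (((n : ℝ) + 1 : ℝ) : ℂ) := by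
    push_cast
    rfl
  rw [h, Complex.div_ofReal_re]
  ring

theorem nrm_div (z : ℂ) (n : ℕ) : ‖z / ((n : ℂ) + 1)‖ = ‖z‖ * (1 / ((n : ℝ) + 1)) := by
  have h : z / ((n : ℂ) + 1) = z / (((n : ℝ) + 1 : ℝ) : ℂ) := by
    push_cast
    rfl
  rw [h, norm_div, Complex.norm_real, Real.norm_eq_abs, abs_of_pos (by positivity)]
  ring

theorem Pp_small (z : ℂ) (R : ℝ) (hz : ‖z‖ ≤ R) (n : ℕ) :
    Pp z n ≤ Real.exp (z.re * Hs n + 2 * R * Hs n) := by
  induction n with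
  | zero => simp [Pp, Hs]
  | succ n ih =>
    rw [Pp_succ, Hs_succ]
    have h0 : (0 : ℝ) < 1 / ((n : ℝ) + 1) := by positivity
    have h1 := nrm_b (z / ((n : ℂ) + 1))
    rw [re_div, nrm_div] at h1
    have h2 : ‖z‖ * (1 / ((n : ℝ) + 1)) ≤ R * (1 / ((n : ℝ) + 1)) :=
      mul_le_mul_of_nonneg_right hz h0.le
    calc Pp z n * ‖1 + z / ((n : ℂ) + 1)‖
        ≤ Real.exp (z.re * Hs n + 2 * R * Hs n) *
          Real.exp (z.re * (1 / ((n : ℝ) + 1)) + 2 * (‖z‖ * (1 / ((n : ℝ) + 1)))) :=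
          mul_le_mul ih h1 (norm_nonneg _) (Real.exp_pos _).le
      _ = Real.exp ((z.re * Hs n + 2 * R * Hs n) +
          (z.re * (1 / ((n : ℝ) + 1)) + 2 * (‖z‖ * (1 / ((n : ℝ) + 1))))) := by
          rw [← Real.exp_add]
      _ ≤ _ := Real.exp_le_exp.mpr (by nlinarith)

theorem Pp_large (z : ℂ) (R : ℝ) (hz : ‖z‖ ≤ R) (J : ℕ) (hJ : 1 ≤ J) (n : ℕ) (hn : J ≤ n) :
    Pp z n ≤ Real.exp (z.re * Hs n + 2 * R * Hs J + R ^ 2 / 2 * (1 / (J : ℝ) - 1 / (n : ℝ))) := by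
  induction n, hn using Nat.le_induction with
  | base =>
    have := Pp_small z R hz J
    simpa using this
  | succ n hn ih =>
    rw [Pp_succ, Hs_succ]
    have hn1 : (1 : ℝ) ≤ n := by
      have : 1 ≤ n := hJ.trans hn
      exact_mod_cast this
    have h0 : (0 : ℝ) < 1 / ((n : ℝ) + 1) := by positivity
    have h1 := nrm_a (z / ((n : ℂ) + 1))
    rw [re_div, nrm_div] at h1
    have hR : 0 ≤ R := (norm_nonneg z).trans hz
    have h2 : ‖z‖ ^ 2 ≤ R ^ 2 := by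
      exact pow_le_pow_left₀ (norm_nonneg z) hz 2
    have h3 : (‖z‖ * (1 / ((n : ℝ) + 1))) ^ 2 / 2 ≤ R ^ 2 / 2 * (1 / (n : ℝ) - 1 / ((n : ℝ) + 1)) := by
      have h4 : (‖z‖ * (1 / ((n : ℝ) + 1))) ^ 2 ≤ R ^ 2 * (1 / ((n : ℝ) + 1)) ^ 2 := by
        rw [mul_pow]
        exact mul_le_mul_of_nonneg_right h2 (by positivity)
      have h5 : (1 / ((n : ℝ) + 1)) ^ 2 ≤ 1 / (n : ℝ) - 1 / ((n : ℝ) + 1) := by
        have h6 : 1 / (n : ℝ) - 1 / ((n : ℝ) + 1) = 1 / ((n : ℝ) * ((n : ℝ) + 1)) := by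
          field_simp
          ring
        rw [h6, one_div_pow]
        apply one_div_le_one_div_of_le
        · positivity
        · nlinarith
      have h7 : 0 ≤ R ^ 2 := sq_nonneg R
      nlinarith [mul_le_mul_of_nonneg_left h5 h7]
    calc Pp z n * ‖1 + z / ((n : ℂ) + 1)‖
        ≤ Real.exp (z.re * Hs n + 2 * R * Hs J + R ^ 2 / 2 * (1 / (J : ℝ) - 1 / (n : ℝ))) *
          Real.exp (z.re * (1 / ((n : ℝ) + 1)) + (‖z‖ * (1 / ((n : ℝ) + 1))) ^ 2 / 2) :=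
          mul_le_mul ih h1 (norm_nonneg _) (Real.exp_pos _).le
      _ = Real.exp ((z.re * Hs n + 2 * R * Hs J + R ^ 2 / 2 * (1 / (J : ℝ) - 1 / (n : ℝ))) +
          (z.re * (1 / ((n : ℝ) + 1)) + (‖z‖ * (1 / ((n : ℝ) + 1))) ^ 2 / 2)) := by
          rw [← Real.exp_add]
      _ ≤ _ := by
          refine Real.exp_le_exp.mpr ?_
          push_cast
          linarith

theorem prod_eq (z : ℂ) (n : ℕ) :
    ∏ j ∈ range (n + 1), (z + (j : ℂ)) =
      z * (∏ j ∈ range n, (1 + z / ((j : ℂ) + 1))) * (n.factorial : ℂ) := by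
  induction n with
  | zero => simp
  | succ n ih =>
    rw [prod_range_succ, ih, prod_range_succ _ n, Nat.factorial_succ]
    have h : (n : ℂ) + 1 ≠ 0 := Nat.cast_add_one_ne_zero n
    push_cast
    field_simp
    ring

theorem inv_seq_norm (z : ℂ) (n : ℕ) (hn : 1 ≤ n) :
    ‖(Complex.GammaSeq z n)⁻¹‖ = ‖z‖ * Pp z n * Real.exp (-(z.re * Real.log n)) := by
  have hn0 : (n : ℝ) ≠ 0 := by positivity
  have hnp : (0 : ℝ) < n := by positivity
  unfold Complex.GammaSeq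
  rw [prod_eq, inv_div, norm_div, norm_mul, norm_mul, norm_mul, norm_prod]
  have h1 : ‖((n : ℂ) ^ z)‖ = Real.exp (z.re * Real.log n) := by
    have := Complex.norm_cpow_eq_rpow_re_of_pos hnp z
    rw [Complex.ofReal_natCast] at this
    rw [this, Real.rpow_def_of_pos hnp]
    ring_nf
  rw [h1, Real.exp_neg]
  have h2 : ‖((n.factorial : ℕ) : ℂ)‖ ≠ 0 := by
    rw [norm_ne_zero_iff]
    exact_mod_cast Nat.factorial_ne_zero n
  have h3 := Real.exp_pos (z.re * Real.log n)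
  unfold Pp
  field_simp

theorem inv_seq_le (z : ℂ) (R : ℝ) (hR : 1 ≤ R) (hz : ‖z‖ ≤ R) (n : ℕ) (hn : ⌈R⌉₊ ≤ n) :
    ‖(Complex.GammaSeq z n)⁻¹‖ ≤ Real.exp (7 * R * Real.log (R + 2)) := by
  set J := ⌈R⌉₊ with hJd
  have hJ : 1 ≤ J := by
    have : (1 : ℝ) ≤ J := hR.trans (Nat.le_ceil R)
    exact_mod_cast this
  have hJ1 : R ≤ J := Nat.le_ceil R
  have hJ2 : (J : ℝ) < R + 1 := Nat.ceil_lt_add_one (by linarith)
  have hn1 : 1 ≤ n := hJ.trans hn
  rw [inv_seq_norm z n hn1]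
  have h1 := Pp_large z R hz J hJ n hn
  have h2 : ‖z‖ ≤ Real.exp R := hz.trans (by linarith [Real.add_one_le_exp R])
  have hlog : 1 ≤ Real.log (R + 2) := by
    rw [Real.le_log_iff_exp_le (by linarith)]
    linarith [Real.exp_one_lt_d9]
  have h3 : Hs J ≤ 1 + Real.log (R + 2) := by
    have := Hs_le J
    have h4 : Real.log J ≤ Real.log (R + 2) := by
      refine Real.log_le_log ?_ (by linarith)
      exact_mod_cast hJ
    linarith
  have h5 : z.re * (Hs n - Real.log n) ≤ R := by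
    have a1 := Hs_le n
    have a2 := le_Hs n hn1
    have a3 : z.re ≤ R := (Complex.re_le_norm z).trans hz
    have a4 : z.re * (Hs n - Real.log n) ≤ R * (Hs n - Real.log n) :=
      mul_le_mul_of_nonneg_right a3 (by linarith)
    have a5 : R * (Hs n - Real.log n) ≤ R * 1 :=
      mul_le_mul_of_nonneg_left (by linarith) (by linarith)
    linarith
  have h6 : R ^ 2 / 2 * (1 / (J : ℝ) - 1 / (n : ℝ)) ≤ R := by
    have b1 : 1 / (J : ℝ) - 1 / (n : ℝ) ≤ 1 / R := by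
      have : 1 / (J : ℝ) ≤ 1 / R := one_div_le_one_div_of_le (by linarith) hJ1
      have b2 : 0 ≤ 1 / (n : ℝ) := by positivity
      linarith
    have b3 : R ^ 2 / 2 * (1 / (J : ℝ) - 1 / (n : ℝ)) ≤ R ^ 2 / 2 * (1 / R) :=
      mul_le_mul_of_nonneg_left b1 (by positivity)
    have b4 : R ^ 2 / 2 * (1 / R) = R / 2 := by
      field_simp
    linarith
  calc ‖z‖ * Pp z n * Real.exp (-(z.re * Real.log n))
      ≤ Real.exp R *
        Real.exp (z.re * Hs n + 2 * R * Hs J + R ^ 2 / 2 * (1 / (J : ℝ) - 1 / (n : ℝ))) *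
        Real.exp (-(z.re * Real.log n)) := by
        refine mul_le_mul_of_nonneg_right ?_ (Real.exp_pos _).le
        exact mul_le_mul h2 h1 (Pp_nonneg z n) (Real.exp_pos _).le
    _ = Real.exp (R + (z.re * Hs n + 2 * R * Hs J + R ^ 2 / 2 * (1 / (J : ℝ) - 1 / (n : ℝ))) +
        (-(z.re * Real.log n))) := by
        rw [← Real.exp_add, ← Real.exp_add]
    _ ≤ _ := by
        refine Real.exp_le_exp.mpr ?_
        have c1 : 2 * R * Hs J ≤ 2 * R * (1 + Real.log (R + 2)) :=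
          mul_le_mul_of_nonneg_left h3 (by linarith)
        have c2 : R * 1 ≤ R * Real.log (R + 2) := mul_le_mul_of_nonneg_left hlog (by linarith)
        nlinarith

end GrowthAux

open GrowthAux in
theorem growth : ∃ c : ℝ, 1 ≤ c ∧ ∀ R : ℝ, 1 ≤ R → ∀ z : ℂ, ‖z‖ ≤ R →
    ‖Gi z‖ ≤ Real.exp (c * R * Real.log (R + 2)) := by
  refine ⟨7, by norm_num, fun R hR z hz => ?_⟩
  unfold Gi
  by_cases h0 : Complex.Gamma z = 0
  · rw [h0, inv_zero, norm_zero]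
    exact (Real.exp_pos _).le
  · have h1 := ((Complex.GammaSeq_tendsto_Gamma z).inv₀ h0).norm
    refine le_of_tendsto h1 ?_
    filter_upwards [Filter.eventually_ge_atTop ⌈R⌉₊] with n hn
    exact inv_seq_le z R hR hz n hn

end GQ
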