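import Mathlib
import Pool.Agent.Lib.GQ.Defs

/-!
# The Schwarz lemma for finitely many zeros

Induction on the finset `Z` does not keep the bound on the circle, so: there is an entire `h` with `F w = (∏ ζ ∈ Z, (w - ζ)) * h w` for all `w` (induction on `Z`, dividing by one factor:
`h = dslope F ζ` is entire, `F w = (w - ζ) * dslope F ζ w` as `F ζ = 0`; `Differentiable` of `dslope`: `Complex.differentiableOn_dslope` on `Set.univ`; the remaining zeros are zeros of `dslope F ζ`).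
On `‖w‖ = R`: `‖w - ζ‖ ≥ R - ‖ζ‖ > 0`, so `‖h w‖ ≤ B / ∏ (R - ‖ζ‖)`; by the maximum principle (`Complex.norm_le_of_forall_mem_frontier_norm_le` on the ball) the same for `‖z‖ < R`. (`0 < R` because `‖z‖ < R`.)
-/

set_option autoImplicit false

open Finset

namespace GQ

private theorem schwFac (Z : Finset ℂ) : ∀ F : ℂ → ℂ, Differentiable ℂ F → (∀ ζ ∈ Z, F ζ = 0) →
    ∃ h : ℂ → ℂ, Differentiable ℂ h ∧ ∀ w, F w = (∏ ζ ∈ Z, (w - ζ)) * h w := by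
  classical
  induction Z using Finset.induction_on with
  | empty =>
    intro F hF _
    exact ⟨F, hF, fun w => by simp⟩
  | insert a Z ha ih =>
    intro F hF hZ
    have hFa : F a = 0 := hZ a (Finset.mem_insert_self a Z)
    have hfac : ∀ w, F w = (w - a) * dslope F a w := by
      intro w
      have h1 := sub_smul_dslope F a w
      rw [hFa, sub_zero, smul_eq_mul] at h1
      exact h1.symm
    have hdiff : Differentiable ℂ (dslope F a) := by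
      rw [← differentiableOn_univ]
      exact (Complex.differentiableOn_dslope Filter.univ_mem).mpr hF.differentiableOn
    have hz : ∀ ζ ∈ Z, dslope F a ζ = 0 := by
      intro ζ hζ
      have h1 : F ζ = 0 := hZ ζ (Finset.mem_insert_of_mem hζ)
      rw [hfac ζ] at h1
      rcases mul_eq_zero.mp h1 with h2 | h2
      · exact absurd (by rw [sub_eq_zero.mp h2] at hζ; exact hζ) ha
      · exact h2
    obtain ⟨h, hh, hw⟩ := ih (dslope F a) hdiff hz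
    refine ⟨h, hh, fun w => ?_⟩
    rw [Finset.prod_insert ha, hfac w, hw w, mul_assoc]

theorem schwarz {F : ℂ → ℂ} (hF : Differentiable ℂ F) (Z : Finset ℂ) (hZ : ∀ ζ ∈ Z, F ζ = 0)
    (R B : ℝ) (hR : ∀ ζ ∈ Z, ‖ζ‖ < R) (hB : ∀ w : ℂ, ‖w‖ = R → ‖F w‖ ≤ B) (z : ℂ)
    (hz : ‖z‖ < R) : ‖F z‖ ≤ B * ∏ ζ ∈ Z, (‖z - ζ‖ / (R - ‖ζ‖)) := by
  obtain ⟨h, hh, hw⟩ := schwFac Z F hF hZ
  have hR0 : 0 < R := lt_of_le_of_lt (norm_nonneg z) hz
  have hpos : 0 < ∏ ζ ∈ Z, (R - ‖ζ‖) := Finset.prod_pos fun ζ hζ => sub_pos.mpr (hR ζ hζ)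
  have hbd : ∀ w : ℂ, ‖w‖ = R → ‖h w‖ ≤ B / ∏ ζ ∈ Z, (R - ‖ζ‖) := by
    intro w hwR
    rw [le_div_iff₀ hpos]
    have h1 : ∏ ζ ∈ Z, (R - ‖ζ‖) ≤ ∏ ζ ∈ Z, ‖w - ζ‖ := by
      refine Finset.prod_le_prod (fun ζ hζ => (sub_pos.mpr (hR ζ hζ)).le) fun ζ _ => ?_
      have h2 := norm_sub_norm_le w ζ
      rw [hwR] at h2
      exact h2
    calc ‖h w‖ * ∏ ζ ∈ Z, (R - ‖ζ‖) ≤ ‖h w‖ * ∏ ζ ∈ Z, ‖w - ζ‖ :=
          mul_le_mul_of_nonneg_left h1 (norm_nonneg _)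
      _ = ‖F w‖ := by rw [hw w, norm_mul, norm_prod, mul_comm]
      _ ≤ B := hB w hwR
  have hmax : ‖h z‖ ≤ B / ∏ ζ ∈ Z, (R - ‖ζ‖) := by
    refine Complex.norm_le_of_forall_mem_frontier_norm_le (U := Metric.ball (0 : ℂ) R)
      Metric.isBounded_ball hh.diffContOnCl ?_ ?_
    · intro w hwf
      rw [frontier_ball (0 : ℂ) hR0.ne', mem_sphere_zero_iff_norm] at hwf
      exact hbd w hwf
    · exact subset_closure (by rw [mem_ball_zero_iff]; exact hz)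
  calc ‖F z‖ = (∏ ζ ∈ Z, ‖z - ζ‖) * ‖h z‖ := by rw [hw z, norm_mul, norm_prod]
    _ ≤ (∏ ζ ∈ Z, ‖z - ζ‖) * (B / ∏ ζ ∈ Z, (R - ‖ζ‖)) :=
        mul_le_mul_of_nonneg_left hmax (Finset.prod_nonneg fun ζ _ => norm_nonneg _)
    _ = B * ∏ ζ ∈ Z, (‖z - ζ‖ / (R - ‖ζ‖)) := by
        rw [Finset.prod_div_distrib]; ring

end GQ
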