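import Mathlib
import Pool.Agent.Lib.GQ.Defs
import Pool.Agent.Lib.GQ.Growth
import Pool.Agent.Lib.GQ.Schw
import Pool.Agent.Lib.GQ.AuxB
import Pool.Agent.Lib.GQ.Bnd

/-!
# Extrapolation

`c` from `growth`, `C1 = 24 + 42 c`. Strong induction on `m`: let `M ≤ m < M1` and suppose `F (r - m') = 0` for all `r ∈ S`, `m' < m`. Let `r ∈ S`, `z = r - m`, `R = 7 (m + 1)`, `l = log (N M1)`, `Λ = l + 1`.
Zeros: the points `r' - m'`, `r' ∈ S`, `m' < m`, distinct (`0 < r' ≤ 1`), `S.card * m` of them (image of `S ×ˢ range m`), of absolute value `≤ m` (`m ≥ 1`), `‖z‖ ≤ m`, `‖z - ζ‖ ≤ m + 1`, `R - ‖ζ‖ ≥ 6 (m+1)`: each factor in `schwarz` is `≤ 1/6 ≤ exp (-1)`.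
On `‖w‖ = R`: `‖F w‖ ≤ ((T M + 1)(T + 1)) X R^(T M) exp (T c R log (R+2))`, `X = bX ≤ exp (T m (4 + 2 l))` (`bX_le`), `(TM+1)(T+1) ≤ exp (2 T m)`, `R ≤ 14 m ≤ 14 M1`, `log (R + 2) ≤ log (16 m) ≤ 3 Λ`, so
`‖F w‖ ≤ exp (T m (6 + 2 l + 3 Λ + 42 c Λ)) ≤ exp ((11 + 42 c) T m Λ)`. Hence `‖F z‖ ≤ exp ((11 + 42 c) T m Λ - S.card m)`. If `F z ≠ 0`, `auxB` and `bY_le` give
`1 ≤ ‖F z‖ exp (d T m (8 + 4 l)) ≤ ‖F z‖ exp (12 d T m Λ)`, so `S.card ≤ (23 + 42 c) d T Λ`, contradiction to `C1 d T Λ ≤ S.card` (`d T Λ ≥ 1`).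
-/

set_option autoImplicit false

open Finset

namespace GQ

namespace ExtAux

/-- the finset of the known zeros -/
noncomputable def Zs (S : Finset ℚ) (m : ℕ) : Finset ℂ :=
  (S ×ˢ range m).image (fun p : ℚ × ℕ => ((p.1 : ℂ) - (p.2 : ℂ)))

theorem Zs_card (S : Finset ℚ) (m : ℕ) (hS : ∀ r ∈ S, 0 < r ∧ r ≤ 1) :
    (Zs S m).card = S.card * m := by
  unfold Zs
  rw [card_image_of_injOn, card_product, card_range]
  rintro ⟨r, k⟩ h1 ⟨r', k'⟩ h2 h
  simp only [coe_product, Set.mem_prod, mem_coe] at h1 h2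
  simp only at h
  obtain ⟨a1, a2⟩ := hS r h1.1
  obtain ⟨b1, b2⟩ := hS r' h2.1
  have h3 : ((r - k : ℚ) : ℂ) = ((r' - k' : ℚ) : ℂ) := by push_cast; exact h
  have h4 : (r - k : ℚ) = r' - k' := by exact_mod_cast h3
  have hk : k = k' := by
    rcases lt_trichotomy k k' with hlt | heq | hlt
    · exfalso
      have : ((k : ℚ) + 1) ≤ k' := by exact_mod_cast hlt
      linarith
    · exact heq
    · exfalso
      have : ((k' : ℚ) + 1) ≤ k := by exact_mod_cast hlt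
      linarith
  subst hk
  have : r = r' := by linarith
  rw [this]

theorem norm_sub_le {r : ℚ} (h0 : 0 < r) (h1 : r ≤ 1) {k m : ℕ} (hk : k ≤ m) (hm : 1 ≤ m) :
    ‖((r : ℂ) - (k : ℂ))‖ ≤ m := by
  have h2 : ((r : ℂ) - (k : ℂ)) = (((r : ℝ) - (k : ℝ) : ℝ) : ℂ) := by push_cast; rfl
  rw [h2, Complex.norm_real, Real.norm_eq_abs, abs_le]
  have a0 : (0 : ℝ) < r := by exact_mod_cast h0
  have a1 : (r : ℝ) ≤ 1 := by exact_mod_cast h1
  have a2 : (k : ℝ) ≤ m := by exact_mod_cast hk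
  have a3 : (1 : ℝ) ≤ m := by exact_mod_cast hm
  have a4 : (0 : ℝ) ≤ k := Nat.cast_nonneg k
  constructor <;> linarith

theorem norm_diff_le {r r' : ℚ} (h0 : 0 < r) (h1 : r ≤ 1) (h0' : 0 < r') (h1' : r' ≤ 1)
    {k m : ℕ} (hk : k ≤ m) :
    ‖((r : ℂ) - (m : ℂ)) - ((r' : ℂ) - (k : ℂ))‖ ≤ m + 1 := by
  have h2 : ((r : ℂ) - (m : ℂ)) - ((r' : ℂ) - (k : ℂ)) =
      ((((r : ℝ) - m) - ((r' : ℝ) - (k : ℝ)) : ℝ) : ℂ) := by push_cast; rfl
  rw [h2, Complex.norm_real, Real.norm_eq_abs, abs_le]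
  have a0 : (0 : ℝ) < r := by exact_mod_cast h0
  have a1 : (r : ℝ) ≤ 1 := by exact_mod_cast h1
  have b0 : (0 : ℝ) < r' := by exact_mod_cast h0'
  have b1 : (r' : ℝ) ≤ 1 := by exact_mod_cast h1'
  have a2 : (k : ℝ) ≤ m := by exact_mod_cast hk
  have a4 : (0 : ℝ) ≤ k := Nat.cast_nonneg k
  constructor <;> linarith

/-- trivial bound of the auxiliary function on a circle -/
theorem Fx_le (T1 T2 : ℕ) (c : ℕ → ℕ → ℤ) (X : ℝ) (hX : 0 ≤ X) (hc : ∀ i j, |(c i j : ℝ)| ≤ X)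
    (R g : ℝ) (hR : 1 ≤ R) (hg : 1 ≤ g) (w : ℂ) (hw : ‖w‖ ≤ R) (hG : ‖Gi w‖ ≤ g) :
    ‖Fx T1 T2 c w‖ ≤ ((T1 + 1) * (T2 + 1)) * X * R ^ T1 * g ^ T2 := by
  unfold Fx
  refine (norm_sum_le _ _).trans ?_
  have h1 : ∀ i ∈ range (T1 + 1), ‖∑ j ∈ range (T2 + 1), (c i j : ℂ) * w ^ i * Gi w ^ j‖ ≤
      (T2 + 1) * (X * R ^ T1 * g ^ T2) := by
    intro i hi
    refine (norm_sum_le _ _).trans ?_
    have h2 : ∀ j ∈ range (T2 + 1), ‖(c i j : ℂ) * w ^ i * Gi w ^ j‖ ≤ X * R ^ T1 * g ^ T2 := by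
      intro j hj
      rw [norm_mul, norm_mul, norm_pow, norm_pow]
      have h3 : ‖(c i j : ℂ)‖ ≤ X := by
        rw [Complex.norm_intCast]
        exact hc i j
      have h4 : ‖w‖ ^ i ≤ R ^ T1 := by
        calc ‖w‖ ^ i ≤ R ^ i := by gcongr
          _ ≤ R ^ T1 := pow_le_pow_right₀ hR (by have := mem_range.1 hi; omega)
      have h5 : ‖Gi w‖ ^ j ≤ g ^ T2 := by
        calc ‖Gi w‖ ^ j ≤ g ^ j := by gcongr
          _ ≤ g ^ T2 := pow_le_pow_right₀ hg (by have := mem_range.1 hj; omega)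
      gcongr
    refine (sum_le_sum h2).trans ?_
    rw [sum_const, card_range, nsmul_eq_mul]
    push_cast
    exact le_rfl
  refine (sum_le_sum h1).trans ?_
  rw [sum_const, card_range, nsmul_eq_mul]
  push_cast
  rw [← mul_assoc, ← mul_assoc, ← mul_assoc]

theorem Fx_diff (T1 T2 : ℕ) (c : ℕ → ℕ → ℤ) : Differentiable ℂ (Fx T1 T2 c) := by
  unfold Fx
  refine Differentiable.fun_sum fun i _ => Differentiable.fun_sum fun j _ => ?_
  exact ((differentiable_const _).mul (differentiable_id.pow i)).mul (Gi_diff.pow j)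

/-- the numerical inequality on the circle -/
theorem num (c0 : ℝ) (hc0 : 1 ≤ c0) (T M N m M1 : ℕ) (hT : 1 ≤ T) (hM : 1 ≤ M) (hN : 1 ≤ N)
    (hm : M ≤ m) (hm1 : m + 1 ≤ M1) (X : ℝ)
    (hX0 : 0 ≤ X) (hX : X ≤ Real.exp (T * m * (4 + 2 * Real.log (N * M1)))) :
    (((T * M : ℕ) : ℝ) + 1) * ((T : ℝ) + 1) * X * (7 * ((m : ℝ) + 1)) ^ (T * M) *
      (Real.exp (c0 * (7 * ((m : ℝ) + 1)) * Real.log (7 * ((m : ℝ) + 1) + 2))) ^ T ≤
      Real.exp ((11 + 42 * c0) * T * m * (Real.log (N * M1) + 1)) := by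
  have hTR : (1 : ℝ) ≤ T := by exact_mod_cast hT
  have hMR : (1 : ℝ) ≤ M := by exact_mod_cast hM
  have hNR : (1 : ℝ) ≤ N := by exact_mod_cast hN
  have hmR : (M : ℝ) ≤ m := by exact_mod_cast hm
  have hm1R : (1 : ℝ) ≤ m := hMR.trans hmR
  have hM1R : (m : ℝ) + 1 ≤ M1 := by exact_mod_cast hm1
  obtain ⟨l, hl⟩ : ∃ l : ℝ, l = Real.log (N * M1) := ⟨_, rfl⟩
  rw [← hl] at hX ⊢
  have hNM1 : (m : ℝ) ≤ N * M1 := by nlinarith
  have hl0 : 0 ≤ l := by
    rw [hl]
    apply Real.log_nonneg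
    linarith
  have hml : Real.log m ≤ l := by
    rw [hl]
    exact Real.log_le_log (by linarith) hNM1
  -- log (7 (m+1) + 2) ≤ 3 (l + 1)
  have hlog : Real.log (7 * ((m : ℝ) + 1) + 2) ≤ 3 * (l + 1) := by
    have h2 : 7 * ((m : ℝ) + 1) + 2 ≤ 16 * m := by linarith
    have h3 : Real.log (16 * m) ≤ 3 * (l + 1) := by
      rw [Real.log_mul (by norm_num) (by linarith)]
      have h4 : Real.log 16 ≤ 3 := by
        have h5 : (16 : ℝ) ≤ Real.exp 3 := by
          have h6 : Real.exp 3 = Real.exp 1 ^ 3 := by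
            rw [← Real.exp_nat_mul]; norm_num
          rw [h6]
          have h7 : (2.7182818283 : ℝ) < Real.exp 1 := Real.exp_one_gt_d9
          calc (16 : ℝ) ≤ 2.7182818283 ^ 3 := by norm_num
            _ ≤ Real.exp 1 ^ 3 := by gcongr
        calc Real.log 16 ≤ Real.log (Real.exp 3) := Real.log_le_log (by norm_num) h5
          _ = 3 := Real.log_exp 3
      linarith
    exact (Real.log_le_log (by linarith) h2).trans h3
  have hlog0 : 0 ≤ Real.log (7 * ((m : ℝ) + 1) + 2) := Real.log_nonneg (by linarith)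
  have e1 : (((T * M : ℕ) : ℝ) + 1) ≤ Real.exp (T * M) := by
    have := Real.add_one_le_exp ((T : ℝ) * M)
    push_cast
    linarith
  have e2 : ((T : ℝ) + 1) ≤ Real.exp T := Real.add_one_le_exp _
  have e3 : (7 * ((m : ℝ) + 1)) ≤ Real.exp (3 * (l + 1)) := by
    have h2 : 7 * ((m : ℝ) + 1) ≤ 7 * ((m : ℝ) + 1) + 2 := by linarith
    calc 7 * ((m : ℝ) + 1) ≤ 7 * ((m : ℝ) + 1) + 2 := h2
      _ = Real.exp (Real.log (7 * ((m : ℝ) + 1) + 2)) := (Real.exp_log (by linarith)).symm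
      _ ≤ Real.exp (3 * (l + 1)) := Real.exp_le_exp.2 hlog
  have e4 : Real.exp (c0 * (7 * ((m : ℝ) + 1)) * Real.log (7 * ((m : ℝ) + 1) + 2)) ≤
      Real.exp (42 * c0 * m * (l + 1)) := by
    rw [Real.exp_le_exp]
    have h2 : (7 * ((m : ℝ) + 1)) ≤ 14 * m := by linarith
    calc c0 * (7 * ((m : ℝ) + 1)) * Real.log (7 * ((m : ℝ) + 1) + 2) ≤
        c0 * (14 * m) * (3 * (l + 1)) := by gcongr
      _ = 42 * c0 * m * (l + 1) := by ring
  calc (((T * M : ℕ) : ℝ) + 1) * ((T : ℝ) + 1) * X * (7 * ((m : ℝ) + 1)) ^ (T * M) *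
      (Real.exp (c0 * (7 * ((m : ℝ) + 1)) * Real.log (7 * ((m : ℝ) + 1) + 2))) ^ T
      ≤ Real.exp (T * M) * Real.exp T * Real.exp (T * m * (4 + 2 * l)) *
        (Real.exp (3 * (l + 1))) ^ (T * M) * (Real.exp (42 * c0 * m * (l + 1))) ^ T := by
        gcongr
    _ = Real.exp (T * M + T + T * m * (4 + 2 * l) + (T * M) * (3 * (l + 1)) +
        T * (42 * c0 * m * (l + 1))) := by
        rw [← Real.exp_nat_mul, ← Real.exp_nat_mul, ← Real.exp_add, ← Real.exp_add,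
          ← Real.exp_add, ← Real.exp_add]
        push_cast
        rfl
    _ ≤ Real.exp ((11 + 42 * c0) * T * m * (l + 1)) := by
        rw [Real.exp_le_exp]
        have h2 : (T : ℝ) * M ≤ T * m := by gcongr
        have h3 : (T : ℝ) ≤ T * m := by nlinarith
        have h4 : (T : ℝ) * M * (3 * (l + 1)) ≤ T * m * (3 * (l + 1)) := by gcongr
        nlinarith [mul_nonneg (mul_nonneg (by linarith : (0 : ℝ) ≤ T) (by linarith : (0 : ℝ) ≤ m))
          hl0]

end ExtAux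

open ExtAux

theorem ext : ∃ C1 : ℝ, 1 ≤ C1 ∧ ∀ (N d T M M1 : ℕ) (H : ℝ) (S : Finset ℚ) (c : ℕ → ℕ → ℤ),
    1 ≤ N → 1 ≤ d → 1 ≤ T → 1 ≤ M → 1 ≤ H → H ≤ Real.exp M → (∀ r ∈ S, GB d N H r) →
    (∀ i j, |(c i j : ℝ)| ≤ bX (T * M) T M N H) →
    (∀ r ∈ S, ∀ m < M, Fx (T * M) T c ((r : ℂ) - m) = 0) →
    C1 * d * T * (Real.log (N * M1) + 1) ≤ S.card →
    ∀ r ∈ S, ∀ m < M1, Fx (T * M) T c ((r : ℂ) - m) = 0 := by
  obtain ⟨c0, hc0, hgr⟩ := growth
  refine ⟨24 + 42 * c0, by linarith, ?_⟩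
  intro N d T M M1 H S c hN hd hT hM hH hHM hS hc hF0 hcard
  have key : ∀ m, m < M1 → ∀ r ∈ S, Fx (T * M) T c ((r : ℂ) - m) = 0 := by
    intro m
    induction m using Nat.strong_induction_on with
    | _ m ih =>
      intro hm1 r hr
      by_cases hmM : m < M
      · exact hF0 r hr m hmM
      push Not at hmM
      by_contra hne
      have hm0 : 1 ≤ m := hM.trans hmM
      have hm1' : m + 1 ≤ M1 := hm1
      obtain ⟨hr0, hr1, -, -⟩ := hS r hr
      have hSr : ∀ r ∈ S, 0 < r ∧ r ≤ 1 := fun r hr => ⟨(hS r hr).1, (hS r hr).2.1⟩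
      have hTR : (1 : ℝ) ≤ T := by exact_mod_cast hT
      have hNR : (1 : ℝ) ≤ N := by exact_mod_cast hN
      have hdR : (1 : ℝ) ≤ d := by exact_mod_cast hd
      have hmR : (1 : ℝ) ≤ m := by exact_mod_cast hm0
      have hM1R : (m : ℝ) + 1 ≤ M1 := by exact_mod_cast hm1'
      set X := bX (T * M) T M N H with hX
      have hX1 : 1 ≤ X := bX_one_le _ _ _ _ _ hM hN hH
      have hXle := bX_le T M N m M1 H hT hM hN hmM hm1' hH hHM
      have hYle := bY_le T M N m M1 H hT hM hN hmM hm1' hH hHM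
      rw [← hX] at hXle hYle
      obtain ⟨l, hl⟩ : ∃ l : ℝ, l = Real.log (N * M1) := ⟨_, rfl⟩
      have hl0 : 0 ≤ l := by
        rw [hl]
        apply Real.log_nonneg
        nlinarith
      -- upper bound
      have hup : ‖Fx (T * M) T c ((r : ℂ) - m)‖ ≤
          Real.exp ((11 + 42 * c0) * T * m * (l + 1)) * Real.exp (-((S.card : ℝ) * m)) := by
        have hR1 : (1 : ℝ) ≤ 7 * ((m : ℝ) + 1) := by linarith
        have hcirc : ∀ w : ℂ, ‖w‖ = 7 * ((m : ℝ) + 1) → ‖Fx (T * M) T c w‖ ≤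
            Real.exp ((11 + 42 * c0) * T * m * (l + 1)) := by
          intro w hw
          have h2 := Fx_le (T * M) T c X (by linarith) hc (7 * ((m : ℝ) + 1))
            (Real.exp (c0 * (7 * ((m : ℝ) + 1)) * Real.log (7 * ((m : ℝ) + 1) + 2))) hR1
            (Real.one_le_exp (by
              have : 0 ≤ Real.log (7 * ((m : ℝ) + 1) + 2) := Real.log_nonneg (by linarith)
              positivity)) w hw.le (hgr _ hR1 w hw.le)
          refine h2.trans ?_
          rw [hl]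
          exact num c0 hc0 T M N m M1 hT hM hN hmM hm1' X (by linarith) hXle
        have hsch := schwarz (Fx_diff (T * M) T c) (Zs S m) (by
            intro ζ hζ
            obtain ⟨⟨r', k⟩, hp, rfl⟩ := mem_image.1 hζ
            rw [mem_product, mem_range] at hp
            exact ih k hp.2 (by omega) r' hp.1)
          (7 * ((m : ℝ) + 1)) _ (by
            intro ζ hζ
            obtain ⟨⟨r', k⟩, hp, rfl⟩ := mem_image.1 hζ
            rw [mem_product, mem_range] at hp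
            have := norm_sub_le (hSr r' hp.1).1 (hSr r' hp.1).2 hp.2.le hm0
            simp only
            linarith) hcirc ((r : ℂ) - m) (by
            have := norm_sub_le hr0 hr1 (le_refl m) hm0
            linarith)
        refine hsch.trans ?_
        have hprod : ∏ ζ ∈ Zs S m, (‖((r : ℂ) - m) - ζ‖ / (7 * ((m : ℝ) + 1) - ‖ζ‖)) ≤
            Real.exp (-((S.card : ℝ) * m)) := by
          have h3 : ∀ ζ ∈ Zs S m, ‖((r : ℂ) - m) - ζ‖ / (7 * ((m : ℝ) + 1) - ‖ζ‖) ≤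
              Real.exp (-1) := by
            intro ζ hζ
            obtain ⟨⟨r', k⟩, hp, rfl⟩ := mem_image.1 hζ
            rw [mem_product, mem_range] at hp
            have a1 := norm_sub_le (hSr r' hp.1).1 (hSr r' hp.1).2 hp.2.le hm0
            have a2 := norm_diff_le hr0 hr1 (hSr r' hp.1).1 (hSr r' hp.1).2 hp.2.le
            simp only
            rw [div_le_iff₀ (by linarith)]
            have a3 : (1 : ℝ) / 6 ≤ Real.exp (-1) := by
              rw [Real.exp_neg, ← one_div]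
              apply one_div_le_one_div_of_le (Real.exp_pos 1)
              have := Real.exp_one_lt_d9
              linarith
            have a4 : 6 * ((m : ℝ) + 1) ≤ 7 * ((m : ℝ) + 1) - ‖((r' : ℂ) - (k : ℂ))‖ := by linarith
            calc ‖((r : ℂ) - m) - ((r' : ℂ) - (k : ℂ))‖ ≤ (m : ℝ) + 1 := a2
              _ = (1 / 6) * (6 * ((m : ℝ) + 1)) := by ring
              _ ≤ Real.exp (-1) * (7 * ((m : ℝ) + 1) - ‖((r' : ℂ) - (k : ℂ))‖) := by
                gcongr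
          have h4 : ∀ ζ ∈ Zs S m, 0 ≤ ‖((r : ℂ) - m) - ζ‖ / (7 * ((m : ℝ) + 1) - ‖ζ‖) := by
            intro ζ hζ
            obtain ⟨⟨r', k⟩, hp, rfl⟩ := mem_image.1 hζ
            rw [mem_product, mem_range] at hp
            have a1 := norm_sub_le (hSr r' hp.1).1 (hSr r' hp.1).2 hp.2.le hm0
            simp only
            exact div_nonneg (norm_nonneg _) (by linarith)
          refine (prod_le_prod h4 h3).trans ?_
          rw [prod_const, Zs_card S m hSr, ← Real.exp_nat_mul]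
          push_cast
          rw [mul_neg_one]
        gcongr
      -- lower bound
      have hlow := auxB (T * M) T N d H X hH hN hd hX1 c hc r (hS r hr) m hne
      have hX0 : 0 ≤ X := by linarith
      have hY0 : 0 ≤ bY (T * M) T m N X H := by
        unfold bY
        positivity
      have hYd0 : 0 ≤ bY (T * M) T m N X H ^ d := pow_nonneg hY0 d
      have hYd : bY (T * M) T m N X H ^ d ≤ Real.exp (d * (T * m * (8 + 4 * l))) := by
        rw [Real.exp_nat_mul]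
        rw [← hl] at hYle
        gcongr
      have hfin : 1 ≤ Real.exp ((11 + 42 * c0) * T * m * (l + 1)) * Real.exp (-((S.card : ℝ) * m)) *
          Real.exp (d * (T * m * (8 + 4 * l))) := by
        refine hlow.trans ?_
        gcongr
      rw [← Real.exp_add, ← Real.exp_add, Real.one_le_exp_iff] at hfin
      rw [← hl] at hcard
      have h5 : (24 + 42 * c0) * d * T * (l + 1) * m ≤ S.card * m := by gcongr
      have h6 : (11 + 42 * c0) * T * m * (l + 1) ≤ (11 + 42 * c0) * d * T * m * (l + 1) := by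
        have : (11 + 42 * c0) * T * m * (l + 1) * 1 ≤ (11 + 42 * c0) * T * m * (l + 1) * d := by
          gcongr
        nlinarith
      have h7 : (d : ℝ) * (T * m * (8 + 4 * l)) ≤ 12 * (d * T * m * (l + 1)) := by
        have h8 : 0 ≤ (d : ℝ) * T * m := by positivity
        nlinarith [mul_nonneg h8 hl0]
      have h9 : 0 < (d : ℝ) * T * m * (l + 1) := by positivity
      nlinarith
  exact fun r hr m hm => key m hm r hr

end GQ
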