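import Mathlib
import Pool.Agent.Lib.GQ.Defs
import Pool.Agent.Lib.GQ.Shift
import Pool.Agent.Lib.GQ.Bnd

/-!
# The zero estimate by factorial growth

Let `M1 = 1000 (N T M)^2`, `a = r.num`, `b = r.den`, `β = (Γ r)⁻¹`, `P_m = ∏ k ∈ range m, (r - (k+1))`, `p_j = ∑_{i ≤ T M} c i j X^i`. Let `J ≤ T` be the largest index `≤ T` with `c i J ≠ 0` for some `i ≤ T M`.
For `M1 / 2 ≤ m < M1`: `|P_m| ≥ (m-1)! / N` (`|r - 1| ≥ 1/N` as `r < 1` has denominator `≤ N`; `|r - k| ≥ k - 1` for `k ≥ 2`), `β ≥ r ≥ 1/N` (`inv_Gamma_ge`), so `D = |β P_m| ≥ (m-1)!/N^2`.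
`F (r-m) = ∑_{j ≤ J} p_j(r-m) (β P_m)^j = 0`, `|p_j (r-m)| ≤ (T M + 1) X M1^(T M)`, `X = bX`. If `J = 0`: `p_0 (r-m) = 0`. If `J ≥ 1` and `D ≥ 1`: `|p_J (r-m)| ≤ ∑_{j<J} |p_j(r-m)| D^(j-J) ≤ T (T M + 1) X M1^(T M) / D`.
`b^(T M) p_J(r-m)` is an integer of absolute value `≤ N^(T M) T (T M + 1) X M1^(T M) N^2 / (m-1)! < 1`: with `l = log (N M1)`, the logarithm of the numerator is at most `(T M + 2) l + (T M + T) + log X + T M l` and
`X ≤ exp (T M (4 + 2 l) + ..)` (`bX_le` with `m = M`, `M + 1 ≤ M1`), together `≤ 14 T M (l + 1)`, `l ≤ 7 + 3 log (N T M) ≤ 7 + 3 N T M`, so `≤ 154 (N T M)^2`; and `(m-1)! ≥ exp (m - 1 - 3)`-type bound (`n! ≥ (n/e)^n ≥ e^n` for `n ≥ 8`,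
`Nat.factorial_lt`..., `Real.add_pow_le_pow_mul_pow_of_add_eq_one`..., or `exp n ≤ n!` for `n ≥ 6` by induction from `e^6 ≤ 6!`, `e ≤ n + 1`), `m - 1 ≥ 499 (N T M)^2 - 1`. So `D ≥ 1` and `p_J (r-m) = 0` for more than `T M` values of `m`: the polynomial `p_J` has more
roots than its degree, so all `c i J = 0` (`i ≤ T M`), contradiction.
-/

set_option autoImplicit false

open Finset

namespace GQ

namespace FacAux

theorem exp_le_factorial {n : ℕ} (hn : 6 ≤ n) : Real.exp n ≤ (n.factorial : ℝ) := by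
  induction n, hn using Nat.le_induction with
  | base =>
    have h1 : Real.exp (6 : ℕ) = Real.exp 1 ^ 6 := by
      rw [← Real.exp_nat_mul]; norm_num
    rw [h1]
    have h2 : Real.exp 1 < 2.7182818286 := Real.exp_one_lt_d9
    have h3 : Real.exp 1 ^ 6 ≤ 2.7182818286 ^ 6 := by
      gcongr
    refine h3.trans ?_
    have : (Nat.factorial 6 : ℝ) = 720 := by norm_num [Nat.factorial]
    rw [this]; norm_num
  | succ n hn ih =>
    rw [Nat.factorial_succ]
    push_cast
    rw [Real.exp_add]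
    have h2 : Real.exp 1 < 2.7182818286 := Real.exp_one_lt_d9
    have h3 : (6 : ℝ) ≤ n := by exact_mod_cast hn
    have h4 : 0 < Real.exp (n : ℝ) := Real.exp_pos _
    nlinarith

/-- the size of the product of the shifts -/
theorem prod_ge {r : ℝ} {N : ℕ} (h0 : 0 < r) (h1 : r < 1) (hN : 1 / (N : ℝ) ≤ 1 - r) (hN1 : 1 ≤ N)
    (m : ℕ) : (m.factorial : ℝ) / N ≤ |∏ k ∈ range (m + 1), (r - (k + 1))| := by
  induction m with
  | zero =>
    simp only [Nat.factorial_zero, Nat.cast_one, zero_add, range_one, prod_singleton,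
      Nat.cast_zero]
    rw [abs_of_nonpos (by linarith)]
    linarith
  | succ m ih =>
    rw [prod_range_succ, abs_mul, Nat.factorial_succ]
    have h2 : ((m : ℝ) + 1) ≤ |r - ((m + 1 : ℕ) + 1)| := by
      rw [abs_of_nonpos (by push_cast; linarith [(Nat.cast_nonneg m : (0 : ℝ) ≤ m)])]
      push_cast
      linarith
    have h3 : (0 : ℝ) ≤ (m.factorial : ℝ) / N := by positivity
    have h4 : (0 : ℝ) ≤ (m : ℝ) + 1 := by positivity
    calc (((m + 1) * m.factorial : ℕ) : ℝ) / N = ((m.factorial : ℝ) / N) * ((m : ℝ) + 1) := by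
          push_cast; ring
      _ ≤ |∏ k ∈ range (m + 1), (r - (k + 1))| * |r - ((m + 1 : ℕ) + 1)| := by gcongr

/-- the coefficient polynomial -/
noncomputable def pj (n : ℕ) (c : ℕ → ℤ) : Polynomial ℝ :=
  ∑ i ∈ range (n + 1), Polynomial.monomial i (c i : ℝ)

theorem pj_eval (n : ℕ) (c : ℕ → ℤ) (x : ℝ) :
    (pj n c).eval x = ∑ i ∈ range (n + 1), (c i : ℝ) * x ^ i := by
  unfold pj
  rw [Polynomial.eval_finsetSum]
  simp only [Polynomial.eval_monomial]

theorem pj_deg (n : ℕ) (c : ℕ → ℤ) : (pj n c).natDegree ≤ n := by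
  unfold pj
  refine Polynomial.natDegree_sum_le_of_forall_le _ _ fun i hi => ?_
  refine (Polynomial.natDegree_monomial_le _).trans ?_
  have := mem_range.1 hi
  omega

theorem pj_coeff (n : ℕ) (c : ℕ → ℤ) {i : ℕ} (hi : i ≤ n) : (pj n c).coeff i = c i := by
  unfold pj
  rw [Polynomial.finset_sum_coeff]
  simp only [Polynomial.coeff_monomial]
  rw [sum_ite_eq' (range (n + 1)) i]
  rw [if_pos (mem_range.2 (by omega))]

end FacAux

open FacAux

set_option maxRecDepth 100000 in
theorem fac_zero (N T M : ℕ) (H : ℝ) (hN : 1 ≤ N) (hT : 1 ≤ T) (hM : 1 ≤ M) (hH : 1 ≤ H)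
    (hHM : H ≤ Real.exp M) (c : ℕ → ℕ → ℤ) (hc0 : ∃ i ≤ T * M, ∃ j ≤ T, c i j ≠ 0)
    (hc : ∀ i j, |(c i j : ℝ)| ≤ bX (T * M) T M N H) (r : ℚ) (h0 : 0 < r) (h1 : r < 1)
    (hr : r.den ≤ N)
    (hF : ∀ m < 1000 * (N * T * M) ^ 2, Fx (T * M) T c ((r : ℂ) - m) = 0) : False := by
  classical
  -- real numbers
  set x : ℝ := (r : ℝ) with hx
  have hx0 : 0 < x := by rw [hx]; exact_mod_cast h0
  have hx1 : x < 1 := by rw [hx]; exact_mod_cast h1
  have hb1 : 1 ≤ r.den := r.den_pos
  have hbpos : (0 : ℝ) < r.den := by exact_mod_cast r.den_pos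
  have hNpos : (0 : ℝ) < N := by exact_mod_cast hN
  have hbN : (r.den : ℝ) ≤ N := by exact_mod_cast hr
  have hxab : x * r.den = r.num := by
    rw [hx]
    exact_mod_cast Rat.mul_den_eq_num r
  have hinvN : 1 / (N : ℝ) ≤ 1 / (r.den : ℝ) := one_div_le_one_div_of_le hbpos hbN
  have hxge : 1 / (N : ℝ) ≤ x := by
    refine hinvN.trans ?_
    rw [div_le_iff₀ hbpos, hxab]
    have : 1 ≤ r.num := by
      have := Rat.num_pos.2 h0
      omega
    exact_mod_cast this
  have hx1N : 1 / (N : ℝ) ≤ 1 - x := by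
    refine hinvN.trans ?_
    rw [div_le_iff₀ hbpos, sub_mul, one_mul, hxab]
    have h2 : r.num < r.den := by
      have h3 : (r.num : ℝ) < (r.den : ℝ) := by
        rw [← hxab]
        nlinarith
      exact_mod_cast h3
    have : r.num + 1 ≤ r.den := h2
    have h3 : ((r.num + 1 : ℤ) : ℝ) ≤ (r.den : ℝ) := by exact_mod_cast this
    push_cast at h3
    linarith
  set β : ℝ := (Real.Gamma x)⁻¹ with hβ
  have hβN : 1 / (N : ℝ) ≤ β := hxge.trans (inv_Gamma_ge hx0 hx1.le)
  have hβ0 : 0 < β := lt_of_lt_of_le (by positivity) hβN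
  obtain ⟨X, hX⟩ : ∃ X : ℝ, X = bX (T * M) T M N H := ⟨_, rfl⟩
  rw [← hX] at hc
  have hX1 : 1 ≤ X := by rw [hX]; exact bX_one_le _ _ _ _ _ hM hN hH
  -- the largest `J`
  obtain ⟨J, hJT, hJ, hJmax⟩ : ∃ J ≤ T, (∃ i ≤ T * M, c i J ≠ 0) ∧
      ∀ j, J < j → j ≤ T → ∀ i ≤ T * M, c i j = 0 := by
    have hex : ∃ j ≤ T, ∃ i ≤ T * M, c i j ≠ 0 := by
      obtain ⟨i, hi, j, hj, h⟩ := hc0
      exact ⟨j, hj, i, hi, h⟩
    set S := (range (T + 1)).filter (fun j => ∃ i ≤ T * M, c i j ≠ 0) with hS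
    have hSne : S.Nonempty := by
      obtain ⟨j, hj, h⟩ := hex
      exact ⟨j, mem_filter.2 ⟨mem_range.2 (by omega), h⟩⟩
    refine ⟨S.max' hSne, ?_, ?_, ?_⟩
    · have := (mem_filter.1 (S.max'_mem hSne)).1
      have := mem_range.1 this
      omega
    · exact (mem_filter.1 (S.max'_mem hSne)).2
    · intro j hj hjT i hi
      by_contra hne
      have hjS : j ∈ S := mem_filter.2 ⟨mem_range.2 (by omega), i, hi, hne⟩
      have := S.le_max' j hjS
      omega
  obtain ⟨M1, hM1⟩ : ∃ M1 : ℕ, M1 = 1000 * (N * T * M) ^ 2 := ⟨_, rfl⟩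
  rw [← hM1] at hF
  obtain ⟨A, hA⟩ : ∃ A : ℕ, A = N * T * M := ⟨_, rfl⟩
  rw [← hA] at hM1
  have hA1 : 1 ≤ A := by
    rw [hA]
    exact Nat.one_le_iff_ne_zero.2 (by positivity)
  have hTMA : T * M ≤ A := by
    rw [hA, mul_assoc]
    exact Nat.le_mul_of_pos_left _ hN
  have hA2 : A ≤ A ^ 2 := Nat.le_self_pow (by norm_num) A
  -- the main claim
  have key : ∀ m, 500 * A ^ 2 ≤ m → m < M1 → (pj (T * M) (fun i => c i J)).eval (x - m) = 0 := by
    intro m hm1 hm2
    have hmA : 500 ≤ m := by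
      have : 1 ≤ A ^ 2 := Nat.one_le_pow _ _ hA1
      omega
    obtain ⟨n, rfl⟩ : ∃ n, m = n + 1 := ⟨m - 1, by omega⟩
    set Pm : ℝ := ∏ k ∈ range (n + 1), (x - (k + 1)) with hPm
    set y : ℝ := β * Pm with hy
    have hPge : (n.factorial : ℝ) / N ≤ |Pm| := prod_ge hx0 hx1 hx1N hN n
    have hyge : (n.factorial : ℝ) / N ^ 2 ≤ |y| := by
      rw [hy, abs_mul, abs_of_pos hβ0]
      calc (n.factorial : ℝ) / N ^ 2 = (1 / N) * ((n.factorial : ℝ) / N) := by
            field_simp
        _ ≤ β * |Pm| := by gcongr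
    have hfac : Real.exp (499 * (A : ℝ) ^ 2) ≤ (n.factorial : ℝ) := by
      refine le_trans ?_ (exp_le_factorial (n := n) (by omega))
      rw [Real.exp_le_exp]
      have h2 : 500 * A ^ 2 ≤ n + 1 := hm1
      have h3 : (500 * (A : ℝ) ^ 2) ≤ n + 1 := by exact_mod_cast h2
      have h4 : (1 : ℝ) ≤ (A : ℝ) ^ 2 := by exact_mod_cast Nat.one_le_pow 2 A hA1
      linarith
    -- the equation
    have hreal : ∑ j ∈ range (T + 1), (pj (T * M) (fun i => c i j)).eval (x - (n + 1 : ℕ)) *
        y ^ j = 0 := by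
      have h2 := hF (n + 1) hm2
      unfold Fx at h2
      have h3 : Gi ((r : ℂ) - ((n + 1 : ℕ) : ℂ)) = ((y : ℝ) : ℂ) := by
        rw [shift]
        have h4 : Gi (r : ℂ) = ((β : ℝ) : ℂ) := by
          have := Gi_real x
          rw [hx] at this
          push_cast at this
          rw [hβ, hx]
          push_cast
          exact this
        rw [h4, hy, hPm, hx]
        push_cast
        rfl
      rw [h3] at h2
      have h5 : ((∑ j ∈ range (T + 1), (pj (T * M) (fun i => c i j)).eval (x - (n + 1 : ℕ)) *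
          y ^ j : ℝ) : ℂ) = 0 := by
        rw [← h2, sum_comm]
        push_cast
        refine sum_congr rfl fun j _ => ?_
        rw [pj_eval]
        push_cast
        rw [sum_mul]
        refine sum_congr rfl fun i _ => ?_
        rw [hx]
        push_cast
        rfl
      exact_mod_cast h5
    have hJsum : ∑ j ∈ range (J + 1), (pj (T * M) (fun i => c i j)).eval (x - (n + 1 : ℕ)) *
        y ^ j = 0 := by
      rw [← hreal]
      refine sum_subset (fun a ha => ?_) fun j hj hj' => ?_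
      · rw [mem_range] at *
        omega
      · rw [mem_range] at *
        rw [pj_eval]
        have : ∀ i ∈ range (T * M + 1), ((c i j : ℤ) : ℝ) * (x - (n + 1 : ℕ)) ^ i = 0 := by
          intro i hi
          rw [hJmax j (by omega) (by omega) i (by have := mem_range.1 hi; omega)]
          simp
        rw [sum_eq_zero this, zero_mul]
    rw [sum_range_succ] at hJsum
    set pJ := (pj (T * M) (fun i => c i J)).eval (x - (n + 1 : ℕ)) with hpJ
    -- bound of the values
    have hbase : |x - (n + 1 : ℕ)| ≤ M1 := by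
      have h2 : ((n + 1 : ℕ) : ℝ) ≤ M1 := by exact_mod_cast hm2.le
      have h3 : (1 : ℝ) ≤ M1 := by
        have : 1 ≤ M1 := by omega
        exact_mod_cast this
      have h4 : (0 : ℝ) ≤ ((n + 1 : ℕ) : ℝ) := by positivity
      rw [abs_le]
      constructor <;> linarith
    have hM1R : (1 : ℝ) ≤ M1 := by
      have : 1 ≤ M1 := by omega
      exact_mod_cast this
    have hval : ∀ j, |(pj (T * M) (fun i => c i j)).eval (x - (n + 1 : ℕ))| ≤
        (T * M + 1) * X * (M1 : ℝ) ^ (T * M) := by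
      intro j
      rw [pj_eval]
      refine (abs_sum_le_sum_abs _ _).trans ?_
      have h2 : ∀ i ∈ range (T * M + 1), |((c i j : ℤ) : ℝ) * (x - (n + 1 : ℕ)) ^ i| ≤
          X * (M1 : ℝ) ^ (T * M) := by
        intro i hi
        rw [abs_mul, abs_pow]
        have h3 : |x - (n + 1 : ℕ)| ^ i ≤ (M1 : ℝ) ^ (T * M) := by
          calc |x - (n + 1 : ℕ)| ^ i ≤ (M1 : ℝ) ^ i := by gcongr
            _ ≤ (M1 : ℝ) ^ (T * M) := by
              apply pow_le_pow_right₀ hM1R
              have := mem_range.1 hi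
              omega
        exact mul_le_mul (hc i j) h3 (by positivity) (by linarith)
      refine (sum_le_sum h2).trans ?_
      rw [sum_const, card_range, nsmul_eq_mul]
      push_cast
      rw [mul_assoc]
    -- smallness
    obtain ⟨Q, hQ⟩ : ∃ Q : ℝ, Q = (T : ℝ) * ((T * M + 1) * X * (M1 : ℝ) ^ (T * M)) := ⟨_, rfl⟩
    have hQ0 : 0 ≤ Q := by rw [hQ]; positivity
    have hnum : Q * (N : ℝ) ^ (T * M + 2) < (n.factorial : ℝ) := by
      refine lt_of_lt_of_le ?_ hfac
      have hl0 : (0 : ℝ) ≤ Real.log (N * M1) := by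
        apply Real.log_nonneg
        have : (1 : ℝ) ≤ N := by exact_mod_cast hN
        nlinarith
      obtain ⟨l, hl⟩ : ∃ l : ℝ, l = Real.log (N * M1) := ⟨_, rfl⟩
      rw [← hl] at hl0
      have hNl : (N : ℝ) ≤ Real.exp l := by
        rw [hl, Real.exp_log (by positivity)]
        nlinarith
      have hM1l : (M1 : ℝ) ≤ Real.exp l := by
        rw [hl, Real.exp_log (by positivity)]
        have : (1 : ℝ) ≤ N := by exact_mod_cast hN
        nlinarith
      have hXb : X ≤ Real.exp (T * M * (4 + 2 * l)) := by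
        have hMM1 : M + 1 ≤ M1 := by
          have h2 : M ≤ A := by
            refine le_trans ?_ hTMA
            exact Nat.le_mul_of_pos_left _ hT
          have : 1 ≤ A ^ 2 := Nat.one_le_pow _ _ hA1
          omega
        rw [hX, hl]
        exact bX_le T M N M M1 H hT hM hN le_rfl hMM1 hH hHM
      have hT1 : (T : ℝ) ≤ Real.exp T := by
        have := Real.add_one_le_exp (T : ℝ)
        linarith
      have hTM1 : ((T : ℝ) * M + 1) ≤ Real.exp (T * M) := by
        have := Real.add_one_le_exp ((T : ℝ) * M)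
        linarith
      have hTR : (1 : ℝ) ≤ T := by exact_mod_cast hT
      have hMR : (1 : ℝ) ≤ M := by exact_mod_cast hM
      have hTMR : (1 : ℝ) ≤ (T : ℝ) * M := by nlinarith
      have e1 : Q * (N : ℝ) ^ (T * M + 2) ≤ Real.exp T * ((Real.exp (T * M) *
          Real.exp (T * M * (4 + 2 * l)) * (Real.exp l) ^ (T * M))) * (Real.exp l) ^ (T * M + 2) := by
        rw [hQ]
        gcongr
      refine lt_of_le_of_lt e1 ?_
      rw [← Real.exp_nat_mul, ← Real.exp_nat_mul, ← Real.exp_add, ← Real.exp_add, ← Real.exp_add,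
        ← Real.exp_add, Real.exp_lt_exp]
      push_cast
      -- l ≤ 7 + 3 A
      have hlA : l ≤ 7 + 3 * A := by
        have hAR : (1 : ℝ) ≤ A := by exact_mod_cast hA1
        have hNA : (N : ℝ) ≤ A := by
          have : N ≤ A := by
            rw [hA, mul_assoc]
            exact Nat.le_mul_of_pos_right _ (by positivity)
          exact_mod_cast this
        have h2 : (N : ℝ) * M1 ≤ 1000 * (A : ℝ) ^ 3 := by
          have h3 : (M1 : ℝ) = 1000 * (A : ℝ) ^ 2 := by
            rw [hM1]; push_cast; ring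
          rw [h3]
          have : (N : ℝ) * (1000 * (A : ℝ) ^ 2) ≤ A * (1000 * (A : ℝ) ^ 2) := by gcongr
          nlinarith
        have h3 : Real.log (1000 * (A : ℝ) ^ 3) ≤ 7 + 3 * A := by
          rw [Real.log_mul (by norm_num) (by positivity), Real.log_pow]
          have h4 : Real.log 1000 ≤ 7 := by
            have h5 : (1000 : ℝ) ≤ Real.exp 7 := by
              have h6 : Real.exp 7 = Real.exp 1 ^ 7 := by
                rw [← Real.exp_nat_mul]; norm_num
              rw [h6]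
              have h7 : (2.7182818283 : ℝ) < Real.exp 1 := Real.exp_one_gt_d9
              calc (1000 : ℝ) ≤ 2.7182818283 ^ 7 := by norm_num
                _ ≤ Real.exp 1 ^ 7 := by gcongr
            calc Real.log 1000 ≤ Real.log (Real.exp 7) := Real.log_le_log (by norm_num) h5
              _ = 7 := Real.log_exp 7
          have h5 : Real.log (A : ℝ) ≤ A := (Real.log_le_sub_one_of_pos (by linarith)).trans (by linarith)
          push_cast
          linarith
        calc l = Real.log (N * M1) := hl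
          _ ≤ Real.log (1000 * (A : ℝ) ^ 3) := Real.log_le_log (by positivity) h2
          _ ≤ 7 + 3 * A := h3
      have hTMAR : (T : ℝ) * M ≤ A := by exact_mod_cast hTMA
      have hAR : (1 : ℝ) ≤ A := by exact_mod_cast hA1
      have hTle : (T : ℝ) ≤ T * M := by nlinarith
      -- total exponent ≤ 14 (T M) (l + 1)
      have e2 : (T : ℝ) + ((T : ℝ) * M + T * M * (4 + 2 * l) + T * M * l) + (T * M + 2) * l ≤
          14 * (T * M) * (l + 1) := by nlinarith
      have e3 : 14 * ((T : ℝ) * M) * (l + 1) ≤ 14 * A * (8 + 3 * A) := by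
        have h2 : l + 1 ≤ 8 + 3 * A := by linarith
        have h3 : 0 ≤ l + 1 := by linarith
        calc 14 * ((T : ℝ) * M) * (l + 1) ≤ 14 * (A : ℝ) * (l + 1) := by gcongr
          _ ≤ 14 * (A : ℝ) * (8 + 3 * A) := by gcongr
      have e4 : 14 * (A : ℝ) * (8 + 3 * A) < 499 * (A : ℝ) ^ 2 := by nlinarith
      linarith
    have hNpow : (1 : ℝ) ≤ (N : ℝ) ^ (T * M) := one_le_pow₀ (by exact_mod_cast hN)
    by_contra hne
    -- the integer
    have hint : ∃ z : ℤ, (z : ℝ) = (r.den : ℝ) ^ (T * M) * pJ := by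
      refine ⟨∑ i ∈ range (T * M + 1), c i J * ((r.den : ℤ) ^ (T * M - i) *
        (r.num - (n + 1 : ℕ) * r.den) ^ i), ?_⟩
      rw [hpJ, pj_eval, mul_sum]
      push_cast
      refine sum_congr rfl fun i hi => ?_
      have hi' : i ≤ T * M := by have := mem_range.1 hi; omega
      have h2 : ((r.num : ℝ) - (n + 1) * r.den) = r.den * (x - (n + 1)) := by
        rw [← hxab]; ring
      rw [h2, mul_pow]
      have h3 : (r.den : ℝ) ^ (T * M) = (r.den : ℝ) ^ (T * M - i) * (r.den : ℝ) ^ i := by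
        rw [← pow_add]
        congr 1
        omega
      rw [h3]
      ring
    obtain ⟨z, hz⟩ := hint
    have hz0 : z ≠ 0 := by
      rintro rfl
      rw [Int.cast_zero] at hz
      rcases mul_eq_zero.1 hz.symm with h2 | h2
      · exact absurd h2 (by positivity)
      · exact hne h2
    have hz1 : (1 : ℝ) ≤ |(z : ℝ)| := by
      have := Int.one_le_abs hz0
      exact_mod_cast this
    have hpow : (r.den : ℝ) ^ (T * M) ≤ (N : ℝ) ^ (T * M) := by gcongr
    have hpJge : 1 ≤ (N : ℝ) ^ (T * M) * |pJ| := by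
      rw [hz, abs_mul, abs_of_pos (by positivity)] at hz1
      exact hz1.trans (by gcongr)
    -- upper bound
    have hy1 : 1 ≤ |y| := by
      refine le_trans ?_ hyge
      rw [le_div_iff₀ (by positivity), one_mul]
      have hTMM : (1 : ℝ) ≤ Q := by
        rw [hQ]
        have hTR : (1 : ℝ) ≤ T := by exact_mod_cast hT
        have hMR : (0 : ℝ) ≤ M := by positivity
        have h2 : (1 : ℝ) ≤ (T : ℝ) * M + 1 := by nlinarith
        have h3 : (1 : ℝ) ≤ (M1 : ℝ) ^ (T * M) := one_le_pow₀ hM1R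
        have h4 : (1 : ℝ) ≤ ((T : ℝ) * M + 1) * X := by nlinarith
        have h5 : (1 : ℝ) ≤ ((T : ℝ) * M + 1) * X * (M1 : ℝ) ^ (T * M) := by nlinarith
        nlinarith
      have h2 : (N : ℝ) ^ 2 ≤ (N : ℝ) ^ (T * M + 2) := by
        apply pow_le_pow_right₀ (by exact_mod_cast hN)
        omega
      nlinarith [hnum.le, pow_nonneg hNpos.le (T * M + 2)]
    have hlow : |∑ j ∈ range J, (pj (T * M) (fun i => c i j)).eval (x - (n + 1 : ℕ)) * y ^ j| ≤
        Q * |y| ^ (J - 1) := by
      refine (abs_sum_le_sum_abs _ _).trans ?_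
      have h2 : ∀ j ∈ range J, |(pj (T * M) (fun i => c i j)).eval (x - (n + 1 : ℕ)) * y ^ j| ≤
          ((T * M + 1) * X * (M1 : ℝ) ^ (T * M)) * |y| ^ (J - 1) := by
        intro j hj
        rw [abs_mul, abs_pow]
        have hj' := mem_range.1 hj
        have h3 : |y| ^ j ≤ |y| ^ (J - 1) := pow_le_pow_right₀ hy1 (by omega)
        exact mul_le_mul (hval j) h3 (by positivity) (by positivity)
      refine (sum_le_sum h2).trans ?_
      rw [sum_const, card_range, nsmul_eq_mul, ← mul_assoc]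
      have hJR : (J : ℝ) ≤ T := by exact_mod_cast hJT
      rw [hQ]
      gcongr
    have heq : pJ * y ^ J = -∑ j ∈ range J, (pj (T * M) (fun i => c i j)).eval (x - (n + 1 : ℕ)) *
        y ^ j := by linarith
    have habs : |pJ| * |y| ^ J ≤ Q * |y| ^ (J - 1) := by
      rw [← abs_pow, ← abs_mul, heq, abs_neg]
      exact hlow
    rcases Nat.eq_zero_or_pos J with hJ0 | hJ0
    · subst hJ0
      simp only [pow_zero, mul_one, range_zero, sum_empty, neg_zero] at heq
      exact hne heq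
    · obtain ⟨J', rfl⟩ : ∃ J', J = J' + 1 := ⟨J - 1, by omega⟩
      rw [Nat.add_sub_cancel, pow_succ, ← mul_assoc, mul_right_comm] at habs
      have hypos : 0 < |y| ^ J' := by positivity
      have h2 : |pJ| * |y| ≤ Q := le_of_mul_le_mul_right habs hypos
      have h3 : (n.factorial : ℝ) ≤ |y| * N ^ 2 := by
        rw [div_le_iff₀ (by positivity)] at hyge
        exact hyge
      have h4 : (n.factorial : ℝ) ≤ Q * (N : ℝ) ^ (T * M + 2) := by
        calc (n.factorial : ℝ) ≤ |y| * N ^ 2 := h3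
          _ = (|y| * N ^ 2) * 1 := by ring
          _ ≤ (|y| * N ^ 2) * ((N : ℝ) ^ (T * M) * |pJ|) := by gcongr
          _ = (|pJ| * |y|) * (N : ℝ) ^ (T * M + 2) := by rw [pow_add]; ring
          _ ≤ Q * (N : ℝ) ^ (T * M + 2) := by gcongr
      linarith
  -- the polynomial vanishes
  have hp0 : pj (T * M) (fun i => c i J) = 0 := by
    set Z : Finset ℝ := (Finset.Ico (500 * A ^ 2) M1).image (fun m : ℕ => x - m) with hZ
    refine Polynomial.eq_zero_of_natDegree_lt_card_of_eval_eq_zero' _ Z ?_ ?_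
    · intro t ht
      obtain ⟨m, hm, rfl⟩ := mem_image.1 ht
      rw [Finset.mem_Ico] at hm
      exact key m hm.1 hm.2
    · have hcard : Z.card = M1 - 500 * A ^ 2 := by
        rw [hZ, card_image_of_injective, Nat.card_Ico]
        intro m n hmn
        have : (m : ℝ) = n := by
          simp only at hmn
          linarith
        exact_mod_cast this
      rw [hcard]
      refine lt_of_le_of_lt (pj_deg _ _) ?_
      omega
  obtain ⟨i, hi, hne⟩ := hJ
  apply hne
  have h2 := pj_coeff (T * M) (fun i => c i J) hi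
  rw [hp0, Polynomial.coeff_zero] at h2
  exact_mod_cast h2.symm

end GQ
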