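import Mathlib
import Pool.Agent.Lib.GQ.Defs
import Pool.Agent.Lib.GQ.Shift
import Pool.Agent.Lib.GQ.AuxA
import Pool.Agent.Lib.GQ.Ext
import Pool.Agent.Lib.GQ.Fac

/-!
# Part (1)

If `N < d` the number of the `r` is at most `(N + 1) ^ 2 ≤ d ^ 2`. Otherwise `M = ⌈log H⌉₊`, `T = ⌈C2 d^2 (log (N M) + 1)⌉₊`, `K = T^2 / (2 d)` (division of natural numbers), `M1 = 1000 (N T M)^2`.
If the set has at least `K` elements take `S` with `K` elements; `auxA`, `ext`, `fac_zero` give a contradiction (`K ≥ 2` so some `r < 1` in `S`).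
-/

set_option autoImplicit false

open Finset

namespace GQ

namespace CntAux

/-- the fractions of denominator at most `N` in the unit interval -/
noncomputable def Fr (N : ℕ) : Finset ℚ :=
  ((range (N + 1)) ×ˢ (range (N + 1))).image (fun p : ℕ × ℕ => (p.1 : ℚ) / (p.2 : ℚ))

theorem Fr_card (N : ℕ) : (Fr N).card ≤ (N + 1) ^ 2 := by
  unfold Fr
  refine card_image_le.trans ?_
  rw [card_product, card_range, sq]

theorem mem_Fr {N : ℕ} {r : ℚ} (h0 : 0 < r) (h1 : r ≤ 1) (hN : r.den ≤ N) : r ∈ Fr N := by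
  unfold Fr
  rw [mem_image]
  refine ⟨(r.num.toNat, r.den), ?_, ?_⟩
  · rw [mem_product, mem_range, mem_range]
    have h2 : r.num ≤ r.den := by
      have h3 : (r.num : ℚ) ≤ (r.den : ℚ) := by
        have h4 := Rat.mul_den_eq_num r
        have h5 : (0 : ℚ) < r.den := by exact_mod_cast r.den_pos
        nlinarith
      exact_mod_cast h3
    refine ⟨?_, ?_⟩
    · show r.num.toNat < N + 1
      omega
    · show r.den < N + 1
      omega
  · have h3 : (0 : ℤ) ≤ r.num := (Rat.num_pos.2 h0).le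
    have h4 : ((r.num.toNat : ℕ) : ℚ) = ((r.num : ℤ) : ℚ) := by
      have : ((r.num.toNat : ℕ) : ℤ) = r.num := Int.toNat_of_nonneg h3
      exact_mod_cast this
    simp only
    rw [h4]
    exact Rat.num_div_den r

theorem num1 (C1 N M d T L : ℝ) (hC : 1 ≤ C1) (hN : 2 ≤ N) (hM : 1 ≤ M) (hd : 1 ≤ d)
    (hdN : d ≤ N) (hL : L = Real.log (N * M) + 1)
    (hT : (144 * C1 ^ 2 - 1) * d ^ 2 * L ≤ T) (hT1 : T ≤ (144 * C1 ^ 2 - 1) * d ^ 2 * L + 1) :
    C1 * d * T * (Real.log (N * (1000 * (N * T * M) ^ 2)) + 1) ≤ T ^ 2 / (2 * d) - 1 ∧ 1 ≤ L ∧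
      T ≤ 144 * C1 ^ 2 * d ^ 2 * L ∧ 1 ≤ T := by
  have hNM : 1 ≤ N * M := by nlinarith
  have hL1 : 1 ≤ L := by
    rw [hL]
    have := Real.log_nonneg hNM
    linarith
  have hdL : 1 ≤ d ^ 2 * L := by nlinarith
  have hC2 : 1 ≤ C1 ^ 2 := by nlinarith
  have hTle : T ≤ 144 * C1 ^ 2 * d ^ 2 * L := by nlinarith
  have hT1' : 1 ≤ T := by nlinarith [mul_nonneg (by linarith : (0 : ℝ) ≤ C1 ^ 2 - 1) (by linarith : (0 : ℝ) ≤ d ^ 2 * L)]
  refine ⟨?_, hL1, hTle, hT1'⟩
  have hlogN : 0 ≤ Real.log N := Real.log_nonneg (by linarith)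
  have hlogM : 0 ≤ Real.log M := Real.log_nonneg hM
  have hLe : L = Real.log N + Real.log M + 1 := by
    rw [hL, Real.log_mul (by linarith) (by linarith)]
  have h1000 : Real.log 1000 ≤ 7 := by
    have h2 : (1000 : ℝ) ≤ Real.exp 7 := by
      have h3 : (2.7182818283 : ℝ) < Real.exp 1 := Real.exp_one_gt_d9
      have h4 : Real.exp 7 = Real.exp 1 ^ 7 := by
        rw [← Real.exp_nat_mul]
        norm_num
      rw [h4]
      have h5 : (2.7 : ℝ) ^ 7 ≤ Real.exp 1 ^ 7 := by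
        gcongr
        linarith
      have h6 : (1000 : ℝ) ≤ (2.7 : ℝ) ^ 7 := by norm_num
      linarith
    rw [Real.log_le_iff_le_exp (by norm_num)]
    exact h2
  have hT0 : 0 < T := by linarith
  have hlogT : Real.log T ≤ 24 * C1 + 3 * L := by
    have hCp : 0 < 144 * C1 ^ 2 := by linarith
    have hdp : 0 < d ^ 2 := by positivity
    have h2 : Real.log T ≤ Real.log (144 * C1 ^ 2 * d ^ 2 * L) := Real.log_le_log hT0 hTle
    rw [Real.log_mul (by positivity) (by linarith), Real.log_mul (by positivity) (by positivity),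
      Real.log_pow] at h2
    have h3 : Real.log (144 * C1 ^ 2) = 2 * Real.log (12 * C1) := by
      rw [show 144 * C1 ^ 2 = (12 * C1) ^ 2 by ring, Real.log_pow]
      norm_num
    have h4 : Real.log (12 * C1) ≤ 12 * C1 := (Real.log_le_sub_one_of_pos (by linarith)).trans
      (by linarith)
    have h5 : Real.log d ≤ Real.log N := Real.log_le_log (by linarith) hdN
    have h6 : Real.log L ≤ L - 1 := Real.log_le_sub_one_of_pos (by linarith)
    push_cast at h2
    linarith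
  have hexp : Real.log (N * (1000 * (N * T * M) ^ 2)) + 1 =
      3 * Real.log N + Real.log 1000 + 2 * Real.log T + 2 * Real.log M + 1 := by
    rw [Real.log_mul (by linarith) (by positivity), Real.log_mul (by norm_num) (by positivity),
      Real.log_pow, Real.log_mul (by positivity) (by positivity),
      Real.log_mul (by positivity) (by positivity)]
    push_cast
    ring
  have hb : Real.log (N * (1000 * (N * T * M) ^ 2)) + 1 ≤ (14 + 48 * C1) * L := by
    rw [hexp]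
    have h2 : 3 * Real.log N + Real.log 1000 + 2 * Real.log T + 2 * Real.log M + 1 ≤
        3 * (L - 1) + 8 + 2 * (24 * C1 + 3 * L) := by linarith
    refine h2.trans ?_
    nlinarith [mul_nonneg (by linarith : (0 : ℝ) ≤ C1) (by linarith : (0 : ℝ) ≤ L - 1)]
  have h2 : C1 * d * T * (Real.log (N * (1000 * (N * T * M) ^ 2)) + 1) ≤
      C1 * d * T * ((14 + 48 * C1) * L) := by
    gcongr
  refine h2.trans ?_
  rw [le_sub_iff_add_le, le_div_iff₀ (by linarith)]
  have h3 : (1 : ℝ) ≤ d * T * L := by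
    have h4 : 1 ≤ d * T := by nlinarith
    nlinarith
  have h5 : T * ((144 * C1 ^ 2 - 1) * d ^ 2 * L) ≤ T ^ 2 := by
    rw [sq T]
    exact mul_le_mul_of_nonneg_left hT (by linarith)
  refine le_trans ?_ h5
  have h6 : (C1 * d * T * ((14 + 48 * C1) * L) + 1) * (2 * d) ≤
      (C1 * d * T * ((14 + 48 * C1) * L) + d * T * L) * (2 * d) :=
    mul_le_mul_of_nonneg_right (by linarith) (by linarith)
  refine h6.trans ?_
  have h7 : (C1 * d * T * ((14 + 48 * C1) * L) + d * T * L) * (2 * d) =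
      (2 * C1 * (14 + 48 * C1) + 2) * (d ^ 2 * T * L) := by ring
  have h8 : T * ((144 * C1 ^ 2 - 1) * d ^ 2 * L) = (144 * C1 ^ 2 - 1) * (d ^ 2 * T * L) := by ring
  rw [h7, h8]
  have h9 : 0 ≤ d ^ 2 * T * L := by positivity
  have h10 : 2 * C1 * (14 + 48 * C1) + 2 ≤ 144 * C1 ^ 2 - 1 := by nlinarith
  exact mul_le_mul_of_nonneg_right h10 h9

theorem log_three : (1 : ℝ) < Real.log 3 := by
  rw [Real.lt_log_iff_exp_lt (by norm_num)]
  have := Real.exp_one_lt_d9
  linarith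

end CntAux

open CntAux

theorem main1 : ∃ C : ℝ, ∀ (N d : ℕ) (H : ℝ), 2 ≤ N → 1 ≤ d → 3 ≤ H →
    {r : ℚ | 0 < r ∧ r ≤ 1 ∧ r.den ≤ N ∧ AV d H (Real.Gamma (r : ℝ))}.Finite ∧
    ({r : ℚ | 0 < r ∧ r ≤ 1 ∧ r.den ≤ N ∧ AV d H (Real.Gamma (r : ℝ))}.ncard : ℝ) ≤
      C * d ^ 3 * (Real.log N + Real.log (Real.log H)) ^ 2 := by
  obtain ⟨C1, hC1, hext⟩ := ext
  refine ⟨8 * (144 * C1 ^ 2) ^ 2, ?_⟩
  intro N d H hN hd hH
  set A := {r : ℚ | 0 < r ∧ r ≤ 1 ∧ r.den ≤ N ∧ AV d H (Real.Gamma (r : ℝ))} with hA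
  have hsub : A ⊆ (Fr N : Set ℚ) := by
    intro r hr
    exact mem_coe.2 (mem_Fr hr.1 hr.2.1 hr.2.2.1)
  have hfin : A.Finite := (Fr N).finite_toSet.subset hsub
  refine ⟨hfin, ?_⟩
  have hcrude : A.ncard ≤ (N + 1) ^ 2 := by
    have h2 := Set.ncard_le_ncard hsub (Fr N).finite_toSet
    rw [Set.ncard_coe_finset] at h2
    exact h2.trans (Fr_card N)
  have hNR : (2 : ℝ) ≤ N := by exact_mod_cast hN
  have hdR : (1 : ℝ) ≤ d := by exact_mod_cast hd
  have hl2 : (0.6931471803 : ℝ) < Real.log 2 := Real.log_two_gt_d9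
  have hlogN : Real.log 2 ≤ Real.log N := Real.log_le_log (by norm_num) hNR
  have hlogH : 1 < Real.log H := log_three.trans_le (Real.log_le_log (by norm_num) hH)
  have hll : 0 < Real.log (Real.log H) := Real.log_pos hlogH
  set u := Real.log N + Real.log (Real.log H) with hu
  have hu1 : 0.69 ≤ u := by
    rw [hu]
    linarith
  have hCsq : 1 ≤ C1 ^ 2 := by nlinarith
  by_cases hdN : N < d
  · have h2 : (A.ncard : ℝ) ≤ (d : ℝ) ^ 2 := by
      have h3 : (N + 1) ^ 2 ≤ d ^ 2 := Nat.pow_le_pow_left hdN 2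
      exact_mod_cast hcrude.trans h3
    refine h2.trans ?_
    have h4 : (d : ℝ) ^ 2 ≤ (d : ℝ) ^ 3 := pow_le_pow_right₀ hdR (by norm_num)
    have h5 : (0.4 : ℝ) ≤ u ^ 2 := by nlinarith
    have h6 : (20736 : ℝ) ≤ (144 * C1 ^ 2) ^ 2 := by nlinarith
    have h7 : (1 : ℝ) ≤ 8 * (144 * C1 ^ 2) ^ 2 * u ^ 2 := by nlinarith
    calc (d : ℝ) ^ 2 ≤ (d : ℝ) ^ 3 := h4
      _ = (d : ℝ) ^ 3 * 1 := by ring
      _ ≤ (d : ℝ) ^ 3 * (8 * (144 * C1 ^ 2) ^ 2 * u ^ 2) := by gcongr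
      _ = 8 * (144 * C1 ^ 2) ^ 2 * d ^ 3 * u ^ 2 := by ring
  push Not at hdN
  -- parameters
  obtain ⟨M, hMdef⟩ : ∃ M : ℕ, M = ⌈Real.log H⌉₊ := ⟨_, rfl⟩
  have hMge : Real.log H ≤ M := by rw [hMdef]; exact Nat.le_ceil _
  have hMlt : (M : ℝ) < Real.log H + 1 := by
    rw [hMdef]
    exact Nat.ceil_lt_add_one (by linarith)
  have hM1R : (1 : ℝ) < M := hlogH.trans_le hMge
  have hM : 1 ≤ M := by
    have : (1 : ℝ) ≤ M := hM1R.le
    exact_mod_cast this
  have hHM : H ≤ Real.exp M := by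
    rw [← Real.log_le_iff_le_exp (by linarith)]
    exact hMge
  obtain ⟨L, hL⟩ : ∃ L : ℝ, L = Real.log (N * M) + 1 := ⟨_, rfl⟩
  obtain ⟨T, hTdef⟩ : ∃ T : ℕ, T = ⌈(144 * C1 ^ 2 - 1) * d ^ 2 * L⌉₊ := ⟨_, rfl⟩
  have hLn : 0 ≤ Real.log ((N : ℝ) * M) := by
    apply Real.log_nonneg
    nlinarith
  have hTge : (144 * C1 ^ 2 - 1) * d ^ 2 * L ≤ T := by rw [hTdef]; exact Nat.le_ceil _
  have hTlt : (T : ℝ) ≤ (144 * C1 ^ 2 - 1) * d ^ 2 * L + 1 := by
    rw [hTdef]
    refine (Nat.ceil_lt_add_one ?_).le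
    have : 0 ≤ 144 * C1 ^ 2 - 1 := by linarith
    have : 0 ≤ L := by linarith
    positivity
  have hdNR : (d : ℝ) ≤ N := by exact_mod_cast hdN
  obtain ⟨hnum, hL1, hTle, hT1R⟩ := num1 C1 N M d T L hC1 hNR hM1R.le hdR hdNR hL hTge hTlt
  have hT : 1 ≤ T := by exact_mod_cast hT1R
  have hLu : L ≤ 4 * u := by
    rw [hL, Real.log_mul (by linarith) (by linarith)]
    have h2 : Real.log M ≤ Real.log 2 + Real.log (Real.log H) := by
      rw [← Real.log_mul (by norm_num) (by linarith)]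
      apply Real.log_le_log (by linarith)
      linarith
    rw [hu]
    linarith
  obtain ⟨K, hK⟩ : ∃ K : ℕ, K = T ^ 2 / (2 * d) := ⟨_, rfl⟩
  have hK1 : 2 * d * K ≤ T ^ 2 := by rw [hK]; exact Nat.mul_div_le _ _
  have hK2 : (T : ℝ) ^ 2 / (2 * d) - 1 ≤ K := by
    have h2 : T ^ 2 < 2 * d * (K + 1) := by
      rw [hK]
      exact Nat.lt_mul_div_succ _ (by omega)
    have h3 : (T : ℝ) ^ 2 < 2 * d * (K + 1) := by exact_mod_cast h2
    rw [sub_le_iff_le_add, div_le_iff₀ (by linarith)]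
    linarith
  -- the count
  have hmain : A.ncard < K := by
    by_contra hcon
    push Not at hcon
    obtain ⟨B, hBA, hBc⟩ := Set.exists_subset_card_eq hcon
    have hBf : B.Finite := hfin.subset hBA
    set S := hBf.toFinset with hS
    have hSc : S.card = K := by
      rw [hS, ← Set.ncard_eq_toFinset_card B hBf]
      exact hBc
    have hSmem : ∀ r ∈ S, r ∈ A := fun r hr => hBA (hBf.mem_toFinset.1 hr)
    have hGB : ∀ r ∈ S, GB d N H r := by
      intro r hr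
      have h2 := hSmem r hr
      exact av_inv h2.1 h2.2.1 h2.2.2.1 h2.2.2.2
    have hN1 : 1 ≤ N := by omega
    have hH1 : 1 ≤ H := by linarith
    obtain ⟨c, hc0, hc, hF0⟩ := auxA (T * M) T M N d H hH1 hM hN1 hd S hGB (by
      rw [hSc]
      calc 2 * d * K * M ≤ T ^ 2 * M := Nat.mul_le_mul_right _ hK1
        _ = (T * M) * T := by ring
        _ ≤ (T * M + 1) * (T + 1) := Nat.mul_le_mul (Nat.le_succ _) (Nat.le_succ _))
    have hF1 := hext N d T M (1000 * (N * T * M) ^ 2) H S c hN1 hd hT hM hH1 hHM hGB hc hF0 (by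
      rw [hSc]
      refine le_trans ?_ hK2
      refine le_trans (le_of_eq ?_) hnum
      push_cast
      rfl)
    have hK3 : 2 ≤ K := by
      have h2 : (1 : ℝ) * 1 * T * 1 ≤ C1 * d * T * (Real.log (N * (1000 * (N * T * M) ^ 2)) + 1) := by
        have h3 : (1 : ℝ) ≤ Real.log (N * (1000 * (N * T * M) ^ 2)) + 1 := by
          have : 0 ≤ Real.log ((N : ℝ) * (1000 * (N * T * M) ^ 2)) := by
            apply Real.log_nonneg
            have h4 : (1 : ℝ) ≤ N * T * M := by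
              have : 1 ≤ N * T * M := Nat.one_le_iff_ne_zero.2 (by positivity)
              exact_mod_cast this
            have h5 : (1 : ℝ) ≤ (N * T * M) ^ 2 := one_le_pow₀ h4
            nlinarith
          linarith
        gcongr
      have h4 : (2 : ℝ) ≤ T := by
        refine le_trans ?_ hTge
        have h5 : 1 ≤ (d : ℝ) ^ 2 * L := by nlinarith
        nlinarith [mul_nonneg (by linarith : (0 : ℝ) ≤ C1 ^ 2 - 1) (by linarith : (0 : ℝ) ≤ (d : ℝ) ^ 2 * L)]
      have h5 : (2 : ℝ) ≤ K := by linarith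
      exact_mod_cast h5
    obtain ⟨r, hr, hr1⟩ : ∃ r ∈ S, r < 1 := by
      by_contra hno
      push Not at hno
      have h2 : S ⊆ {1} := by
        intro r hr
        rw [mem_singleton]
        exact le_antisymm (hSmem r hr).2.1 (hno r hr)
      have h3 := card_le_card h2
      rw [card_singleton, hSc] at h3
      omega
    have h2 := hSmem r hr
    exact fac_zero N T M H hN1 hT hM hH1 hHM c hc0 hc r h2.1 hr1 h2.2.2.1 (hF1 r hr)
  have h2 : (A.ncard : ℝ) ≤ K := by exact_mod_cast hmain.le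
  refine h2.trans ?_
  have h3 : (K : ℝ) * (2 * d) ≤ T ^ 2 := by
    have : (2 * d * K : ℝ) ≤ T ^ 2 := by exact_mod_cast hK1
    linarith
  have h4 : (T : ℝ) ^ 2 ≤ (144 * C1 ^ 2 * d ^ 2 * (4 * u)) ^ 2 := by
    have : (T : ℝ) ≤ 144 * C1 ^ 2 * d ^ 2 * (4 * u) := hTle.trans (by gcongr)
    gcongr
  have h5 : (K : ℝ) * (2 * d) ≤ (8 * (144 * C1 ^ 2) ^ 2 * d ^ 3 * u ^ 2) * (2 * d) := by
    refine (h3.trans h4).trans (le_of_eq ?_)
    ring
  exact le_of_mul_le_mul_right h5 (by linarith)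

end GQ
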