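import Mathlib
import Pool.Agent.Lib.GQ.Defs
import Pool.Agent.Lib.GQ.Growth
import Pool.Agent.Lib.GQ.Shift
import Pool.Agent.Lib.GQ.Schw

/-!
# A uniform bound for the number of zeros in the unit disc, fixed degree

For real (or complex) coefficients `x : Fin (T+1) × Fin (T+1) → ℂ` let `F_x z = ∑ x (i,j) z^i (Gi z)^j`.
* (a) `F_x = 0` on the closed unit disc implies `x = 0`: `F_x` is entire, so `F_x = 0` everywhere (identity theorem `AnalyticOnNhd.eq_of_eventuallyEq`). Let `p_j = ∑_i x (i,j) X^i`. At `z = -m` (`Gi_neg`): `p_0 (-m) = 0` for all `m`, so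
  `p_0 = 0`. Then `Gi z * ∑_{j≥1} p_j(z) (Gi z)^(j-1) = 0` everywhere; the second factor is entire and vanishes where `Gi z ≠ 0` (an open dense set: e.g. all `z` with positive real part, `Complex.Gamma_ne_zero_of_re_pos`), so it vanishes everywhere (identity theorem). Induction.
* (b) There is `B` such that `F_x` has at most `B` zeros in the closed unit disc for all `x ≠ 0`. Otherwise for every `k` there is `x_k` with `‖x_k‖ = 1` (sup norm) and a finset `Z` of `k` zeros in the disc; by `schwarz` with `R = 7`, `‖F_{x_k} z‖ ≤ A ∏ (2/6) = A 3^(-k)` for `‖z‖ ≤ 1`, `A` = bound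
  of `F_x` on `‖w‖ = 7`, `‖x‖ ≤ 1`. The unit sphere is compact: a subsequence converges to `x`, `‖x‖ = 1`, and `F_x = 0` on the disc; contradiction to (a).
* For integers `c i j`: `x = c / max |c|`, or directly `x (i,j) = c i j` after normalisation (the zeros do not change).
-/

set_option autoImplicit false

open Finset

namespace GQ

namespace LemZAux

theorem ident {f : ℂ → ℂ} (hf : Differentiable ℂ f) {z0 : ℂ} (h : ∀ᶠ z in nhds z0, f z = 0)
    (z : ℂ) : f z = 0 := by
  have ha : AnalyticOnNhd ℂ f Set.univ := fun w _ => hf.analyticAt w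
  have hb : AnalyticOnNhd ℂ (fun _ : ℂ => (0 : ℂ)) Set.univ := fun w _ => analyticAt_const
  have h1 := ha.eqOn_of_preconnected_of_eventuallyEq hb isPreconnected_univ (Set.mem_univ z0) h
  exact h1 (Set.mem_univ z)

theorem indep (n : ℕ) : ∀ P : ℕ → Polynomial ℂ,
    (∀ z : ℂ, ∑ j ∈ range n, (P j).eval z * Gi z ^ j = 0) → ∀ j < n, P j = 0 := by
  induction n with
  | zero => intro P _ j hj; omega
  | succ n ih =>
    intro P h
    have h0 : P 0 = 0 := by
      apply Polynomial.eq_zero_of_infinite_isRoot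
      refine Set.infinite_of_injective_forall_mem (f := fun m : ℕ => -(m : ℂ)) ?_ ?_
      · intro a b hab
        simpa using hab
      · intro m
        have h1 := h (-(m : ℂ))
        rw [Finset.sum_range_succ', Gi_neg] at h1
        simpa using h1
    have hd : Differentiable ℂ
        (fun z : ℂ => ∑ j ∈ range n, (P (j + 1)).eval z * Gi z ^ j) := by
      apply Differentiable.fun_sum
      intro j _
      exact (P (j + 1)).differentiable.mul (Gi_diff.pow j)
    have hS : ∀ z : ℂ, ∑ j ∈ range n, (P (j + 1)).eval z * Gi z ^ j = 0 := by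
      refine ident hd (z0 := 1) ?_
      have hre : ∀ᶠ z : ℂ in nhds 1, 0 < z.re :=
        (Complex.continuous_re.tendsto 1).eventually (lt_mem_nhds (by simp))
      filter_upwards [hre] with z hz
      have h1 := h z
      rw [Finset.sum_range_succ', h0] at h1
      have h2 : Gi z * ∑ j ∈ range n, (P (j + 1)).eval z * Gi z ^ j = 0 := by
        rw [Finset.mul_sum]
        simp only [Polynomial.eval_zero, zero_mul, add_zero] at h1
        rw [← h1]
        apply Finset.sum_congr rfl
        intro j _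
        ring
      rcases mul_eq_zero.1 h2 with h3 | h3
      · exact absurd h3 (inv_ne_zero (Complex.Gamma_ne_zero_of_re_pos hz))
      · exact h3
    intro j hj
    rcases j with _ | j
    · exact h0
    · exact ih (fun j => P (j + 1)) hS j (by omega)

/-- the auxiliary function with complex coefficients -/
noncomputable def G (T : ℕ) (x : Fin (T + 1) × Fin (T + 1) → ℂ) (z : ℂ) : ℂ :=
  ∑ i : Fin (T + 1), ∑ j : Fin (T + 1), x (i, j) * z ^ (i : ℕ) * Gi z ^ (j : ℕ)

theorem G_diff (T : ℕ) (x : Fin (T + 1) × Fin (T + 1) → ℂ) : Differentiable ℂ (G T x) := by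
  apply Differentiable.fun_sum
  intro i _
  apply Differentiable.fun_sum
  intro j _
  exact ((differentiable_const _).mul (differentiable_id.pow _)).mul (Gi_diff.pow _)

theorem G_cont (T : ℕ) :
    Continuous (fun p : (Fin (T + 1) × Fin (T + 1) → ℂ) × ℂ => G T p.1 p.2) := by
  unfold G
  apply continuous_finsetSum
  intro i _
  apply continuous_finsetSum
  intro j _
  have h1 : Continuous (fun p : (Fin (T + 1) × Fin (T + 1) → ℂ) × ℂ => p.1 (i, j)) :=
    (continuous_apply (i, j)).comp continuous_fst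
  have h2 : Continuous (fun p : (Fin (T + 1) × Fin (T + 1) → ℂ) × ℂ => p.2 ^ (i : ℕ)) :=
    continuous_snd.pow _
  have h3 : Continuous (fun p : (Fin (T + 1) × Fin (T + 1) → ℂ) × ℂ => Gi p.2 ^ (j : ℕ)) :=
    (Gi_diff.continuous.comp continuous_snd).pow _
  exact (h1.mul h2).mul h3

theorem G_smul (T : ℕ) (a : ℂ) (x : Fin (T + 1) × Fin (T + 1) → ℂ) (z : ℂ) :
    G T (a • x) z = a * G T x z := by
  unfold G
  rw [Finset.mul_sum]
  apply Finset.sum_congr rfl
  intro i _
  rw [Finset.mul_sum]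
  apply Finset.sum_congr rfl
  intro j _
  simp only [Pi.smul_apply, smul_eq_mul]
  ring

theorem Fx_eq (T : ℕ) (c : ℕ → ℕ → ℤ) (z : ℂ) :
    Fx T T c z = G T (fun p => (c p.1 p.2 : ℂ)) z := by
  unfold Fx G
  rw [Finset.sum_range]
  apply Finset.sum_congr rfl
  intro i _
  rw [Finset.sum_range]

theorem G_zero (T : ℕ) (x : Fin (T + 1) × Fin (T + 1) → ℂ) (h : ∀ z : ℂ, G T x z = 0) :
    x = 0 := by
  have h1 : ∀ j < T + 1, (fun j : ℕ => if hj : j < T + 1 then
      ∑ i : Fin (T + 1), Polynomial.C (x (i, ⟨j, hj⟩)) * Polynomial.X ^ (i : ℕ)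
      else 0) j = (0 : Polynomial ℂ) := by
    apply indep (T + 1)
    intro z
    rw [Finset.sum_range, ← h z]
    unfold G
    rw [Finset.sum_comm]
    apply Finset.sum_congr rfl
    intro j _
    simp only [j.2, dif_pos, Fin.eta]
    rw [Polynomial.eval_finsetSum, Finset.sum_mul]
    apply Finset.sum_congr rfl
    intro i _
    simp
  funext p
  obtain ⟨i, j⟩ := p
  have h2 := h1 j j.2
  simp only [j.2, dif_pos, Fin.eta] at h2
  have h3 := congrArg (fun q => Polynomial.coeff q (i : ℕ)) h2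
  simp only [Polynomial.finsetSum_coeff, Polynomial.coeff_C_mul_X_pow, Polynomial.coeff_zero,
    Fin.val_inj] at h3
  simpa using h3

theorem G_disc (T : ℕ) (x : Fin (T + 1) × Fin (T + 1) → ℂ)
    (h : ∀ z : ℂ, ‖z‖ ≤ 1 → G T x z = 0) : x = 0 := by
  apply G_zero
  refine ident (G_diff T x) (z0 := 0) ?_
  filter_upwards [Metric.ball_mem_nhds (0 : ℂ) one_pos] with z hz
  apply h
  rw [Metric.mem_ball, dist_zero_right] at hz
  exact hz.le

end LemZAux

open LemZAux in
theorem lemZ (T : ℕ) : ∃ B : ℕ, ∀ c : ℕ → ℕ → ℤ, (∃ i ≤ T, ∃ j ≤ T, c i j ≠ 0) →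
    ∀ Z : Finset ℂ, (∀ ζ ∈ Z, ‖ζ‖ ≤ 1 ∧ Fx T T c ζ = 0) → Z.card ≤ B := by
  by_contra hno
  push Not at hno
  choose c hc Z hZ hcard using hno
  -- a bound on the circle of radius 7
  obtain ⟨A, hA⟩ : ∃ A : ℝ, ∀ p ∈ (Metric.closedBall (0 : Fin (T + 1) × Fin (T + 1) → ℂ) 1) ×ˢ
      (Metric.closedBall (0 : ℂ) 7), ‖G T p.1 p.2‖ ≤ A :=
    ((isCompact_closedBall _ _).prod (isCompact_closedBall _ _)).exists_bound_of_continuousOn
      (G_cont T).continuousOn
  have hA' : ∀ x : Fin (T + 1) × Fin (T + 1) → ℂ, ‖x‖ ≤ 1 → ∀ w : ℂ, ‖w‖ ≤ 7 →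
      ‖G T x w‖ ≤ A := by
    intro x hx w hw
    exact hA (x, w) ⟨by simpa using hx, by simpa using hw⟩
  have hA0 : 0 ≤ A := (norm_nonneg _).trans (hA' 0 (by simp) 0 (by simp))
  -- the normalised coefficients
  let y : ℕ → (Fin (T + 1) × Fin (T + 1) → ℂ) := fun k p => (c k p.1 p.2 : ℂ)
  have hy : ∀ k, y k ≠ 0 := by
    intro k hk
    obtain ⟨i, hi, j, hj, hij⟩ := hc k
    have h1 := congrFun hk (⟨i, by omega⟩, ⟨j, by omega⟩)
    simp only [y, Pi.zero_apply, Int.cast_eq_zero] at h1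
    exact hij h1
  let x : ℕ → (Fin (T + 1) × Fin (T + 1) → ℂ) := fun k => ((‖y k‖⁻¹ : ℝ) : ℂ) • y k
  have hx : ∀ k, ‖x k‖ = 1 := by
    intro k
    simp only [x, norm_smul, Complex.norm_real, norm_inv, norm_norm]
    exact inv_mul_cancel₀ (norm_ne_zero_iff.2 (hy k))
  have hxz : ∀ k, ∀ ζ ∈ Z k, G T (x k) ζ = 0 := by
    intro k ζ hζ
    have h1 := (hZ k ζ hζ).2
    rw [Fx_eq] at h1
    simp only [x, G_smul]
    rw [show G T (y k) ζ = 0 from h1, mul_zero]
  have hsmall : ∀ k, ∀ z : ℂ, ‖z‖ ≤ 1 → ‖G T (x k) z‖ ≤ A * (1 / 3) ^ k := by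
    intro k z hz
    have h1 := schwarz (G_diff T (x k)) (Z k) (hxz k) 7 A
      (fun ζ hζ => lt_of_le_of_lt (hZ k ζ hζ).1 (by norm_num))
      (fun w hw => hA' _ (hx k).le w hw.le) z (lt_of_le_of_lt hz (by norm_num))
    refine h1.trans ?_
    apply mul_le_mul_of_nonneg_left _ hA0
    have h2 : ∏ ζ ∈ Z k, (‖z - ζ‖ / (7 - ‖ζ‖)) ≤ ∏ _ζ ∈ Z k, (1 / 3 : ℝ) := by
      apply Finset.prod_le_prod
      · intro ζ hζ
        have h3 := (hZ k ζ hζ).1
        exact div_nonneg (norm_nonneg _) (by linarith)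
      · intro ζ hζ
        have h3 := (hZ k ζ hζ).1
        have h4 : ‖z - ζ‖ ≤ 2 := (norm_sub_le _ _).trans (by linarith)
        rw [div_le_div_iff₀ (by linarith) (by norm_num)]
        linarith
    rw [Finset.prod_const] at h2
    refine h2.trans ?_
    exact pow_le_pow_of_le_one (by norm_num) (by norm_num) (hcard k).le
  -- compactness of the unit sphere
  obtain ⟨x0, hx0, φ, hφ, hlim⟩ := (isCompact_sphere (0 : Fin (T + 1) × Fin (T + 1) → ℂ) 1).tendsto_subseq
    (x := x) (fun k => by simp [hx k])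
  have hx0z : x0 = 0 := by
    apply G_disc
    intro z hz
    have h1 : Filter.Tendsto (fun k => G T (x (φ k)) z) Filter.atTop (nhds (G T x0 z)) := by
      have h2 : Continuous (fun v : Fin (T + 1) × Fin (T + 1) → ℂ => G T v z) :=
        (G_cont T).comp (continuous_id.prodMk continuous_const)
      exact (h2.tendsto x0).comp hlim
    have h3 : Filter.Tendsto (fun k => G T (x (φ k)) z) Filter.atTop (nhds 0) := by
      have h4 : Filter.Tendsto (fun k : ℕ => A * (1 / 3 : ℝ) ^ k) Filter.atTop (nhds 0) := by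
        have h5 := (tendsto_pow_atTop_nhds_zero_of_lt_one (r := (1 / 3 : ℝ)) (by norm_num)
          (by norm_num)).const_mul A
        simpa using h5
      exact squeeze_zero_norm (fun k => hsmall (φ k) z hz) (h4.comp hφ.tendsto_atTop)
    exact tendsto_nhds_unique h1 h3
  rw [hx0z] at hx0
  simp at hx0

end GQ
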