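import Mathlib
import Pool.Agent.Lib.GQ.Defs
import Pool.Agent.Lib.GQ.Growth
import Pool.Agent.Lib.GQ.Shift
import Pool.Agent.Lib.GQ.Schw
import Pool.Agent.Lib.GQ.AuxA
import Pool.Agent.Lib.GQ.AuxB
import Pool.Agent.Lib.GQ.LemZ

/-!
# One window

WLOG `κ ≥ 1`. `N = N0^2`, `H = N^κ = N0^(2κ)`. `T` large depending on `d` and `κ` only, `K = T^2 / (2 d)` (natural division), so `2 d K ≤ (T+1)^2`. Let `E` be a finite set of `n ∈ [N0, N)` with `AV d (n^κ) (Γ (1/n))`; all `r = 1/n` satisfy `GB d N H r` (`av_inv`).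
If `E.card > K`: take `S` = `{1/n}` for `K` elements, `auxA` with `M = 1`, `T1 = T2 = T`: `X = bX T T 1 N H = (T+1)^2 N^(2T) (2H)^T`, `log X ≤ 2T + 4 T log N0 + T + 2 κ T log N0 ≤ C3 T log N0`, `C3 = 3/log 2 + 4 + 2κ` (`log N0 ≥ log 2`).
For `n ∈ E`, `z = 1/n`: `schwarz` with `R = 3`, the `K` zeros `1/n'`: `‖z - ζ‖ ≤ 1/N0`, `R - ‖ζ‖ ≥ 2 ≥ 1`; on `‖w‖ = 3` `‖F w‖ ≤ (T+1)^2 X 3^T exp (T c 3 log 5)`. So `log ‖F z‖ ≤ 2T + log X + 2 T + 6 c T - K log N0`. If `F z ≠ 0`: `auxB` with `m = 0`, `bY T T 0 N X H = (T+1)^2 X N^T (2H)^T ≤ X^2`: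
`log ‖F z‖ ≥ - 2 d log X`. Hence `K log N0 ≤ (2d+1) C3 T log N0 + (4 + 6c) T`, `K ≤ C4 T` with `C4` depending on `d`, `κ`; false if `T` is large (`K ≥ T^2/(2d) - 1`). So `F (1/n) = 0` for all `n ∈ E` and `lemZ` bounds `E.card`. The bound is `max K B`.
-/

set_option autoImplicit false

open Finset

namespace GQ

namespace WinAux

theorem av_mono {d d' : ℕ} {H H' x : ℝ} (hd : d ≤ d') (hH : H ≤ H') (h : AV d H x) :
    AV d' H' x := by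
  obtain ⟨q, h1, h2, h3, h4⟩ := h
  exact ⟨q, h1, h2.trans hd, fun i => (h3 i).trans hH, h4⟩

theorem gb {d N n : ℕ} {H : ℝ} (hn : 1 ≤ n) (hN : n ≤ N)
    (h : AV d H (Real.Gamma (1 / (n : ℝ)))) : GB d N H ((n : ℚ)⁻¹) := by
  have hn0 : (0 : ℚ) < n := by exact_mod_cast hn
  have hn1 : (1 : ℚ) ≤ n := by exact_mod_cast hn
  refine av_inv (inv_pos.2 hn0) (inv_le_one_of_one_le₀ hn1) ?_ ?_
  · rw [Rat.inv_natCast_den_of_pos (by omega)]
    exact hN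
  · rw [Rat.cast_inv, Rat.cast_natCast, ← one_div]
    exact h

theorem fx_diff (T : ℕ) (c : ℕ → ℕ → ℤ) : Differentiable ℂ (Fx T T c) := by
  unfold Fx
  refine Differentiable.fun_sum fun i _ => Differentiable.fun_sum fun j _ => ?_
  exact ((differentiable_const _).mul (differentiable_id.pow i)).mul (Gi_diff.pow j)

theorem fx_le (T : ℕ) (c : ℕ → ℕ → ℤ) {X G : ℝ} (hc : ∀ i j, |(c i j : ℝ)| ≤ X)
    (hG : 1 ≤ G) {w : ℂ} (hw : ‖w‖ = 3) (hg : ‖Gi w‖ ≤ G) :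
    ‖Fx T T c w‖ ≤ (((T + 1) * (T + 1) : ℕ) : ℝ) * (X * 3 ^ T * G ^ T) := by
  have hX : 0 ≤ X := (abs_nonneg _).trans (hc 0 0)
  have h1 : ∀ i ∈ range (T + 1), ∀ j ∈ range (T + 1),
      ‖(c i j : ℂ) * w ^ i * Gi w ^ j‖ ≤ X * 3 ^ T * G ^ T := by
    intro i hi j hj
    have hi' : i ≤ T := Nat.lt_succ_iff.1 (mem_range.1 hi)
    have hj' : j ≤ T := Nat.lt_succ_iff.1 (mem_range.1 hj)
    rw [norm_mul, norm_mul, norm_pow, norm_pow, hw, Complex.norm_intCast]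
    have e1 : (3 : ℝ) ^ i ≤ 3 ^ T := pow_le_pow_right₀ (by norm_num) hi'
    have e2 : ‖Gi w‖ ^ j ≤ G ^ T :=
      (pow_le_pow_left₀ (norm_nonneg _) hg j).trans (pow_le_pow_right₀ hG hj')
    exact mul_le_mul (mul_le_mul (hc i j) e1 (by positivity) hX) e2
      (pow_nonneg (norm_nonneg _) _) (by positivity)
  unfold Fx
  calc ‖∑ i ∈ range (T + 1), ∑ j ∈ range (T + 1), (c i j : ℂ) * w ^ i * Gi w ^ j‖
      ≤ ∑ i ∈ range (T + 1), ‖∑ j ∈ range (T + 1), (c i j : ℂ) * w ^ i * Gi w ^ j‖ :=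
        norm_sum_le _ _
    _ ≤ ∑ i ∈ range (T + 1), ∑ j ∈ range (T + 1), ‖(c i j : ℂ) * w ^ i * Gi w ^ j‖ :=
        sum_le_sum fun i _ => norm_sum_le _ _
    _ ≤ ∑ i ∈ range (T + 1), ∑ j ∈ range (T + 1), X * 3 ^ T * G ^ T :=
        sum_le_sum fun i hi => sum_le_sum fun j hj => h1 i hi j hj
    _ = (((T + 1) * (T + 1) : ℕ) : ℝ) * (X * 3 ^ T * G ^ T) := by
        rw [sum_const, sum_const, card_range, nsmul_eq_mul, nsmul_eq_mul]
        push_cast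
        ring

theorem bX_ge (T1 T2 M N : ℕ) (H : ℝ) (hH : 1 ≤ H) (hM : 1 ≤ M) (hN : 1 ≤ N) :
    1 ≤ bX T1 T2 M N H := by
  unfold bX
  have h1 : (1 : ℝ) ≤ (((T1 + 1) * (T2 + 1) : ℕ) : ℝ) := by
    exact_mod_cast Nat.mul_pos (Nat.succ_pos T1) (Nat.succ_pos T2)
  have h2 : (1 : ℝ) ≤ (((N * M) ^ (T1 + M * T2) : ℕ) : ℝ) := by
    exact_mod_cast Nat.one_le_pow _ _ (Nat.mul_pos hN hM)
  have h3 : (1 : ℝ) ≤ (2 * H) ^ T2 := one_le_pow₀ (by linarith)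
  exact one_le_mul_of_one_le_of_one_le (one_le_mul_of_one_le_of_one_le h1 h2) h3

/-- distance of two reciprocals -/
theorem dist_inv {N0 a b : ℕ} (h2 : 2 ≤ N0) (ha : N0 ≤ a) (hb : N0 ≤ b) :
    ‖((a : ℂ)⁻¹) - ((b : ℂ)⁻¹)‖ / (3 - ‖((b : ℂ)⁻¹)‖) ≤ (N0 : ℝ)⁻¹ := by
  have hN : (0 : ℝ) < N0 := by exact_mod_cast (by omega : 0 < N0)
  have ha0 : (N0 : ℝ) ≤ a := by exact_mod_cast ha
  have hb0 : (N0 : ℝ) ≤ b := by exact_mod_cast hb
  have ha1 : (a : ℝ)⁻¹ ≤ (N0 : ℝ)⁻¹ := inv_anti₀ hN ha0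
  have hb1 : (b : ℝ)⁻¹ ≤ (N0 : ℝ)⁻¹ := inv_anti₀ hN hb0
  have ha2 : (0 : ℝ) ≤ (a : ℝ)⁻¹ := by positivity
  have hb2 : (0 : ℝ) ≤ (b : ℝ)⁻¹ := by positivity
  have e1 : ‖((a : ℂ)⁻¹) - ((b : ℂ)⁻¹)‖ ≤ (N0 : ℝ)⁻¹ := by
    have e2 : ((a : ℂ)⁻¹) - ((b : ℂ)⁻¹) = (((a : ℝ)⁻¹ - (b : ℝ)⁻¹ : ℝ) : ℂ) := by
      push_cast
      ring
    rw [e2, Complex.norm_real, Real.norm_eq_abs, abs_le]
    constructor <;> linarith
  have e3 : ‖((b : ℂ)⁻¹)‖ ≤ 1 := by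
    have e4 : ((b : ℂ)⁻¹) = (((b : ℝ)⁻¹ : ℝ) : ℂ) := by push_cast; ring
    rw [e4, Complex.norm_real, Real.norm_eq_abs, abs_of_nonneg hb2]
    refine hb1.trans (inv_le_one_of_one_le₀ ?_)
    exact_mod_cast (by omega : 1 ≤ N0)
  rw [div_le_iff₀ (by linarith)]
  have e5 : (N0 : ℝ)⁻¹ * 1 ≤ (N0 : ℝ)⁻¹ * (3 - ‖((b : ℂ)⁻¹)‖) :=
    mul_le_mul_of_nonneg_left (by linarith) (by positivity)
  linarith

/-- the numerical contradiction -/
theorem num {T C N0 k g d : ℕ} (h2 : 2 ≤ N0) (hT : 1 ≤ T)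
    (hC : C = (2 + g) + (7 + 2 * k) * (2 * d + 2)) {G X Y : ℝ} (hG : 1 ≤ G) (hGg : G ≤ 2 ^ g)
    (hX : X = bX T T 1 (N0 ^ 2) (((N0 ^ 2 : ℕ) : ℝ) ^ k))
    (hY : Y = bY T T 0 (N0 ^ 2) X (((N0 ^ 2 : ℕ) : ℝ) ^ k))
    (h : (N0 : ℝ) ^ (T * (C + 1)) ≤ (((T + 1) * (T + 1) : ℕ) : ℝ) * (X * 3 ^ T * G ^ T) * Y ^ d) :
    False := by
  have hN2 : (2 : ℝ) ≤ N0 := by exact_mod_cast h2
  have hN1 : (1 : ℝ) ≤ N0 := by linarith
  set A : ℝ := (((T + 1) * (T + 1) : ℕ) : ℝ) with hA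
  set P : ℝ := (2 * ((N0 ^ 2 : ℕ) : ℝ) ^ k) ^ T with hP
  have hA1 : A ≤ (N0 : ℝ) ^ (2 * T) := by
    have e1 : ((T + 1 : ℕ) : ℝ) ≤ 2 ^ T := by exact_mod_cast Nat.lt_two_pow_self (n := T)
    have e2 : (2 : ℝ) ^ T ≤ (N0 : ℝ) ^ T := pow_le_pow_left₀ (by norm_num) hN2 T
    rw [hA, Nat.cast_mul, two_mul, pow_add]
    exact mul_le_mul (e1.trans e2) (e1.trans e2) (Nat.cast_nonneg _) (by positivity)
  have hA0 : 1 ≤ A := by
    rw [hA]
    exact_mod_cast Nat.mul_pos (Nat.succ_pos T) (Nat.succ_pos T)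
  have hP1 : P ≤ (N0 : ℝ) ^ ((1 + 2 * k) * T) := by
    rw [hP, pow_mul]
    refine pow_le_pow_left₀ (by positivity) ?_ T
    rw [pow_add, pow_one, pow_mul]
    push_cast
    exact mul_le_mul_of_nonneg_right hN2 (by positivity)
  have hP0 : 1 ≤ P := by
    rw [hP]
    refine one_le_pow₀ ?_
    have e1 : (1 : ℝ) ≤ ((N0 ^ 2 : ℕ) : ℝ) ^ k := by
      refine one_le_pow₀ ?_
      exact_mod_cast Nat.one_le_pow _ _ (by omega)
    linarith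
  have hXe : X = A * (N0 : ℝ) ^ (4 * T) * P := by
    rw [hX]
    unfold bX
    rw [← hA, ← hP]
    congr 2
    push_cast
    rw [mul_one, one_mul, ← pow_mul]
    congr 1
    ring
  have hYe : Y = A * X * (N0 : ℝ) ^ (2 * T) * P := by
    rw [hY]
    unfold bY
    rw [← hA, ← hP]
    congr 2
    push_cast
    rw [mul_one, zero_mul, add_zero, ← pow_mul]
  have hX1 : 1 ≤ X := by
    rw [hXe]
    exact one_le_mul_of_one_le_of_one_le (one_le_mul_of_one_le_of_one_le hA0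
      (one_le_pow₀ hN1)) hP0
  have hXb : X ≤ (N0 : ℝ) ^ ((7 + 2 * k) * T) := by
    rw [hXe]
    have e1 : (7 + 2 * k) * T = 2 * T + 4 * T + (1 + 2 * k) * T := by ring
    rw [e1, pow_add, pow_add]
    have e2 : (0 : ℝ) ≤ (N0 : ℝ) ^ (4 * T) := by positivity
    exact mul_le_mul (mul_le_mul_of_nonneg_right hA1 e2) hP1 (by linarith) (by positivity)
  have hYb : Y ≤ X ^ 2 := by
    have e1 : A * (N0 : ℝ) ^ (2 * T) * P ≤ X := by
      rw [hXe]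
      refine mul_le_mul_of_nonneg_right (mul_le_mul_of_nonneg_left ?_ (by linarith)) (by linarith)
      exact pow_le_pow_right₀ hN1 (by omega)
    calc Y = X * (A * (N0 : ℝ) ^ (2 * T) * P) := by rw [hYe]; ring
      _ ≤ X * X := mul_le_mul_of_nonneg_left e1 (by linarith)
      _ = X ^ 2 := by ring
  have hY0 : 0 ≤ Y := by
    rw [hYe]
    positivity
  have h3 : (3 : ℝ) ^ T ≤ (N0 : ℝ) ^ (2 * T) := by
    rw [pow_mul]
    refine pow_le_pow_left₀ (by norm_num) ?_ T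
    nlinarith
  have hGT : G ^ T ≤ (N0 : ℝ) ^ (g * T) := by
    rw [pow_mul]
    refine pow_le_pow_left₀ (by linarith) ?_ T
    exact hGg.trans (pow_le_pow_left₀ (by norm_num) hN2 g)
  have hAX : A ≤ X := by
    rw [hXe, mul_assoc]
    exact le_mul_of_one_le_right (by linarith)
      (one_le_mul_of_one_le_of_one_le (one_le_pow₀ hN1) hP0)
  have h4 : A * (X * 3 ^ T * G ^ T) * Y ^ d ≤
      (N0 : ℝ) ^ (2 * T + g * T + (7 + 2 * k) * T * (2 * d + 2)) := by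
    have e1 : Y ^ d ≤ X ^ (2 * d) := by
      rw [pow_mul]
      exact pow_le_pow_left₀ hY0 hYb d
    have e2 : A * (X * 3 ^ T * G ^ T) * Y ^ d ≤ X * (X * 3 ^ T * G ^ T) * X ^ (2 * d) := by
      have hp : 0 ≤ X * 3 ^ T * G ^ T := by positivity
      exact mul_le_mul (mul_le_mul_of_nonneg_right hAX hp) e1 (pow_nonneg hY0 _)
        (by positivity)
    have e3 : X * (X * 3 ^ T * G ^ T) * X ^ (2 * d) = 3 ^ T * G ^ T * X ^ (2 * d + 2) := by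
      ring
    rw [e3] at e2
    refine e2.trans ?_
    rw [pow_add (N0 : ℝ), pow_add (N0 : ℝ), pow_mul (N0 : ℝ) ((7 + 2 * k) * T) (2 * d + 2)]
    have e4 : X ^ (2 * d + 2) ≤ ((N0 : ℝ) ^ ((7 + 2 * k) * T)) ^ (2 * d + 2) :=
      pow_le_pow_left₀ (by linarith) hXb _
    exact mul_le_mul (mul_le_mul h3 hGT (by positivity) (by positivity)) e4
      (by positivity) (by positivity)
  have h5 := h.trans h4
  have h6 := (pow_le_pow_iff_right₀ (by linarith : (1 : ℝ) < N0)).1 h5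
  have h7 : 2 * T + g * T + (7 + 2 * k) * T * (2 * d + 2) = T * C := by
    rw [hC]
    ring
  rw [h7] at h6
  have h8 := Nat.le_of_mul_le_mul_left h6 hT
  omega

end WinAux

open WinAux

theorem win (d : ℕ) (κ : ℝ) : ∃ B : ℕ, ∀ N0 : ℕ, 2 ≤ N0 → ∀ E : Finset ℕ,
    (∀ n ∈ E, N0 ≤ n ∧ n < N0 ^ 2 ∧ AV d ((n : ℝ) ^ κ) (Real.Gamma (1 / (n : ℝ)))) →
    E.card ≤ B := by
  obtain ⟨c0, hc1, hc⟩ := growth
  set G : ℝ := Real.exp (c0 * 3 * Real.log (3 + 2)) with hGdef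
  have hG1 : 1 ≤ G := by
    refine Real.one_le_exp ?_
    have := Real.log_nonneg (by norm_num : (1 : ℝ) ≤ 3 + 2)
    positivity
  obtain ⟨g, hg⟩ := pow_unbounded_of_one_lt G (by norm_num : (1 : ℝ) < 2)
  set k : ℕ := ⌈κ⌉₊ with hk
  set D : ℕ := max d 1 with hD
  have hD1 : 1 ≤ D := le_max_right _ _
  set C : ℕ := (2 + g) + (7 + 2 * k) * (2 * D + 2) with hC
  set T : ℕ := 2 * D * (C + 1) with hT
  have hT1 : 1 ≤ T := by
    rw [hT]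
    exact Nat.mul_pos (by omega) (by omega)
  obtain ⟨B, hB⟩ := lemZ T
  refine ⟨max (T * (C + 1)) B, fun N0 h2 E hE => ?_⟩
  rcases Nat.lt_or_ge (T * (C + 1)) E.card with hlt | hge
  swap
  · exact hge.trans (le_max_left _ _)
  refine le_trans ?_ (le_max_right _ _)
  have hN : 1 ≤ N0 ^ 2 := Nat.one_le_pow _ _ (by omega)
  set H : ℝ := ((N0 ^ 2 : ℕ) : ℝ) ^ k with hH
  have hH1 : 1 ≤ H := one_le_pow₀ (by exact_mod_cast hN)
  have hgb : ∀ n ∈ E, GB D (N0 ^ 2) H ((n : ℚ)⁻¹) := by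
    intro n hn
    obtain ⟨e1, e2, e3⟩ := hE n hn
    refine gb (by omega) e2.le (av_mono (le_max_left _ _) ?_ e3)
    have f1 : (1 : ℝ) ≤ n := by exact_mod_cast (by omega : 1 ≤ n)
    calc (n : ℝ) ^ κ ≤ (n : ℝ) ^ (k : ℝ) :=
          Real.rpow_le_rpow_of_exponent_le f1 (Nat.le_ceil κ)
      _ = (n : ℝ) ^ k := Real.rpow_natCast _ _
      _ ≤ ((N0 ^ 2 : ℕ) : ℝ) ^ k := pow_le_pow_left₀ (by positivity) (by exact_mod_cast e2.le) k
  obtain ⟨S', hS'E, hS'c⟩ := Finset.exists_subset_card_eq hlt.le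
  have hinj : Function.Injective (fun n : ℕ => ((n : ℚ)⁻¹)) := by
    intro a b hab
    exact Nat.cast_injective (inv_injective hab)
  set S : Finset ℚ := S'.image (fun n : ℕ => ((n : ℚ)⁻¹)) with hS
  have hSc : S.card = T * (C + 1) := by
    rw [hS, Finset.card_image_of_injective _ hinj, hS'c]
  obtain ⟨c, hc0, hcX, hcz⟩ := auxA T T 1 (N0 ^ 2) D H hH1 le_rfl hN hD1 S (by
    intro r hr
    obtain ⟨n, hn, rfl⟩ := Finset.mem_image.1 hr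
    exact hgb n (hS'E hn)) (by
    rw [hSc, mul_one]
    calc 2 * D * (T * (C + 1)) = T * T := by rw [hT]; ring
      _ ≤ (T + 1) * (T + 1) := Nat.mul_le_mul (Nat.le_succ _) (Nat.le_succ _))
  have hz : ∀ n ∈ S', Fx T T c ((n : ℂ)⁻¹) = 0 := by
    intro n hn
    have := hcz _ (Finset.mem_image_of_mem _ hn) 0 one_pos
    simpa using this
  set X : ℝ := bX T T 1 (N0 ^ 2) H with hX
  have hinjC : Function.Injective (fun n : ℕ => ((n : ℂ)⁻¹)) := by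
    intro a b hab
    exact Nat.cast_injective (inv_injective hab)
  have hnorm : ∀ n : ℕ, N0 ≤ n → ‖((n : ℂ)⁻¹)‖ ≤ 1 := by
    intro n hn
    rw [norm_inv, Complex.norm_natCast]
    refine inv_le_one_of_one_le₀ ?_
    exact_mod_cast (by omega : 1 ≤ n)
  have hX1 : 1 ≤ X := WinAux.bX_ge _ _ _ _ _ hH1 le_rfl hN
  have key : ∀ n ∈ E, Fx T T c ((n : ℂ)⁻¹) = 0 := by
    intro n hn
    by_contra hne
    have hnN : N0 ≤ n := (hE n hn).1
    have s1 := schwarz (fx_diff T c) (S'.image (fun n : ℕ => ((n : ℂ)⁻¹))) (by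
      intro ζ hζ
      obtain ⟨a, ha, rfl⟩ := Finset.mem_image.1 hζ
      exact hz a ha) 3 ((((T + 1) * (T + 1) : ℕ) : ℝ) * (X * 3 ^ T * G ^ T)) (by
      intro ζ hζ
      obtain ⟨a, ha, rfl⟩ := Finset.mem_image.1 hζ
      have := hnorm a (hE a (hS'E ha)).1
      linarith) (by
      intro w hw
      exact fx_le T c hcX hG1 hw (hc 3 (by norm_num) w hw.le)) ((n : ℂ)⁻¹) (by
      have := hnorm n hnN
      linarith)
    have s2 : ∏ ζ ∈ S'.image (fun n : ℕ => ((n : ℂ)⁻¹)),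
        (‖((n : ℂ)⁻¹) - ζ‖ / (3 - ‖ζ‖)) ≤ ((N0 : ℝ)⁻¹) ^ (T * (C + 1)) := by
      rw [Finset.prod_image (fun a _ b _ h => hinjC h), ← hS'c, ← Finset.prod_const]
      refine Finset.prod_le_prod ?_ ?_
      · intro a ha
        have := hnorm a (hE a (hS'E ha)).1
        exact div_nonneg (norm_nonneg _) (by linarith)
      · intro a ha
        exact dist_inv h2 hnN (hE a (hS'E ha)).1
    have hB0 : 0 ≤ (((T + 1) * (T + 1) : ℕ) : ℝ) * (X * 3 ^ T * G ^ T) := by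
      have : 0 ≤ X := by linarith
      have : 0 ≤ G := by linarith
      positivity
    have s3 := s1.trans (mul_le_mul_of_nonneg_left s2 hB0)
    have s4 := auxB T T (N0 ^ 2) D H X hH1 hN hD1 hX1 c hcX ((n : ℚ)⁻¹) (hgb n hn) 0 (by
      simpa using hne)
    have e0 : ((((n : ℚ)⁻¹ : ℚ) : ℂ) - ((0 : ℕ) : ℂ)) = ((n : ℂ)⁻¹) := by simp
    rw [e0] at s4
    have hNp : (0 : ℝ) < (N0 : ℝ) ^ (T * (C + 1)) := by
      have : (0 : ℝ) < N0 := by exact_mod_cast (by omega : 0 < N0)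
      positivity
    have hY0 : 0 ≤ bY T T 0 (N0 ^ 2) X H ^ D := by
      have : 0 ≤ X := by linarith
      unfold bY
      positivity
    refine num (G := G) (g := g) (X := X) (Y := bY T T 0 (N0 ^ 2) X H) h2 hT1 hC hG1 hg.le
      rfl rfl ?_
    have s5 := mul_le_mul_of_nonneg_right s3 hY0
    have s6 := s4.trans s5
    rw [inv_pow] at s6
    have s7 := mul_le_mul_of_nonneg_left s6 hNp.le
    have s8 : (N0 : ℝ) ^ (T * (C + 1)) * ((((T + 1) * (T + 1) : ℕ) : ℝ) * (X * 3 ^ T * G ^ T) *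
        ((N0 : ℝ) ^ (T * (C + 1)))⁻¹ * bY T T 0 (N0 ^ 2) X H ^ D) =
        (((T + 1) * (T + 1) : ℕ) : ℝ) * (X * 3 ^ T * G ^ T) * bY T T 0 (N0 ^ 2) X H ^ D := by
      field_simp
    rw [s8, mul_one] at s7
    exact s7
  have hfin := hB c hc0 (E.image (fun n : ℕ => ((n : ℂ)⁻¹))) (by
    intro ζ hζ
    obtain ⟨n, hn, rfl⟩ := Finset.mem_image.1 hζ
    exact ⟨hnorm n (hE n hn).1, key n hn⟩)
  rwa [Finset.card_image_of_injective _ hinjC] at hfin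

end GQ
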