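import Mathlib
import Pool.Agent.Lib.GQ.Defs
import Pool.Agent.Lib.GQ.Win

/-!
# Part (3): doubly logarithmic bound

`[2, N] ⊆ ⋃_{k ≤ K0} [2^(2^k), 2^(2^(k+1)))` with `K0 = ⌊log2 log2 N⌋`; in each window at most `B` integers (`win`), `n = 1` (and nothing else) is left over. So the number is `≤ 1 + (K0 + 1) B ≤ C log (log N)` for `N ≥ 3` (`log log 3 > 0`).
(A possible way: for `n ≥ 2` let `k n = Nat.log 2 (Nat.log 2 n)`, then `2^(2^(k n)) ≤ n < 2^(2^(k n + 1))` and `k n ≤ Nat.log 2 (Nat.log 2 N)`; `Finset.card_le_mul_card_image` or `card_eq_sum_card_fiberwise`.)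
-/

set_option autoImplicit false

open Finset

namespace GQ

namespace ThreeAux

theorem count {d B : ℕ} {κ : ℝ} (hB : ∀ N0 : ℕ, 2 ≤ N0 → ∀ E : Finset ℕ,
    (∀ n ∈ E, N0 ≤ n ∧ n < N0 ^ 2 ∧ AV d ((n : ℝ) ^ κ) (Real.Gamma (1 / (n : ℝ)))) →
    E.card ≤ B) (N : ℕ) :
    {n : ℕ | 1 ≤ n ∧ n ≤ N ∧ AV d ((n : ℝ) ^ κ) (Real.Gamma (1 / (n : ℝ)))}.ncard ≤
      1 + (Nat.log 2 (Nat.log 2 N) + 1) * B := by
  classical
  let f : ℕ → Finset ℕ := fun k => (Ico (2 ^ 2 ^ k) ((2 ^ 2 ^ k) ^ 2)).filter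
    (fun n : ℕ => AV d ((n : ℝ) ^ κ) (Real.Gamma (1 / (n : ℝ))))
  have hsub : {n : ℕ | 1 ≤ n ∧ n ≤ N ∧ AV d ((n : ℝ) ^ κ) (Real.Gamma (1 / (n : ℝ)))} ⊆
      ((insert 1 ((range (Nat.log 2 (Nat.log 2 N) + 1)).biUnion f) : Finset ℕ) : Set ℕ) := by
    rintro n ⟨h1, h2, h3⟩
    rw [Finset.mem_coe, Finset.mem_insert]
    by_cases hn : n = 1
    · exact Or.inl hn
    · right
      have hn2 : 2 ≤ n := by omega
      rw [Finset.mem_biUnion]
      refine ⟨Nat.log 2 (Nat.log 2 n), ?_, ?_⟩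
      · rw [Finset.mem_range]
        exact Nat.lt_succ_of_le (Nat.log_mono_right (Nat.log_mono_right h2))
      · have hj1 : 1 ≤ Nat.log 2 n := Nat.log_pos (by norm_num) hn2
        have h4 : 2 ^ Nat.log 2 n ≤ n := Nat.pow_log_le_self 2 (by omega)
        have h5 : n < 2 ^ (Nat.log 2 n + 1) := Nat.lt_pow_succ_log_self (by norm_num) n
        have h6 : 2 ^ Nat.log 2 (Nat.log 2 n) ≤ Nat.log 2 n := Nat.pow_log_le_self 2 (by omega)
        have h7 : Nat.log 2 n < 2 ^ (Nat.log 2 (Nat.log 2 n) + 1) :=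
          Nat.lt_pow_succ_log_self (by norm_num) _
        simp only [f, Finset.mem_filter, Finset.mem_Ico]
        refine ⟨⟨(Nat.pow_le_pow_right (by norm_num) h6).trans h4, ?_⟩, h3⟩
        refine lt_of_lt_of_le h5 ?_
        rw [← pow_mul, ← pow_succ]
        exact Nat.pow_le_pow_right (by norm_num) h7
  have h1 := Set.ncard_le_ncard hsub (Finset.finite_toSet _)
  rw [Set.ncard_coe_finset] at h1
  refine h1.trans ((Finset.card_insert_le _ _).trans ?_)
  have h2 : ((range (Nat.log 2 (Nat.log 2 N) + 1)).biUnion f).card ≤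
      (range (Nat.log 2 (Nat.log 2 N) + 1)).card * B := by
    refine Finset.card_biUnion_le_card_mul _ _ _ fun k _ => ?_
    refine hB (2 ^ 2 ^ k) ?_ (f k) ?_
    · calc 2 = 2 ^ 1 := by norm_num
        _ ≤ 2 ^ 2 ^ k := Nat.pow_le_pow_right (by norm_num) Nat.one_le_two_pow
    · intro n hn
      simp only [f, Finset.mem_filter, Finset.mem_Ico] at hn
      exact ⟨hn.1.1, hn.1.2, hn.2⟩
  rw [Finset.card_range] at h2
  omega

theorem logs {N : ℕ} (hN : 3 ≤ N) :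
    (Nat.log 2 (Nat.log 2 N) : ℝ) * Real.log 2 ≤
      Real.log (Real.log N) + |Real.log (Real.log 2)| := by
  have hl2 : 0 < Real.log 2 := Real.log_pos (by norm_num)
  have hN0 : (0 : ℝ) < N := by
    have h : (3 : ℝ) ≤ N := by exact_mod_cast hN
    linarith
  have hj1 : 1 ≤ Nat.log 2 N := Nat.log_pos (by norm_num) (by omega)
  have h1 : (Nat.log 2 N : ℝ) * Real.log 2 ≤ Real.log N := by
    rw [← Real.log_pow]
    refine Real.log_le_log (by positivity) ?_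
    exact_mod_cast Nat.pow_log_le_self 2 (by omega : N ≠ 0)
  have hj0 : (0 : ℝ) < (Nat.log 2 N : ℝ) := by exact_mod_cast hj1
  have h2 : (Nat.log 2 (Nat.log 2 N) : ℝ) * Real.log 2 ≤ Real.log (Nat.log 2 N : ℝ) := by
    rw [← Real.log_pow]
    refine Real.log_le_log (by positivity) ?_
    exact_mod_cast Nat.pow_log_le_self 2 (by omega : Nat.log 2 N ≠ 0)
  have h3 : Real.log (Nat.log 2 N : ℝ) + Real.log (Real.log 2) ≤ Real.log (Real.log N) := by
    rw [← Real.log_mul hj0.ne' hl2.ne']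
    exact Real.log_le_log (mul_pos hj0 hl2) h1
  have h4 := neg_abs_le (Real.log (Real.log 2))
  linarith

end ThreeAux

theorem main3 (d : ℕ) (κ : ℝ) : ∃ C : ℝ, ∀ N : ℕ, 3 ≤ N →
    ({n : ℕ | 1 ≤ n ∧ n ≤ N ∧ AV d ((n : ℝ) ^ κ) (Real.Gamma (1 / (n : ℝ)))}.ncard : ℝ) ≤
      C * Real.log (Real.log N) := by
  obtain ⟨B, hB⟩ := win d κ
  have hl2 : 0 < Real.log 2 := Real.log_pos (by norm_num)
  have hl3 : 1 < Real.log 3 := by
    rw [Real.lt_log_iff_exp_lt (by norm_num)]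
    exact lt_trans Real.exp_one_lt_d9 (by norm_num)
  have hc3 : 0 < Real.log (Real.log 3) := Real.log_pos hl3
  refine ⟨(1 + B + B * |Real.log (Real.log 2)| / Real.log 2) / Real.log (Real.log 3) +
    B / Real.log 2, fun N hN => ?_⟩
  have h1 : ({n : ℕ | 1 ≤ n ∧ n ≤ N ∧
      AV d ((n : ℝ) ^ κ) (Real.Gamma (1 / (n : ℝ)))}.ncard : ℝ) ≤
      1 + ((Nat.log 2 (Nat.log 2 N) : ℝ) + 1) * B := by
    exact_mod_cast ThreeAux.count hB N
  have h2 := ThreeAux.logs hN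
  have hN3 : (3 : ℝ) ≤ N := by exact_mod_cast hN
  have h3 : Real.log 3 ≤ Real.log N := Real.log_le_log (by norm_num) hN3
  have h4 : Real.log (Real.log 3) ≤ Real.log (Real.log N) := Real.log_le_log (by linarith) h3
  have h5 : (Nat.log 2 (Nat.log 2 N) : ℝ) ≤
      (Real.log (Real.log N) + |Real.log (Real.log 2)|) / Real.log 2 := by
    rw [le_div_iff₀ hl2]
    exact h2
  have hB0 : (0 : ℝ) ≤ B := Nat.cast_nonneg B
  have h6 : 1 ≤ Real.log (Real.log N) / Real.log (Real.log 3) := by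
    rw [le_div_iff₀ hc3, one_mul]
    exact h4
  have hA0 : 0 ≤ 1 + (B : ℝ) + B * |Real.log (Real.log 2)| / Real.log 2 := by positivity
  calc ({n : ℕ | 1 ≤ n ∧ n ≤ N ∧
      AV d ((n : ℝ) ^ κ) (Real.Gamma (1 / (n : ℝ)))}.ncard : ℝ)
      ≤ 1 + ((Nat.log 2 (Nat.log 2 N) : ℝ) + 1) * B := h1
    _ ≤ 1 + ((Real.log (Real.log N) + |Real.log (Real.log 2)|) / Real.log 2 + 1) * B := by
        gcongr
    _ = (1 + B + B * |Real.log (Real.log 2)| / Real.log 2) * 1 +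
        B / Real.log 2 * Real.log (Real.log N) := by ring
    _ ≤ (1 + B + B * |Real.log (Real.log 2)| / Real.log 2) *
          (Real.log (Real.log N) / Real.log (Real.log 3)) +
        B / Real.log 2 * Real.log (Real.log N) := by
        have := mul_le_mul_of_nonneg_left h6 hA0
        linarith
    _ = _ := by ring

end GQ
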