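import Mathlib
import Pool.Agent.Lib.GQ.Defs
import Pool.Agent.Lib.GQ.Cnt

/-!
# Part (2)

`main1n`: `n ↦ 1 / n` is injective from the set of the `n` into the set of `main1` (`(1/n : ℚ).den = n ≤ N`).
`main2`: for `N ≥ 2` apply `main1n` with `⌊N^a⌋₊ ≥ 1`, `H = exp (exp (N^b)) ≥ 3` (monotonicity of `AV` in `d` and `H`): `≤ C N^(3a) (log N + N^b)^2 ≤ C' N^(3a+2b)` because `log N ≤ N^b / b` (`Real.log_le_rpow_div`). `N = 1`: the set has at most one element.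
-/

set_option autoImplicit false

open Finset

namespace GQ

theorem TwoAux.av_mono {d d' : ℕ} {H H' x : ℝ} (hd : d ≤ d') (hH : H ≤ H') (h : AV d H x) :
    AV d' H' x := by
  obtain ⟨q, h1, h2, h3, h4⟩ := h
  exact ⟨q, h1, h2.trans hd, fun i => (h3 i).trans hH, h4⟩

theorem main1n : ∃ C : ℝ, ∀ (N d : ℕ) (H : ℝ), 2 ≤ N → 1 ≤ d → 3 ≤ H →
    ({n : ℕ | 1 ≤ n ∧ n ≤ N ∧ AV d H (Real.Gamma (1 / (n : ℝ)))}.ncard : ℝ) ≤
      C * d ^ 3 * (Real.log N + Real.log (Real.log H)) ^ 2 := by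
  obtain ⟨C, hC⟩ := main1
  refine ⟨C, fun N d H hN hd hH => ?_⟩
  obtain ⟨hfin, hcard⟩ := hC N d H hN hd hH
  refine le_trans ?_ hcard
  have key : {n : ℕ | 1 ≤ n ∧ n ≤ N ∧ AV d H (Real.Gamma (1 / (n : ℝ)))}.ncard ≤
      {r : ℚ | 0 < r ∧ r ≤ 1 ∧ r.den ≤ N ∧ AV d H (Real.Gamma (r : ℝ))}.ncard := by
    refine Set.ncard_le_ncard_of_injOn (fun n : ℕ => (n : ℚ)⁻¹) ?_ ?_ hfin
    · rintro n ⟨h1, h2, h3⟩
      have hn : (0 : ℚ) < n := by exact_mod_cast h1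
      have hn1 : (1 : ℚ) ≤ n := by exact_mod_cast h1
      refine ⟨inv_pos.2 hn, inv_le_one_of_one_le₀ hn1, ?_, ?_⟩
      · rw [Rat.inv_natCast_den_of_pos h1]
        exact h2
      · have e : (((n : ℚ)⁻¹ : ℚ) : ℝ) = 1 / (n : ℝ) := by
          push_cast
          rw [one_div]
        rw [e]
        exact h3
    · intro n _ m _ h
      exact_mod_cast inv_injective h
  exact_mod_cast key

theorem main2 (a b : ℝ) (ha : 0 ≤ a) (hb : 0 < b) : ∃ C : ℝ, ∀ N : ℕ, 1 ≤ N →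
    ({n : ℕ | 1 ≤ n ∧ n ≤ N ∧
      AV ⌊(n : ℝ) ^ a⌋₊ (Real.exp (Real.exp ((n : ℝ) ^ b))) (Real.Gamma (1 / (n : ℝ)))}.ncard : ℝ) ≤
      C * (N : ℝ) ^ (3 * a + 2 * b) := by
  obtain ⟨C, hC⟩ := main1n
  refine ⟨|C| * (1 / b + 1) ^ 2 + 1, fun N hN => ?_⟩
  have hN0 : (0 : ℝ) < N := by exact_mod_cast hN
  have hN1 : (1 : ℝ) ≤ N := by exact_mod_cast hN
  have hpow : 1 ≤ (N : ℝ) ^ (3 * a + 2 * b) := Real.one_le_rpow hN1 (by linarith)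
  have hCC : 0 ≤ |C| * (1 / b + 1) ^ 2 := by positivity
  rcases Nat.eq_or_lt_of_le hN with h1 | h1
  · subst h1
    have h2 : {n : ℕ | 1 ≤ n ∧ n ≤ 1 ∧
        AV ⌊(n : ℝ) ^ a⌋₊ (Real.exp (Real.exp ((n : ℝ) ^ b))) (Real.Gamma (1 / (n : ℝ)))} ⊆
        ({1} : Set ℕ) := by
      rintro n ⟨h3, h4, -⟩
      exact le_antisymm h4 h3
    have h3 := Set.ncard_le_ncard h2 (Set.finite_singleton 1)
    rw [Set.ncard_singleton] at h3
    have h4 : (({n : ℕ | 1 ≤ n ∧ n ≤ 1 ∧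
        AV ⌊(n : ℝ) ^ a⌋₊ (Real.exp (Real.exp ((n : ℝ) ^ b)))
          (Real.Gamma (1 / (n : ℝ)))}.ncard : ℕ) : ℝ) ≤ 1 := by exact_mod_cast h3
    exact h4.trans (one_le_mul_of_one_le_of_one_le (by linarith) hpow)
  · set d : ℕ := ⌊(N : ℝ) ^ a⌋₊ with hd
    set H : ℝ := Real.exp (Real.exp ((N : ℝ) ^ b)) with hH
    have hNa : 1 ≤ (N : ℝ) ^ a := Real.one_le_rpow hN1 ha
    have hNb : 1 ≤ (N : ℝ) ^ b := Real.one_le_rpow hN1 hb.le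
    have hd1 : 1 ≤ d := Nat.le_floor (by simpa using hNa)
    have hH3 : 3 ≤ H := by
      have e1 := Real.add_one_le_exp ((N : ℝ) ^ b)
      have e2 := Real.add_one_le_exp (Real.exp ((N : ℝ) ^ b))
      rw [hH]
      linarith
    have h2 : {n : ℕ | 1 ≤ n ∧ n ≤ N ∧
        AV ⌊(n : ℝ) ^ a⌋₊ (Real.exp (Real.exp ((n : ℝ) ^ b))) (Real.Gamma (1 / (n : ℝ)))} ⊆
        {n : ℕ | 1 ≤ n ∧ n ≤ N ∧ AV d H (Real.Gamma (1 / (n : ℝ)))} := by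
      rintro n ⟨h3, h4, h5⟩
      have hnN : (n : ℝ) ≤ N := by exact_mod_cast h4
      have hn0 : (0 : ℝ) ≤ n := by positivity
      refine ⟨h3, h4, TwoAux.av_mono (Nat.floor_le_floor (Real.rpow_le_rpow hn0 hnN ha)) ?_ h5⟩
      exact Real.exp_le_exp.2 (Real.exp_le_exp.2 (Real.rpow_le_rpow hn0 hnN hb.le))
    have hfin : {n : ℕ | 1 ≤ n ∧ n ≤ N ∧ AV d H (Real.Gamma (1 / (n : ℝ)))}.Finite :=
      (Set.finite_Iic N).subset (fun n hn => hn.2.1)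
    have h3 := Set.ncard_le_ncard h2 hfin
    have h4 : (({n : ℕ | 1 ≤ n ∧ n ≤ N ∧
        AV ⌊(n : ℝ) ^ a⌋₊ (Real.exp (Real.exp ((n : ℝ) ^ b)))
          (Real.Gamma (1 / (n : ℝ)))}.ncard : ℕ) : ℝ) ≤
        (({n : ℕ | 1 ≤ n ∧ n ≤ N ∧ AV d H (Real.Gamma (1 / (n : ℝ)))}.ncard : ℕ) : ℝ) := by
      exact_mod_cast h3
    refine h4.trans ((hC N d H h1 hd1 hH3).trans ?_)
    have hlog : Real.log (Real.log H) = (N : ℝ) ^ b := by
      rw [hH, Real.log_exp, Real.log_exp]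
    rw [hlog]
    have hlN : Real.log N ≤ (N : ℝ) ^ b / b := Real.log_le_rpow_div hN0.le hb
    have hlN0 : 0 ≤ Real.log N := Real.log_nonneg hN1
    have hda : (d : ℝ) ≤ (N : ℝ) ^ a := Nat.floor_le (by positivity)
    have e1 : (d : ℝ) ^ 3 ≤ (N : ℝ) ^ (3 * a) := by
      have e2 : (N : ℝ) ^ (3 * a) = ((N : ℝ) ^ a) ^ 3 := by
        rw [mul_comm, Real.rpow_mul hN0.le]
        norm_cast
      rw [e2]
      exact pow_le_pow_left₀ (Nat.cast_nonneg d) hda 3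
    have e3 : (Real.log N + (N : ℝ) ^ b) ^ 2 ≤ (1 / b + 1) ^ 2 * (N : ℝ) ^ (2 * b) := by
      have e4 : (N : ℝ) ^ (2 * b) = ((N : ℝ) ^ b) ^ 2 := by
        rw [mul_comm, Real.rpow_mul hN0.le]
        norm_cast
      rw [e4, ← mul_pow]
      refine pow_le_pow_left₀ (by positivity) ?_ 2
      have e5 : (1 / b + 1) * (N : ℝ) ^ b = (N : ℝ) ^ b / b + (N : ℝ) ^ b := by
        field_simp
      rw [e5]
      linarith
    calc C * (d : ℝ) ^ 3 * (Real.log N + (N : ℝ) ^ b) ^ 2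
        ≤ |C| * (d : ℝ) ^ 3 * (Real.log N + (N : ℝ) ^ b) ^ 2 := by
          have := le_abs_self C
          gcongr
      _ ≤ |C| * (N : ℝ) ^ (3 * a) * ((1 / b + 1) ^ 2 * (N : ℝ) ^ (2 * b)) := by
          gcongr
      _ = |C| * (1 / b + 1) ^ 2 * (N : ℝ) ^ (3 * a + 2 * b) := by
          rw [Real.rpow_add hN0]
          ring
      _ ≤ (|C| * (1 / b + 1) ^ 2 + 1) * (N : ℝ) ^ (3 * a + 2 * b) := by
          have : 0 ≤ (N : ℝ) ^ (3 * a + 2 * b) := by positivity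
          nlinarith

end GQ
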